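import Pool.Agent.Lib.LocD.E1

/-!
# LocD.A7: k common neighbours give a k-set with few distances

PROOF. For `T' ⊆ T` let `F T' = ({i, j} : Finset ℕ) ×ˢ T'` and `W T' = G.pts {i, j} (F T')`. `|F T'| = 2 |T'|`, `(F T').image Prod.snd = T'` (for
`T'` nonempty; for `T' = ∅` both are empty), so by `Gam.excess`: `numDist (W T') + 2 |T'| ≤ (W T').card.choose 2`. Also `|W T'| ≤ 4 + 2 |T'|`
(`pts_card_le`) and `|W T'| ≥ 4 + |T'|`: it contains the 4 different points `a i, b i, a j, b j` and the points `x i σ`, `σ ∈ T'`, different from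
each other (`Gam.x_inj`) and from the four (`G.ax`, `G.bx`). Consider the subsets `T' ⊆ T` with `|W T'| ≤ k` (nonempty family: `T' = ∅`, 4 points,
`4 ≤ k`) and take one with `|T'|` maximal (`Finset.exists_max_image` over `T.powerset.filter`). As `|W T| ≥ 4 + k > k`, `T' ≠ T`; let `σ ∈ T \ T'`.
`W (insert σ T')` has at most two more points (`x i σ`, `x j σ`) and more than `k` points by maximality: so `|W T'| ≥ k - 1`. `fill_up` (with
`|P| ≥ |W T| ≥ k`) gives `S` with `numDist S ≤ k.choose 2 - 2 |T'|`. If `|W T'| = k`: `2 |T'| ≥ k - 4`. If `|W T'| = k - 1`: `2 |T'| ≥ k - 5`.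
In both cases `2 |T'| + 4 ≥ 2 (k / 2)` (`omega`).
-/

namespace Pool.Agent.Lib.LocD

open Finset

private noncomputable def WW {P : Finset Pl} {q : ℕ} (G : Gam P q) (i j : ℕ) (T : Finset (ℕ × ℕ)) : Finset Pl :=
  G.pts {i, j} (({i, j} : Finset ℕ) ×ˢ T)

private theorem mem_WW {P : Finset Pl} {q : ℕ} (G : Gam P q) (i j : ℕ) (T : Finset (ℕ × ℕ)) (z : Pl) :
    z ∈ WW G i j T ↔ (z = G.a i ∨ z = G.a j) ∨ (z = G.b i ∨ z = G.b j) ∨
      (∃ σ ∈ T, z = G.x i σ) ∨ ∃ σ ∈ T, z = G.x j σ := by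
  unfold WW Gam.pts
  simp only [mem_union, mem_image, mem_product, mem_insert, mem_singleton]
  constructor
  · rintro ((⟨l, (rfl | rfl), rfl⟩ | ⟨l, (rfl | rfl), rfl⟩) | ⟨⟨l, σ⟩, ⟨h1, h2⟩, rfl⟩)
    · exact Or.inl (Or.inl rfl)
    · exact Or.inl (Or.inr rfl)
    · exact Or.inr (Or.inl (Or.inl rfl))
    · exact Or.inr (Or.inl (Or.inr rfl))
    · rcases h1 with h1 | h1
      · have h1' : l = i := h1
        subst h1'
        exact Or.inr (Or.inr (Or.inl ⟨σ, h2, rfl⟩))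
      · have h1' : l = j := h1
        subst h1'
        exact Or.inr (Or.inr (Or.inr ⟨σ, h2, rfl⟩))
  · rintro ((rfl | rfl) | (rfl | rfl) | ⟨σ, h, rfl⟩ | ⟨σ, h, rfl⟩)
    · exact Or.inl (Or.inl ⟨i, Or.inl rfl, rfl⟩)
    · exact Or.inl (Or.inl ⟨j, Or.inr rfl, rfl⟩)
    · exact Or.inl (Or.inr ⟨i, Or.inl rfl, rfl⟩)
    · exact Or.inl (Or.inr ⟨j, Or.inr rfl, rfl⟩)
    · exact Or.inr ⟨(i, σ), ⟨Or.inl rfl, h⟩, rfl⟩
    · exact Or.inr ⟨(j, σ), ⟨Or.inr rfl, h⟩, rfl⟩

private theorem WW_lower {P : Finset Pl} {q : ℕ} (G : Gam P q) {i j : ℕ} (hi : i < q) (hj : j < q)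
    (hij : i ≠ j) {T : Finset (ℕ × ℕ)} (hT : T ⊆ G.N i ∩ G.N j) : 4 + T.card ≤ (WW G i j T).card := by
  have h1 : G.a i ≠ G.b i := G.ab i hi i hi
  have h2 : G.a i ≠ G.a j := fun h => hij (G.ainj i hi j hj h)
  have h3 : G.a i ≠ G.b j := G.ab i hi j hj
  have h4 : G.b i ≠ G.a j := (G.ab j hj i hi).symm
  have h5 : G.b i ≠ G.b j := fun h => hij (G.binj i hi j hj h)
  have h6 : G.a j ≠ G.b j := G.ab j hj j hj
  have hc4 : ({G.a i, G.b i, G.a j, G.b j} : Finset Pl).card = 4 := by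
    rw [card_insert_of_notMem, card_insert_of_notMem, card_pair h6]
    · simp [h4, h5]
    · simp [h1, h2, h3]
  have hinj : Set.InjOn (G.x i) T := by
    intro σ hσ τ hτ h
    exact G.x_inj hi (mem_inter.1 (hT hσ)).1 (mem_inter.1 (hT hτ)).1 h
  have hcT : (T.image (G.x i)).card = T.card := card_image_of_injOn hinj
  have hdis : Disjoint ({G.a i, G.b i, G.a j, G.b j} : Finset Pl) (T.image (G.x i)) := by
    rw [disjoint_left]
    intro z hz hz'
    obtain ⟨σ, hσ, rfl⟩ := mem_image.1 hz'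
    have hs := (mem_inter.1 (hT hσ)).1
    simp only [mem_insert, mem_singleton] at hz
    rcases hz with h | h | h | h
    · exact G.ax i hi i hi σ hs h.symm
    · exact G.bx i hi i hi σ hs h.symm
    · exact G.ax j hj i hi σ hs h.symm
    · exact G.bx j hj i hi σ hs h.symm
  have hsub : ({G.a i, G.b i, G.a j, G.b j} : Finset Pl) ∪ T.image (G.x i) ⊆ WW G i j T := by
    intro z hz
    rw [mem_WW]
    rw [mem_union, mem_image] at hz
    simp only [mem_insert, mem_singleton] at hz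
    rcases hz with (h | h | h | h) | ⟨σ, hσ, h⟩
    · exact Or.inl (Or.inl h)
    · exact Or.inr (Or.inl (Or.inl h))
    · exact Or.inl (Or.inr h)
    · exact Or.inr (Or.inl (Or.inr h))
    · exact Or.inr (Or.inr (Or.inl ⟨σ, hσ, h.symm⟩))
  have := card_le_card hsub
  rw [card_union_of_disjoint hdis, hc4, hcT] at this
  exact this

private theorem WW_insert {P : Finset Pl} {q : ℕ} (G : Gam P q) (i j : ℕ) (T : Finset (ℕ × ℕ)) (σ : ℕ × ℕ) :
    (WW G i j (insert σ T)).card ≤ (WW G i j T).card + 2 := by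
  have hsub : WW G i j (insert σ T) ⊆ insert (G.x i σ) (insert (G.x j σ) (WW G i j T)) := by
    intro z hz
    rw [mem_WW] at hz
    rw [mem_insert, mem_insert, mem_WW]
    rcases hz with h | h | ⟨τ, hτ, rfl⟩ | ⟨τ, hτ, rfl⟩
    · exact Or.inr (Or.inr (Or.inl h))
    · exact Or.inr (Or.inr (Or.inr (Or.inl h)))
    · rcases mem_insert.1 hτ with rfl | h
      · exact Or.inl rfl
      · exact Or.inr (Or.inr (Or.inr (Or.inr (Or.inl ⟨τ, h, rfl⟩))))
    · rcases mem_insert.1 hτ with rfl | h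
      · exact Or.inr (Or.inl rfl)
      · exact Or.inr (Or.inr (Or.inr (Or.inr (Or.inr ⟨τ, h, rfl⟩))))
  have h1 := card_le_card hsub
  have h2 := card_insert_le (G.x i σ) (insert (G.x j σ) (WW G i j T))
  have h3 := card_insert_le (G.x j σ) (WW G i j T)
  omega

theorem Gam.two_common {P : Finset Pl} {q : ℕ} (G : Gam P q) (k : ℕ) (hk : 4 ≤ k) (i j : ℕ) (hi : i < q) (hj : j < q)
    (hij : i ≠ j) (T : Finset (ℕ × ℕ)) (hT : T ⊆ G.N i ∩ G.N j) (hTk : k ≤ T.card) :
    ∃ S ⊆ P, S.card = k ∧ numDist S + 2 * (k / 2) ≤ k.choose 2 + 4 := by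
  have hpair : ({i, j} : Finset ℕ).card = 2 := card_pair hij
  have hN : ∀ T' ⊆ T, ∀ e ∈ (({i, j} : Finset ℕ) ×ˢ T'), e.1 ∈ ({i, j} : Finset ℕ) ∧ e.2 ∈ G.N e.1 := by
    intro T' hT' e he
    obtain ⟨h1, h2⟩ := mem_product.1 he
    refine ⟨h1, ?_⟩
    have h3 := mem_inter.1 (hT (hT' h2))
    rcases mem_insert.1 h1 with h | h
    · rw [h]; exact h3.1
    · rw [mem_singleton.1 h]; exact h3.2
  have hL : ∀ l ∈ ({i, j} : Finset ℕ), l < q := by
    intro l hl
    rcases mem_insert.1 hl with h | h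
    · rw [h]; exact hi
    · rw [mem_singleton.1 h]; exact hj
  have hsubP : ∀ T' ⊆ T, WW G i j T' ⊆ P := fun T' hT' => G.pts_subset _ _ hL (hN T' hT')
  have hexc : ∀ T' ⊆ T, numDist (WW G i j T') + 2 * T'.card ≤ (WW G i j T').card.choose 2 := by
    intro T' hT'
    have h1 := G.excess {i, j} (({i, j} : Finset ℕ) ×ˢ T') hL (hN T' hT')
    rw [card_product, hpair] at h1
    have h2 : ((({i, j} : Finset ℕ) ×ˢ T').image Prod.snd).card ≤ T'.card := by
      apply card_le_card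
      intro σ hσ
      obtain ⟨e, he, rfl⟩ := mem_image.1 hσ
      exact (mem_product.1 he).2
    change numDist (WW G i j T') + _ ≤ (WW G i j T').card.choose 2 + _ at h1
    omega
  have hup : ∀ T' : Finset (ℕ × ℕ), (WW G i j T').card ≤ 4 + 2 * T'.card := by
    intro T'
    have h1 := G.pts_card_le {i, j} (({i, j} : Finset ℕ) ×ˢ T')
    rw [card_product, hpair] at h1
    exact h1
  obtain ⟨T', hT', hmax⟩ := exists_max_image (T.powerset.filter (fun T' => (WW G i j T').card ≤ k))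
    (fun T' => T'.card) ⟨∅, by
      rw [mem_filter]
      refine ⟨mem_powerset.2 (empty_subset _), ?_⟩
      have := hup ∅
      simp only [card_empty, mul_zero, add_zero] at this
      omega⟩
  rw [mem_filter, mem_powerset] at hT'
  obtain ⟨hT1, hT2⟩ := hT'
  have hne : T' ≠ T := by
    rintro rfl
    have := WW_lower G hi hj hij hT
    omega
  obtain ⟨σ, hσ1, hσ2⟩ := exists_of_ssubset (hT1.ssubset_of_ne hne)
  have hbig : k < (WW G i j (insert σ T')).card := by
    by_contra hle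
    push Not at hle
    have := hmax (insert σ T') (mem_filter.2 ⟨mem_powerset.2 (insert_subset hσ1 hT1), hle⟩)
    rw [card_insert_of_notMem hσ2] at this
    omega
  have h1 := WW_insert G i j T' σ
  have h2 := hup T'
  have h3 := WW_lower G hi hj hij hT
  have h4 := card_le_card (hsubP T (Subset.refl _))
  obtain ⟨S, hS1, hS2, hS3⟩ := fill_up (hsubP T' hT1) k hT2 (by omega)
  refine ⟨S, hS1, hS2, ?_⟩
  have h5 := hexc T' hT1
  omega

end Pool.Agent.Lib.LocD
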