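import Mathlib

/-!
# LocD.K1: Kovari-Sos-Turan

PROOF. First shrink: choose `N' i ⊆ N i` with exactly `E0` elements (`Finset.exists_subset_card_eq`). With `d s = #{i < q | s ∈ N' i}`:
`Σ_{s ∈ R} d s = q E0`, `Σ_s d s ^ 2 = Σ_{i,j < q} |N' i ∩ N' j| ≤ q E0 + q^2 k` (diagonal terms `E0`, the others `≤ k`). Cauchy-Schwarz
(`sq_sum_le_card_mul_sum_sq`): `(q E0)^2 ≤ |R| (q E0 + q^2 k)`. Divide by `q` (`q = 0` trivial).
-/

namespace Pool.Agent.Lib.LocD

open Finset

private theorem ksum {β : Type*} [DecidableEq β] (q : ℕ) (N : ℕ → Finset β) (R : Finset β)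
    (hR : ∀ i < q, N i ⊆ R) :
    ∑ s ∈ R, ((range q).filter (fun i => s ∈ N i)).card = ∑ i ∈ range q, (N i).card := by
  simp_rw [Finset.card_filter]
  rw [Finset.sum_comm]
  refine Finset.sum_congr rfl fun i hi => ?_
  rw [← Finset.card_filter]
  congr 1
  ext s
  simp only [Finset.mem_filter]
  exact ⟨fun h => h.2, fun h => ⟨hR i (Finset.mem_range.1 hi) h, h⟩⟩

private theorem ksum2 {β : Type*} [DecidableEq β] (q : ℕ) (N : ℕ → Finset β) (R : Finset β)
    (hR : ∀ i < q, N i ⊆ R) :
    ∑ s ∈ R, ((range q).filter (fun i => s ∈ N i)).card ^ 2 =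
      ∑ i ∈ range q, ∑ j ∈ range q, (N i ∩ N j).card := by
  have h1 : ∀ s, ((range q).filter (fun i => s ∈ N i)).card ^ 2 =
      ∑ i ∈ range q, ∑ j ∈ range q, (if s ∈ N i ∩ N j then 1 else 0) := by
    intro s
    rw [sq, Finset.card_filter, Finset.sum_mul_sum]
    refine Finset.sum_congr rfl fun i _ => Finset.sum_congr rfl fun j _ => ?_
    by_cases h : s ∈ N i <;> by_cases h' : s ∈ N j <;> simp [h, h']
  rw [Finset.sum_congr rfl fun s _ => h1 s, Finset.sum_comm]
  refine Finset.sum_congr rfl fun i hi => ?_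
  rw [Finset.sum_comm]
  refine Finset.sum_congr rfl fun j _ => ?_
  rw [← Finset.card_filter]
  congr 1
  ext s
  simp only [Finset.mem_filter, Finset.mem_inter]
  exact ⟨fun h => h.2, fun h => ⟨hR i (Finset.mem_range.1 hi) h.1, h⟩⟩

private theorem kst_eq {β : Type*} [DecidableEq β] (q : ℕ) (N : ℕ → Finset β) (R : Finset β)
    (E0 k : ℕ) (hR : ∀ i < q, N i ⊆ R) (hE : ∀ i < q, (N i).card = E0)
    (hk : ∀ i < q, ∀ j < q, i ≠ j → (N i ∩ N j).card ≤ k) :
    q * E0 ^ 2 ≤ R.card * (E0 + q * k) := by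
  rcases Nat.eq_zero_or_pos q with rfl | hq
  · simp
  have h1 := ksum q N R hR
  have h2 := ksum2 q N R hR
  have h3 : ∑ i ∈ range q, (N i).card = q * E0 := by
    rw [Finset.sum_congr rfl fun i hi => hE i (Finset.mem_range.1 hi)]
    simp
  have h4 : ∑ i ∈ range q, ∑ j ∈ range q, (N i ∩ N j).card ≤ q * (E0 + q * k) := by
    calc ∑ i ∈ range q, ∑ j ∈ range q, (N i ∩ N j).card
        ≤ ∑ i ∈ range q, (E0 + q * k) := by
          refine Finset.sum_le_sum fun i hi => ?_
          have hi' := Finset.mem_range.1 hi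
          rw [← Finset.add_sum_erase _ _ hi, Finset.inter_self, hE i hi']
          refine Nat.add_le_add_left ?_ _
          calc ∑ j ∈ (range q).erase i, (N i ∩ N j).card
              ≤ ∑ j ∈ (range q).erase i, k := by
                refine Finset.sum_le_sum fun j hj => ?_
                rw [Finset.mem_erase, Finset.mem_range] at hj
                exact hk i hi' j hj.2 hj.1.symm
            _ = ((range q).erase i).card * k := by simp
            _ ≤ q * k := by
                refine Nat.mul_le_mul_right _ ?_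
                refine (Finset.card_le_card (Finset.erase_subset _ _)).trans ?_
                simp
      _ = q * (E0 + q * k) := by simp
  have h5 := sq_sum_le_card_mul_sum_sq (s := R)
    (f := fun s => ((range q).filter (fun i => s ∈ N i)).card)
  rw [h1, h2, h3] at h5
  have h6 : q * (q * E0 ^ 2) ≤ q * (R.card * (E0 + q * k)) := by
    calc q * (q * E0 ^ 2) = (q * E0) ^ 2 := by ring
      _ ≤ R.card * ∑ i ∈ range q, ∑ j ∈ range q, (N i ∩ N j).card := h5
      _ ≤ R.card * (q * (E0 + q * k)) := Nat.mul_le_mul_left _ h4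
      _ = q * (R.card * (E0 + q * k)) := by ring
  exact Nat.le_of_mul_le_mul_left h6 hq

theorem kst {β : Type*} [DecidableEq β] (q : ℕ) (N : ℕ → Finset β) (R : Finset β) (E0 k : ℕ)
    (hR : ∀ i < q, N i ⊆ R) (hE : ∀ i < q, E0 ≤ (N i).card)
    (hk : ∀ i < q, ∀ j < q, i ≠ j → (N i ∩ N j).card ≤ k) :
    q * E0 ^ 2 ≤ R.card * (E0 + q * k) := by
  have h : ∀ i, ∃ T : Finset β, i < q → T ⊆ N i ∧ T.card = E0 := by
    intro i
    by_cases hi : i < q
    · obtain ⟨T, hT, hc⟩ := Finset.exists_subset_card_eq (hE i hi)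
      exact ⟨T, fun _ => ⟨hT, hc⟩⟩
    · exact ⟨∅, fun h => absurd h hi⟩
  choose T hT using h
  refine kst_eq q T R E0 k (fun i hi => (hT i hi).1.trans (hR i hi)) (fun i hi => (hT i hi).2) ?_
  intro i hi j hj hij
  exact (Finset.card_le_card (Finset.inter_subset_inter (hT i hi).1 (hT j hj).1)).trans
    (hk i hi j hj hij)

end Pool.Agent.Lib.LocD
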