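import Mathlib

/-!
# LocD.PN: the parameters

PROOF. `α = n / 2` (floor), `ξ = n - α ≥ n / 2`, `m = Nat.sqrt α / 4` (floor), `q = α / 4` (floor), `M = ξ D`,
`t = ⌊2 log n * M / m⌋₊ + 1`, `w = 2 t / ξ` (floor).
* `α ≥ 5000`, `√α ≥ 70`, so `m ≥ 17` and (real) `m ≥ (√α - 1)/4 - 1 ≥ √α / 5 ≥ √n / 7.5`, `m ≤ √α / 4`.
* `(2m+1)^2 ≤ (√α/2 + 1)^2 ≤ α / 2` as `α ≥ 24`; `2 q ≤ α / 2`. `n ≤ 16 q`: `q ≥ α/4 - 3/4 ≥ (n-1)/8 - 3/4`.
* sampling condition: if `M ≤ t` the left side is `0` (`m ≥ 1`) and `M ≥ 1`. Otherwise `(M - t)^m = M^m (1 - t/M)^m ≤ M^m exp(-t m/M)`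
  (`Real.add_one_le_exp`) `< M^m exp(-2 log n) = M^m / n^2` as `t > 2 log n M/m`; and `α^2 ≤ n^2`.
* `2 t ≤ (w+1) ξ`: `Nat.lt_succ_iff`/`Nat.div_add_mod`. `w ≤ 2 t/ξ ≤ 4 log n D/m + 2/ξ ≤ 30 D log n/√n + 1`.
-/

namespace Pool.Agent.Lib.LocD

private theorem sampling (n α M m t : ℕ) (hn : 1 ≤ n) (hα : α ≤ n) (hM : 1 ≤ M) (hm : 1 ≤ m)
    (ht : 2 * Real.log n * M / m < t) : α ^ 2 * (M - t) ^ m < M ^ m := by
  by_cases hMt : M ≤ t
  · rw [Nat.sub_eq_zero_of_le hMt, zero_pow (by omega), mul_zero]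
    exact pow_pos (by omega) m
  · push Not at hMt
    have hM0 : (0 : ℝ) < M := by exact_mod_cast (by omega : 0 < M)
    have hm0 : (0 : ℝ) < m := by exact_mod_cast (by omega : 0 < m)
    have hn0 : (0 : ℝ) < n := by exact_mod_cast (by omega : 0 < n)
    have h1 : ((M - t : ℕ) : ℝ) = M * (1 - t / M) := by
      rw [Nat.cast_sub hMt.le]
      field_simp
    have h0 : (0 : ℝ) ≤ 1 - t / M := by
      rw [sub_nonneg, div_le_one hM0]
      exact_mod_cast hMt.le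
    have h2 : (1 : ℝ) - t / M ≤ Real.exp (-(t / M)) := by
      have := Real.add_one_le_exp (-((t : ℝ) / M))
      linarith
    have h3 : ((1 : ℝ) - t / M) ^ m ≤ Real.exp (-(t / M)) ^ m := pow_le_pow_left₀ h0 h2 m
    have h4 : Real.exp (-((t : ℝ) / M)) ^ m < 1 / (n : ℝ) ^ 2 := by
      rw [← Real.exp_nat_mul]
      have h5 : (m : ℝ) * (-((t : ℝ) / M)) < -(2 * Real.log n) := by
        rw [div_lt_iff₀ hm0] at ht
        have h6 : 2 * Real.log n < (t : ℝ) * m / M := by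
          rw [lt_div_iff₀ hM0]
          exact ht
        have h7 : (m : ℝ) * (-((t : ℝ) / M)) = -((t : ℝ) * m / M) := by ring
        rw [h7]
        linarith
      have h8 : Real.exp (-(2 * Real.log n)) = 1 / (n : ℝ) ^ 2 := by
        rw [Real.exp_neg, two_mul, Real.exp_add, Real.exp_log hn0, one_div, sq]
      rw [← h8]
      exact Real.exp_lt_exp.2 h5
    have hMm : (0 : ℝ) < (M : ℝ) ^ m := by positivity
    have h9 : ((α : ℝ)) ^ 2 ≤ (n : ℝ) ^ 2 := by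
      have : (α : ℝ) ≤ n := by exact_mod_cast hα
      exact pow_le_pow_left₀ (by positivity) this 2
    have h10 : ((α ^ 2 * (M - t) ^ m : ℕ) : ℝ) < ((M ^ m : ℕ) : ℝ) := by
      rw [Nat.cast_mul, Nat.cast_pow, Nat.cast_pow, Nat.cast_pow, h1, mul_pow]
      have h11 : ((1 : ℝ) - t / M) ^ m < 1 / (n : ℝ) ^ 2 := lt_of_le_of_lt h3 h4
      have hn2 : (0 : ℝ) < (n : ℝ) ^ 2 := by positivity
      calc (α : ℝ) ^ 2 * ((M : ℝ) ^ m * (1 - t / M) ^ m)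
          ≤ (n : ℝ) ^ 2 * ((M : ℝ) ^ m * (1 - t / M) ^ m) :=
            mul_le_mul_of_nonneg_right h9 (mul_nonneg hMm.le (pow_nonneg h0 m))
        _ < (n : ℝ) ^ 2 * ((M : ℝ) ^ m * (1 / (n : ℝ) ^ 2)) :=
            mul_lt_mul_of_pos_left (mul_lt_mul_of_pos_left h11 hMm) hn2
        _ = (M : ℝ) ^ m := by field_simp
    exact_mod_cast h10

theorem params (n D : ℕ) (hn : 10000 ≤ n) (hD : 1 ≤ D) :
    ∃ α ξ t m q w : ℕ, α + ξ ≤ n ∧ α ^ 2 * (ξ * D - t) ^ m < (ξ * D) ^ m ∧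
      2 * q + (2 * m + 1) ^ 2 ≤ α ∧ 2 * t ≤ (w + 1) * ξ ∧ n ≤ 16 * q ∧ q ≤ n ∧ n ≤ 2 * ξ ∧ ξ ≤ n ∧
      (w : ℝ) ≤ 30 * D * Real.log n / Real.sqrt n + 1 := by
  obtain ⟨α, hα⟩ : ∃ α, α = n / 2 := ⟨_, rfl⟩
  obtain ⟨ξ, hξ⟩ : ∃ ξ, ξ = n - α := ⟨_, rfl⟩
  obtain ⟨s, hs⟩ : ∃ s, s = Nat.sqrt α := ⟨_, rfl⟩
  obtain ⟨m, hm⟩ : ∃ m, m = s / 4 := ⟨_, rfl⟩
  obtain ⟨t, ht⟩ : ∃ t, t = ⌊2 * Real.log n * ((ξ * D : ℕ) : ℝ) / m⌋₊ + 1 := ⟨_, rfl⟩
  have hs1 : s * s ≤ α := by rw [hs]; exact Nat.sqrt_le α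
  have hs2 : α < (s + 1) * (s + 1) := by rw [hs]; exact Nat.lt_succ_sqrt α
  have hα1 : 5000 ≤ α := by omega
  have hs3 : 70 ≤ s := by
    by_contra hcon
    have h1 : s + 1 ≤ 70 := by omega
    have h2 : (s + 1) * (s + 1) ≤ 70 * 70 := Nat.mul_le_mul h1 h1
    omega
  have hm1 : 17 ≤ m := by omega
  have hm2 : 4 * m ≤ s := by omega
  have hm3 : s + 1 ≤ 4 * m + 4 := by omega
  have hnm : n ≤ 36 * (m * m) := by
    have h1 : n ≤ 2 * α + 1 := by omega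
    have h2 : α < (4 * m + 4) * (4 * m + 4) := lt_of_lt_of_le hs2 (Nat.mul_le_mul hm3 hm3)
    have h3 : (4 * m + 4) * (4 * m + 4) = 16 * (m * m) + 32 * m + 16 := by ring
    have h4 : 17 * m ≤ m * m := Nat.mul_le_mul_right m hm1
    omega
  have hξ1 : 2 ≤ ξ := by omega
  refine ⟨α, ξ, t, m, α / 4, 2 * t / ξ, by omega, ?_, ?_, ?_, by omega, by omega, by omega,
    by omega, ?_⟩
  · refine sampling n α (ξ * D) m t (by omega) (by omega) ?_ (by omega) ?_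
    · exact Nat.mul_pos (by omega) hD
    · rw [ht]
      push_cast
      have := Nat.lt_floor_add_one (2 * Real.log n * ((ξ * D : ℕ) : ℝ) / m)
      push_cast at this
      exact this
  · have h1 : 4 * (α / 4) ≤ α := Nat.mul_div_le α 4
    have h2 : 2 * (2 * m + 1) ^ 2 ≤ α := by
      have h3 : (4 * m) * (4 * m) ≤ s * s := Nat.mul_le_mul hm2 hm2
      have h4 : 17 * m ≤ m * m := Nat.mul_le_mul_right m hm1
      have h5 : 2 * (2 * m + 1) ^ 2 = 8 * (m * m) + 8 * m + 2 := by ring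
      have h6 : (4 * m) * (4 * m) = 16 * (m * m) := by ring
      omega
    omega
  · have h1 := Nat.div_add_mod (2 * t) ξ
    have h2 := Nat.mod_lt (2 * t) (show 0 < ξ by omega)
    have h3 : (2 * t / ξ + 1) * ξ = ξ * (2 * t / ξ) + ξ := by ring
    omega
  · have hn0 : (0 : ℝ) < n := by exact_mod_cast (by omega : 0 < n)
    have hm0 : (0 : ℝ) < m := by exact_mod_cast (by omega : 0 < m)
    have hξ0 : (2 : ℝ) ≤ ξ := by exact_mod_cast hξ1
    have hξp : (0 : ℝ) < ξ := by linarith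
    have hlog : 0 ≤ Real.log n := Real.log_nonneg (by exact_mod_cast (by omega : 1 ≤ n))
    have hD0 : (0 : ℝ) ≤ D := by positivity
    have h1 : ((2 * t / ξ : ℕ) : ℝ) ≤ ((2 * t : ℕ) : ℝ) / ξ := Nat.cast_div_le
    have h2 : (t : ℝ) ≤ 2 * Real.log n * (ξ * D) / m + 1 := by
      rw [ht]
      push_cast
      have h3 := Nat.floor_le (a := 2 * Real.log n * ((ξ : ℝ) * D) / m) (by positivity)
      linarith
    have h4 : ((2 * t : ℕ) : ℝ) / ξ ≤ 4 * D * Real.log n / m + 1 := by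
      rw [div_le_iff₀ hξp]
      push_cast
      have h5 : (4 * D * Real.log n / m + 1) * ξ = 2 * (2 * Real.log n * (ξ * D) / m) + ξ := by
        field_simp
        ring
      rw [h5]
      linarith
    have hsq : Real.sqrt n ≤ 6 * m := by
      rw [Real.sqrt_le_left (by positivity)]
      have h6 : (n : ℝ) ≤ 36 * (m * m) := by exact_mod_cast hnm
      nlinarith
    have hsq0 : 0 < Real.sqrt n := Real.sqrt_pos.2 hn0
    have h7 : 4 * D * Real.log n / m ≤ 30 * D * Real.log n / Real.sqrt n := by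
      rw [div_le_div_iff₀ hm0 hsq0]
      have h8 : 0 ≤ D * Real.log n := mul_nonneg hD0 hlog
      have h9 : D * Real.log n * Real.sqrt n ≤ D * Real.log n * (6 * m) :=
        mul_le_mul_of_nonneg_left hsq h8
      nlinarith [mul_nonneg h8 hm0.le]
    linarith

end Pool.Agent.Lib.LocD
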