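import Pool.Agent.Lib.LocD.M1
import Pool.Agent.Lib.LocD.PN
import Pool.Agent.Lib.LocD.K1
import Pool.Agent.Lib.LocD.A7

/-!
# LocD.A8: Theorem A, exponent 5/4

PROOF. Let `n = P.card`, `D = numDist P`. CASE `n < N0 = 10000 + k` : `D ≥ 1` (two different points), so any `c ≤ √(log 2) / N0^(5/4)` works
(`n ≥ 2`, `log n ≥ log 2`). CASE `n ≥ N0`: `params n D` and `exists_gam` give `G`. If some `i ≠ j` (< q) have `|N i ∩ N j| ≥ k` then `two_common`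
gives a `k`-set `S` with `numDist S + 2 (k/2) ≤ C(k,2) + 4`, contradiction to `hℓ` and the local property. So all `|N i ∩ N j| ≤ k` and
`kst q G.N (strip D w) E0 k` with `E0 = (ξ + 3) / 4` (floor; `ξ ≤ 4 |N i|`) gives `q E0^2 ≤ D (2w+1) (E0 + q k)` (`strip_card_le`). Real numbers:
`q ≥ n/16`, `n/8 ≤ ξ/4 ≤ E0 ≤ ξ ≤ n`, `q ≤ n`: `n^3/1024 ≤ D (2w+1) n (1+k)`, so `n^2 ≤ 1024 (1+k) D (2 w + 1) ≤ 1024 (1+k) (60 D^2 log n/√n + 3 D)`.
Either `6144 (1+k) D ≥ n^2` or `122880 (1+k) D^2 log n ≥ n^(5/2)`: with a small `c` both give `D ≥ c n^(5/4)/√(log n)` (`n^2 ≥ n^(5/4)`,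
`log n ≥ 1`). `numeric_A` isolates this.
-/

namespace Pool.Agent.Lib.LocD

open Finset

/-- the numerical end of the proof -/
theorem numeric_A (K : ℝ) (hK : 1 ≤ K) : ∃ c : ℝ, 0 < c ∧ ∀ n D w : ℕ, 10000 ≤ n →
    (w : ℝ) ≤ 30 * D * Real.log n / Real.sqrt n + 1 → (n : ℝ) ^ 2 ≤ K * (D * (2 * w + 1)) →
    c * (n : ℝ) ^ (5 / 4 : ℝ) / Real.sqrt (Real.log n) ≤ D := by
  refine ⟨1 / (120 * K), by positivity, ?_⟩
  intro n D w hn hw h
  have hn4 : (10000 : ℝ) ≤ n := by exact_mod_cast hn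
  have hn0 : (0 : ℝ) < n := by linarith
  obtain ⟨L, hL⟩ : ∃ L, L = Real.log n := ⟨_, rfl⟩
  obtain ⟨s, hs⟩ : ∃ s, s = Real.sqrt n := ⟨_, rfl⟩
  obtain ⟨y, hy⟩ : ∃ y, y = (n : ℝ) ^ (5 / 4 : ℝ) := ⟨_, rfl⟩
  obtain ⟨r, hr⟩ : ∃ r, r = Real.sqrt L := ⟨_, rfl⟩
  have hL1 : 1 ≤ L := by
    rw [hL, Real.le_log_iff_exp_le hn0]
    have := Real.exp_one_lt_d9
    linarith
  have hs0 : 0 < s := by rw [hs]; exact Real.sqrt_pos.2 hn0
  have hr1 : 1 ≤ r := by rw [hr]; exact Real.one_le_sqrt.2 hL1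
  have hr2 : r ^ 2 = L := by rw [hr]; exact Real.sq_sqrt (by linarith)
  have hy0 : 0 < y := by rw [hy]; exact Real.rpow_pos_of_pos hn0 _
  have hy2 : y ^ 2 = (n : ℝ) ^ 2 * s := by
    rw [hy, hs, Real.sqrt_eq_rpow, ← Real.rpow_natCast, ← Real.rpow_mul hn0.le, ← Real.rpow_natCast (n : ℝ) 2,
      ← Real.rpow_add hn0]
    norm_num
  have hyn : y ≤ (n : ℝ) ^ 2 := by
    rw [hy, ← Real.rpow_natCast (n : ℝ) 2]
    refine Real.rpow_le_rpow_of_exponent_le (by linarith) ?_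
    norm_num
  rw [← hL, ← hs] at hw
  rw [← hL, ← hy, ← hr]
  by_contra hcon
  rw [not_le, lt_div_iff₀ (by linarith)] at hcon
  have hK0 : 0 < K := by linarith
  have hD0 : (0 : ℝ) ≤ D := Nat.cast_nonneg D
  -- `D r < y / (120 K)`
  have h1 : 120 * K * (D * r) < y := by
    have h2 : 120 * K * (D * r) < 120 * K * (1 / (120 * K) * y) := mul_lt_mul_of_pos_left hcon (by positivity)
    have h3 : 120 * K * (1 / (120 * K) * y) = y := by field_simp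
    linarith
  have h4 : (120 * K) ^ 2 * (D ^ 2 * L) ≤ (n : ℝ) ^ 2 * s := by
    rw [← hy2, ← hr2]
    have h5 : 0 ≤ 120 * K * (D * r) := by positivity
    have h6 : (120 * K * (D * r)) ^ 2 ≤ y ^ 2 := pow_le_pow_left₀ h5 h1.le 2
    calc (120 * K) ^ 2 * ((D : ℝ) ^ 2 * r ^ 2) = (120 * K * (D * r)) ^ 2 := by ring
      _ ≤ y ^ 2 := h6
  have h7 : 120 * K * D ≤ (n : ℝ) ^ 2 := by
    have : 120 * K * D ≤ 120 * K * (D * r) := by
      have : (D : ℝ) ≤ D * r := le_mul_of_one_le_right hD0 hr1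
      exact mul_le_mul_of_nonneg_left this (by positivity)
    linarith
  have h8 : (n : ℝ) ^ 2 ≤ K * (D * (60 * D * L / s + 3)) := by
    refine h.trans ?_
    refine mul_le_mul_of_nonneg_left (mul_le_mul_of_nonneg_left ?_ hD0) hK0.le
    have h9 : 60 * D * L / s = 2 * (30 * D * L / s) := by ring
    rw [h9]
    linarith
  have h10 : K * (D * (60 * D * L / s + 3)) = 60 * K * (D ^ 2 * L) / s + 3 * K * D := by
    field_simp
  have h11 : 60 * K * ((D : ℝ) ^ 2 * L) / s ≤ (n : ℝ) ^ 2 / 2 := by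
    rw [div_le_iff₀ hs0]
    have hDL : 0 ≤ (D : ℝ) ^ 2 * L := by positivity
    have h12 : 120 * K * ((D : ℝ) ^ 2 * L) ≤ (120 * K) ^ 2 * (D ^ 2 * L) := by
      refine mul_le_mul_of_nonneg_right ?_ hDL
      nlinarith
    linarith
  have h13 : (0 : ℝ) < (n : ℝ) ^ 2 := by positivity
  rw [h10] at h8
  linarith

theorem five_quarters (k : ℕ) (hk : 4 ≤ k) (ℓ : ℕ) (hℓ : k.choose 2 + 5 ≤ ℓ + 2 * (k / 2)) :
    ∃ c : ℝ, 0 < c ∧ ∀ P : Finset Pl, 2 ≤ P.card → (∀ S ⊆ P, S.card = k → ℓ ≤ numDist S) →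
      c * (P.card : ℝ) ^ (5 / 4 : ℝ) / Real.sqrt (Real.log P.card) ≤ numDist P := by
  classical
  obtain ⟨c1, hc1, h1⟩ := numeric_A (1024 * (1 + k)) (by
    have : (0 : ℝ) ≤ k := Nat.cast_nonneg k
    linarith)
  have hlog2 : 0 < Real.log 2 := Real.log_pos (by norm_num)
  have hN0 : (0 : ℝ) < ((10000 + k : ℕ) : ℝ) ^ (5 / 4 : ℝ) := Real.rpow_pos_of_pos (by positivity) _
  refine ⟨min c1 (Real.sqrt (Real.log 2) / ((10000 + k : ℕ) : ℝ) ^ (5 / 4 : ℝ)),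
    lt_min hc1 (div_pos (Real.sqrt_pos.2 hlog2) hN0), ?_⟩
  intro P hP hloc
  obtain ⟨n, hn⟩ : ∃ n, n = P.card := ⟨_, rfl⟩
  obtain ⟨D, hD⟩ : ∃ D, D = numDist P := ⟨_, rfl⟩
  rw [← hn, ← hD]
  rw [← hn] at hP
  have hD1 : 1 ≤ D := by
    obtain ⟨p, hp, r, hr, hpr⟩ := Finset.one_lt_card.1 (show 1 < P.card by omega)
    rw [hD]
    unfold numDist
    exact Finset.card_pos.2 ⟨_, mem_distSet hp hr hpr⟩
  have hn2 : (2 : ℝ) ≤ n := by exact_mod_cast hP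
  have hn0 : (0 : ℝ) < n := by linarith
  have hlogn : Real.log 2 ≤ Real.log n := Real.log_le_log (by norm_num) hn2
  have hsn : 0 < Real.sqrt (Real.log n) := Real.sqrt_pos.2 (lt_of_lt_of_le hlog2 hlogn)
  have hpn : (0 : ℝ) < (n : ℝ) ^ (5 / 4 : ℝ) := Real.rpow_pos_of_pos hn0 _
  rcases Nat.lt_or_ge n (10000 + k) with hlt | hge
  · have h2 : min c1 (Real.sqrt (Real.log 2) / ((10000 + k : ℕ) : ℝ) ^ (5 / 4 : ℝ)) * (n : ℝ) ^ (5 / 4 : ℝ)
        / Real.sqrt (Real.log n) ≤ 1 := by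
      rw [div_le_one hsn]
      calc min c1 (Real.sqrt (Real.log 2) / ((10000 + k : ℕ) : ℝ) ^ (5 / 4 : ℝ)) * (n : ℝ) ^ (5 / 4 : ℝ)
          ≤ Real.sqrt (Real.log 2) / ((10000 + k : ℕ) : ℝ) ^ (5 / 4 : ℝ) * ((10000 + k : ℕ) : ℝ) ^ (5 / 4 : ℝ) := by
            refine mul_le_mul (min_le_right _ _) ?_ hpn.le (div_pos (Real.sqrt_pos.2 hlog2) hN0).le
            exact Real.rpow_le_rpow hn0.le (by exact_mod_cast hlt.le) (by norm_num)
        _ = Real.sqrt (Real.log 2) := div_mul_cancel₀ _ hN0.ne'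
        _ ≤ Real.sqrt (Real.log n) := Real.sqrt_le_sqrt hlogn
    have h3 : (1 : ℝ) ≤ D := by exact_mod_cast hD1
    linarith
  · obtain ⟨α, ξ, t, m, q, w, p1, p2, p3, p4, p5, p6, p7, p8, p9⟩ := params n D (by omega) hD1
    obtain ⟨G, hG1, hG2⟩ := exists_gam P α ξ t m q w (by omega) (by rw [← hD]; exact p2) p3 p4
    rw [← hD] at hG1
    have hcom : ∀ i < q, ∀ j < q, i ≠ j → (G.N i ∩ G.N j).card ≤ k := by
      intro i hi j hj hij
      by_contra hcon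
      obtain ⟨S, hS, hSk, hS2⟩ := G.two_common k hk i j hi hj hij _ (Finset.Subset.refl _) (by omega)
      have := hloc S hS hSk
      omega
    have hkst := kst q G.N (strip D w) ((ξ + 3) / 4) k hG1 (by
      intro i hi
      have := (hG2 i hi).1
      omega) hcom
    obtain ⟨E, hE⟩ : ∃ E, E = (ξ + 3) / 4 := ⟨_, rfl⟩
    rw [← hE] at hkst
    have hEn : E ≤ n := by omega
    have hnE : n ≤ 8 * E := by omega
    have hstrip := strip_card_le D w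
    -- `n^3 ≤ 1024 q E^2`
    have h4 : n ^ 3 ≤ 1024 * (q * E ^ 2) := by
      calc n ^ 3 = n * n ^ 2 := by ring
        _ ≤ (16 * q) * (8 * E) ^ 2 := Nat.mul_le_mul p5 (Nat.pow_le_pow_left hnE 2)
        _ = 1024 * (q * E ^ 2) := by ring
    have h5 : q * E ^ 2 ≤ D * (2 * w + 1) * (n + n * k) := by
      refine hkst.trans (Nat.mul_le_mul hstrip (Nat.add_le_add hEn (Nat.mul_le_mul_right k p6)))
    have h6 : n * n ^ 2 ≤ n * (1024 * (1 + k) * (D * (2 * w + 1))) := by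
      calc n * n ^ 2 = n ^ 3 := by ring
        _ ≤ 1024 * (q * E ^ 2) := h4
        _ ≤ 1024 * (D * (2 * w + 1) * (n + n * k)) := Nat.mul_le_mul_left _ h5
        _ = n * (1024 * (1 + k) * (D * (2 * w + 1))) := by ring
    have h7 : n ^ 2 ≤ 1024 * (1 + k) * (D * (2 * w + 1)) := Nat.le_of_mul_le_mul_left h6 (by omega)
    have h8 : (n : ℝ) ^ 2 ≤ 1024 * (1 + k) * (D * (2 * w + 1)) := by exact_mod_cast h7
    refine le_trans ?_ (h1 n D w (by omega) p9 h8)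
    exact div_le_div_of_nonneg_right (mul_le_mul_of_nonneg_right (min_le_left _ _) hpn.le) hsn.le

end Pool.Agent.Lib.LocD
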