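import Mathlib

/-!
# LocD.B1: pruning a bipartite graph to large minimum degrees

PROOF. For a subset `E' ⊆ E` let `φ E' = |E'| - dl |E'.image fst| - dr |E'.image snd|` (integer). Take `E' ∈ E.powerset` with `φ E'` maximal
(`Finset.exists_max_image`). Then `|E'| ≥ φ E' ≥ φ E ≥ |E| - dl |L| - dr |R| ≥ |E| / 2`. If some `e ∈ E'` had fewer than `dl` edges at its left vertex,
delete these edges: `|E'|` drops by less than `dl`, the number of left vertices drops by 1, the number of right vertices does not grow: `φ`
grows, contradiction. Same on the right side.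
-/

namespace Pool.Agent.Lib.LocD

open Finset

private theorem prune_del {γ δ : Type*} [DecidableEq γ] [DecidableEq δ] (E' : Finset γ) (f : γ → δ)
    (e : γ) (he : e ∈ E') (d : ℕ) (hd : (E'.filter (fun e' => f e' = f e)).card < d) :
    (E'.card : ℤ) - d * (E'.image f).card <
      ((E'.filter (fun e' => ¬ f e' = f e)).card : ℤ) - d * ((E'.filter (fun e' => ¬ f e' = f e)).image f).card := by
  have h1 := Finset.card_filter_add_card_filter_not (s := E') (fun e' => f e' = f e)
  have h2 : ((E'.filter (fun e' => ¬ f e' = f e)).image f) ⊆ (E'.image f).erase (f e) := by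
    intro x hx
    obtain ⟨y, hy, rfl⟩ := mem_image.mp hx
    rw [mem_filter] at hy
    exact mem_erase.mpr ⟨hy.2, mem_image_of_mem f hy.1⟩
  have h3 := card_le_card h2
  have h4 : ((E'.image f).erase (f e)).card + 1 = (E'.image f).card :=
    card_erase_add_one (mem_image_of_mem f he)
  have h5 : d * (((E'.filter (fun e' => ¬ f e' = f e)).image f).card + 1) ≤ d * (E'.image f).card :=
    Nat.mul_le_mul_left d (by omega)
  rw [Nat.mul_succ] at h5
  have h6 : (d : ℤ) * ((E'.filter (fun e' => ¬ f e' = f e)).image f).card + d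
      ≤ d * (E'.image f).card := by exact_mod_cast h5
  have h7 : ((E'.filter (fun e' => f e' = f e)).card : ℤ)
      + ((E'.filter (fun e' => ¬ f e' = f e)).card : ℤ) = E'.card := by exact_mod_cast h1
  have h8 : ((E'.filter (fun e' => f e' = f e)).card : ℤ) < d := by exact_mod_cast hd
  linarith

theorem prune {α β : Type*} [DecidableEq α] [DecidableEq β] (E : Finset (α × β)) (L : Finset α) (R : Finset β)
    (hL : ∀ e ∈ E, e.1 ∈ L) (hR : ∀ e ∈ E, e.2 ∈ R) (dl dr : ℕ) (h : 2 * (dl * L.card + dr * R.card) ≤ E.card) :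
    ∃ E' ⊆ E, E.card ≤ 2 * E'.card ∧ (∀ e ∈ E', dl ≤ (E'.filter (fun e' => e'.1 = e.1)).card) ∧
      (∀ e ∈ E', dr ≤ (E'.filter (fun e' => e'.2 = e.2)).card) := by
  let φ : Finset (α × β) → ℤ := fun F =>
    (F.card : ℤ) - dl * (F.image Prod.fst).card - dr * (F.image Prod.snd).card
  obtain ⟨E', hE', hmax⟩ := exists_max_image E.powerset φ ⟨E, mem_powerset_self E⟩
  rw [mem_powerset] at hE'
  have hmax' : ∀ F ⊆ E, (F.card : ℤ) - dl * (F.image Prod.fst).card - dr * (F.image Prod.snd).card
      ≤ (E'.card : ℤ) - dl * (E'.image Prod.fst).card - dr * (E'.image Prod.snd).card :=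
    fun F hF => hmax F (mem_powerset.mpr hF)
  refine ⟨E', hE', ?_, ?_, ?_⟩
  · have h1 := hmax' E Subset.rfl
    have h2 : (E.image Prod.fst).card ≤ L.card := card_le_card (fun x hx => by
      obtain ⟨y, hy, rfl⟩ := mem_image.mp hx
      exact hL y hy)
    have h3 : (E.image Prod.snd).card ≤ R.card := card_le_card (fun x hx => by
      obtain ⟨y, hy, rfl⟩ := mem_image.mp hx
      exact hR y hy)
    have h4 : (dl : ℤ) * (E.image Prod.fst).card ≤ dl * L.card := by
      exact_mod_cast Nat.mul_le_mul_left dl h2
    have h5 : (dr : ℤ) * (E.image Prod.snd).card ≤ dr * R.card := by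
      exact_mod_cast Nat.mul_le_mul_left dr h3
    have h6 : (0 : ℤ) ≤ dl * (E'.image Prod.fst).card := by positivity
    have h7 : (0 : ℤ) ≤ dr * (E'.image Prod.snd).card := by positivity
    have h8 : 2 * ((dl : ℤ) * L.card + dr * R.card) ≤ E.card := by exact_mod_cast h
    have h9 : (E.card : ℤ) ≤ 2 * E'.card := by linarith
    exact_mod_cast h9
  · intro e he
    by_contra hlt
    push Not at hlt
    have h1 := prune_del E' Prod.fst e he dl hlt
    have h2 := hmax' (E'.filter (fun e' => ¬ e'.1 = e.1)) ((filter_subset _ _).trans hE')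
    have h3 : ((E'.filter (fun e' => ¬ e'.1 = e.1)).image Prod.snd).card ≤ (E'.image Prod.snd).card :=
      card_le_card (image_subset_image (filter_subset _ _))
    have h4 : (dr : ℤ) * ((E'.filter (fun e' => ¬ e'.1 = e.1)).image Prod.snd).card
        ≤ dr * (E'.image Prod.snd).card := by exact_mod_cast Nat.mul_le_mul_left dr h3
    linarith
  · intro e he
    by_contra hlt
    push Not at hlt
    have h1 := prune_del E' Prod.snd e he dr hlt
    have h2 := hmax' (E'.filter (fun e' => ¬ e'.2 = e.2)) ((filter_subset _ _).trans hE')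
    have h3 : ((E'.filter (fun e' => ¬ e'.2 = e.2)).image Prod.fst).card ≤ (E'.image Prod.fst).card :=
      card_le_card (image_subset_image (filter_subset _ _))
    have h4 : (dl : ℤ) * ((E'.filter (fun e' => ¬ e'.2 = e.2)).image Prod.fst).card
        ≤ dl * (E'.image Prod.fst).card := by exact_mod_cast Nat.mul_le_mul_left dl h3
    linarith

end Pool.Agent.Lib.LocD
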