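import Mathlib

/-!
# LocD.B2: counting injective copies of a rooted tree
-/

namespace Pool.Agent.Lib.LocD

open Finset

theorem hom_count {V : Type*} [DecidableEq V] (adj : V → Finset V) (V0 : Finset V) (p : ℕ → ℕ)
    (hp : ∀ i, 1 ≤ i → p i < i) (d : ℕ → ℕ) (v0 : V) (N : ℕ) (hN : 1 ≤ N)
    (hd : ∀ i, 1 ≤ i → i < N → ∀ f : ℕ → V, f 0 ∈ V0 → (∀ j, 1 ≤ j → j < i → f j ∈ adj (f (p j))) →
      d i + i ≤ (adj (f (p i))).card) :
    ∃ H : Finset (ℕ → V), V0.card * ∏ i ∈ Finset.Ico 1 N, d i ≤ H.card ∧
      ∀ f ∈ H, f 0 ∈ V0 ∧ (∀ j, 1 ≤ j → j < N → f j ∈ adj (f (p j))) ∧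
        (∀ i < N, ∀ j < N, f i = f j → i = j) ∧ ∀ j, N ≤ j → f j = v0 := by
  classical
  induction N, hN using Nat.le_induction with
  | base =>
    refine ⟨V0.image (fun v => Function.update (fun _ : ℕ => v0) 0 v), ?_, ?_⟩
    · rw [card_image_of_injective]
      · simp
      · intro v v' h
        have := congrFun h 0
        simpa using this
    · intro f hf
      obtain ⟨v, hv, rfl⟩ := mem_image.1 hf
      refine ⟨by simpa using hv, fun j h1 h2 => by omega, fun i hi j hj _ => by omega, ?_⟩
      intro j hj
      rw [Function.update_of_ne (by omega)]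
  | succ N hN ih =>
    obtain ⟨H, hH, hHf⟩ := ih (fun i h1 h2 => hd i h1 (by omega))
    have hupd : ∀ (f : ℕ → V) (y : V) (j : ℕ), j ≠ N → Function.update f N y j = f j :=
      fun f y j hj => Function.update_of_ne hj _ _
    refine ⟨H.biUnion (fun f => ((adj (f (p N))) \ ((range N).image f)).image
      (fun y => Function.update f N y)), ?_, ?_⟩
    · rw [card_biUnion]
      · have h1 : ∀ f ∈ H, d N ≤ (((adj (f (p N))) \ ((range N).image f)).image
            (fun y => Function.update f N y)).card := by
          intro f hf
          obtain ⟨h2, h3, -, -⟩ := hHf f hf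
          rw [card_image_of_injective]
          · have h4 := hd N hN (Nat.lt_succ_self N) f h2 h3
            have h5 := le_card_sdiff ((range N).image f) (adj (f (p N)))
            have h6 : ((range N).image f).card ≤ N := card_image_le.trans (by simp)
            omega
          · intro y y' h
            have := congrFun h N
            simpa using this
        have h7 := card_nsmul_le_sum H _ (d N) h1
        rw [smul_eq_mul] at h7
        refine le_trans ?_ h7
        rw [Finset.prod_Ico_succ_top hN, ← mul_assoc]
        exact Nat.mul_le_mul_right _ hH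
      · intro f hf f' hf' hne
        rw [Function.onFun, disjoint_left]
        intro g hg hg'
        obtain ⟨y, -, rfl⟩ := mem_image.1 hg
        obtain ⟨y', -, h⟩ := mem_image.1 hg'
        apply hne
        funext j
        by_cases hj : j = N
        · subst hj
          rw [(hHf f hf).2.2.2 j le_rfl, (hHf f' hf').2.2.2 j le_rfl]
        · have := congrFun h j
          rw [hupd _ _ _ hj, hupd _ _ _ hj] at this
          exact this.symm
    · intro g hg
      obtain ⟨f, hf, hg'⟩ := mem_biUnion.1 hg
      obtain ⟨y, hy, rfl⟩ := mem_image.1 hg'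
      obtain ⟨h1, h2, h3, h4⟩ := hHf f hf
      rw [mem_sdiff] at hy
      have hyn : ∀ i < N, f i ≠ y := fun i hi h => hy.2 (mem_image.2 ⟨i, mem_range.2 hi, h⟩)
      refine ⟨?_, ?_, ?_, ?_⟩
      · rw [hupd _ _ _ (by omega)]
        exact h1
      · intro j hj1 hj2
        have hpj := hp j hj1
        rw [hupd _ _ (p j) (by omega)]
        by_cases hj : j = N
        · subst hj
          rw [Function.update_self]
          exact hy.1
        · rw [hupd _ _ _ hj]
          exact h2 j hj1 (by omega)
      · intro i hi j hj hij
        by_cases hiN : i = N <;> by_cases hjN : j = N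
        · omega
        · rw [hiN, Function.update_self, hupd _ _ _ hjN] at hij
          exact absurd hij.symm (hyn j (by omega))
        · rw [hjN, Function.update_self, hupd _ _ _ hiN] at hij
          exact absurd hij (hyn i (by omega))
        · rw [hupd _ _ _ hiN, hupd _ _ _ hjN] at hij
          exact h3 i (by omega) j (by omega) hij
      · intro j hj
        rw [hupd _ _ _ (by omega)]
        exact h4 j (by omega)

end Pool.Agent.Lib.LocD
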