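import Pool.Agent.Lib.LocD.BDefs

/-!
# LocD.B3: facts on the caterpillar tree

PROOF. All by `unfold par isR isLf`, case split and `omega` (write `i = 4 + 6 j + r`, `r < 6`, when `i ≥ 4`). `lf_count`: induction on `t`; it is easier to
show first that `(range (6 t + 3)).filter (isLf t)` has `3 t + 2` elements (in this range the last clause of `isLf` never applies, so it does not
depend on `t`; each block of six adds exactly `s+2, s+3, s+4`), and `6 t + 3` is a leaf. `children`: for a vertex `v < 6 t + 4` that is not a leaf: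
`v = 1`: children `{2, 3}`; `v = 3` or `(v - 4) % 6 = 5` (then `v + 1 < 6 t + 4` since `v ≠ 6 t + 3`): children `{v + 1, v + 2}`; `(v - 4) % 6 = 0`:
`{v + 2, v + 3}`; `(v - 4) % 6 = 1`: `{v + 3, v + 4}`; show that the filter equals the pair by `ext; omega`. `prod_types`: induction on `t` with
`Finset.prod_Ico_consecutive` or six times `Finset.prod_Ico_succ_top`.
-/

namespace Pool.Agent.Lib.LocD

open Finset

private theorem par_a (j : ℕ) : par (4 + 6 * j) = 3 + 6 * j := by
  unfold par
  split_ifs <;> omega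

private theorem par_b (j : ℕ) : par (5 + 6 * j) = 3 + 6 * j := by
  unfold par
  split_ifs <;> omega

private theorem par_c (j : ℕ) : par (6 + 6 * j) = 4 + 6 * j := by
  unfold par
  split_ifs <;> omega

private theorem par_d (j : ℕ) : par (7 + 6 * j) = 4 + 6 * j := by
  unfold par
  split_ifs <;> omega

private theorem par_e (j : ℕ) : par (8 + 6 * j) = 5 + 6 * j := by
  unfold par
  split_ifs <;> omega

private theorem par_f (j : ℕ) : par (9 + 6 * j) = 5 + 6 * j := by
  unfold par
  split_ifs <;> omega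

private theorem par_1 : par 1 = 0 := by
  unfold par
  simp

private theorem par_2 : par 2 = 1 := by
  unfold par
  simp

private theorem par_3 : par 3 = 1 := by
  unfold par
  simp

private theorem cases_idx (i : ℕ) (h : 1 ≤ i) : i = 1 ∨ i = 2 ∨ i = 3 ∨ (∃ j, i = 4 + 6 * j) ∨ (∃ j, i = 5 + 6 * j) ∨
    (∃ j, i = 6 + 6 * j) ∨ (∃ j, i = 7 + 6 * j) ∨ (∃ j, i = 8 + 6 * j) ∨ (∃ j, i = 9 + 6 * j) := by
  rcases Nat.lt_or_ge i 4 with h4 | h4
  · omega
  · have h6 : (i - 4) % 6 < 6 := Nat.mod_lt _ (by norm_num)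
    have hd : i - 4 = 6 * ((i - 4) / 6) + (i - 4) % 6 := (Nat.div_add_mod _ _).symm
    generalize (i - 4) / 6 = j at hd
    generalize (i - 4) % 6 = r at hd h6
    interval_cases r
    · exact Or.inr (Or.inr (Or.inr (Or.inl ⟨j, by omega⟩)))
    · exact Or.inr (Or.inr (Or.inr (Or.inr (Or.inl ⟨j, by omega⟩))))
    · exact Or.inr (Or.inr (Or.inr (Or.inr (Or.inr (Or.inl ⟨j, by omega⟩)))))
    · exact Or.inr (Or.inr (Or.inr (Or.inr (Or.inr (Or.inr (Or.inl ⟨j, by omega⟩))))))
    · exact Or.inr (Or.inr (Or.inr (Or.inr (Or.inr (Or.inr (Or.inr (Or.inl ⟨j, by omega⟩)))))))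
    · exact Or.inr (Or.inr (Or.inr (Or.inr (Or.inr (Or.inr (Or.inr (Or.inr ⟨j, by omega⟩)))))))

theorem par_lt (i : ℕ) (h : 1 ≤ i) : par i < i := by
  unfold par
  split_ifs <;> omega

private theorem isR_iff (i : ℕ) : isR i ↔ (i = 1 ∨ (4 ≤ i ∧ (i - 4) % 6 ≤ 1)) := Iff.rfl

theorem isR_par (i : ℕ) (h : 1 ≤ i) : isR i ↔ ¬ isR (par i) := by
  rcases cases_idx i h with rfl | rfl | rfl | ⟨j, rfl⟩ | ⟨j, rfl⟩ | ⟨j, rfl⟩ | ⟨j, rfl⟩ | ⟨j, rfl⟩ | ⟨j, rfl⟩
  · rw [par_1, isR_iff, isR_iff]
    omega
  · rw [par_2, isR_iff, isR_iff]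
    omega
  · rw [par_3, isR_iff, isR_iff]
    omega
  · rw [par_a, isR_iff, isR_iff]
    omega
  · rw [par_b, isR_iff, isR_iff]
    omega
  · rw [par_c, isR_iff, isR_iff]
    omega
  · rw [par_d, isR_iff, isR_iff]
    omega
  · rw [par_e, isR_iff, isR_iff]
    omega
  · rw [par_f, isR_iff, isR_iff]
    omega

theorem not_isR_zero : ¬ isR 0 := by
  unfold isR
  omega

theorem lf_not_isR (t i : ℕ) (h : isLf t i) : ¬ isR i := by
  unfold isLf at h
  unfold isR
  omega

private theorem lf_count_aux (t : ℕ) : ∀ n, t ≤ n → ((range (6 * t + 3)).filter (isLf n)).card = 3 * t + 2 := by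
  induction t with
  | zero =>
    intro n _
    have : (range (6 * 0 + 3)).filter (isLf n) = {0, 2} := by
      ext i
      simp only [mem_filter, mem_range, mem_insert, mem_singleton]
      unfold isLf
      omega
    rw [this]
    rfl
  | succ t ih =>
    intro n hn
    have h6 : (range (6 * (t + 1) + 3)).filter (isLf n)
        = (range (6 * t + 3)).filter (isLf n) ∪ {6 * t + 6, 6 * t + 7, 6 * t + 8} := by
      ext i
      simp only [mem_filter, mem_range, mem_union, mem_insert, mem_singleton]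
      unfold isLf
      omega
    rw [h6, card_union_of_disjoint, ih n (by omega)]
    · have : ({6 * t + 6, 6 * t + 7, 6 * t + 8} : Finset ℕ).card = 3 := by
        rw [card_insert_of_notMem, card_insert_of_notMem, card_singleton]
        · simp
        · simp
      rw [this]
      omega
    · rw [disjoint_left]
      intro i h1 h2
      simp only [mem_filter, mem_range, mem_insert, mem_singleton] at h1 h2
      omega

theorem lf_count (t : ℕ) : ((range (6 * t + 4)).filter (isLf t)).card = 3 * t + 3 := by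
  have h : (range (6 * t + 4)).filter (isLf t) = insert (6 * t + 3) ((range (6 * t + 3)).filter (isLf t)) := by
    ext i
    simp only [mem_filter, mem_range, mem_insert]
    unfold isLf
    omega
  rw [h, card_insert_of_notMem, lf_count_aux t t le_rfl]
  simp

private theorem pair_card {a b : ℕ} (h : a ≠ b) : ({a, b} : Finset ℕ).card = 2 := card_pair h

theorem children (t v : ℕ) (hv : v < 6 * t + 4) (h : ¬ isLf t v) :
    ((Finset.Ico 1 (6 * t + 4)).filter (fun i => par i = v)).card = 2 := by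
  unfold isLf at h
  have hcase : v = 1 ∨ (∃ k, v = 3 + 6 * k) ∨ (∃ k, v = 4 + 6 * k) ∨ (∃ k, v = 5 + 6 * k) := by
    rcases Nat.eq_zero_or_pos v with h0 | h0
    · omega
    rcases cases_idx v h0 with hc | hc | hc | ⟨j, hc⟩ | ⟨j, hc⟩ | ⟨j, hc⟩ | ⟨j, hc⟩ | ⟨j, hc⟩ | ⟨j, hc⟩
    · exact Or.inl hc
    · omega
    · exact Or.inr (Or.inl ⟨0, by omega⟩)
    · exact Or.inr (Or.inr (Or.inl ⟨j, hc⟩))
    · exact Or.inr (Or.inr (Or.inr ⟨j, hc⟩))
    · omega
    · omega
    · omega
    · exact Or.inr (Or.inl ⟨j + 1, by omega⟩)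
  rcases hcase with rfl | ⟨k, rfl⟩ | ⟨k, rfl⟩ | ⟨k, rfl⟩
  · have : (Finset.Ico 1 (6 * t + 4)).filter (fun i => par i = 1) = {2, 3} := by
      ext i
      simp only [mem_filter, mem_Ico, mem_insert, mem_singleton]
      constructor
      · rintro ⟨⟨h1, h2⟩, h3⟩
        rcases cases_idx i h1 with rfl | rfl | rfl | ⟨j, rfl⟩ | ⟨j, rfl⟩ | ⟨j, rfl⟩ | ⟨j, rfl⟩ | ⟨j, rfl⟩ | ⟨j, rfl⟩
        · rw [par_1] at h3; omega
        · omega
        · omega
        · rw [par_a] at h3; omega
        · rw [par_b] at h3; omega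
        · rw [par_c] at h3; omega
        · rw [par_d] at h3; omega
        · rw [par_e] at h3; omega
        · rw [par_f] at h3; omega
      · rintro (rfl | rfl)
        · exact ⟨by omega, par_2⟩
        · exact ⟨by omega, par_3⟩
    rw [this]
    exact pair_card (by omega)
  · have : (Finset.Ico 1 (6 * t + 4)).filter (fun i => par i = 3 + 6 * k) = {4 + 6 * k, 5 + 6 * k} := by
      ext i
      simp only [mem_filter, mem_Ico, mem_insert, mem_singleton]
      constructor
      · rintro ⟨⟨h1, h2⟩, h3⟩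
        rcases cases_idx i h1 with rfl | rfl | rfl | ⟨j, rfl⟩ | ⟨j, rfl⟩ | ⟨j, rfl⟩ | ⟨j, rfl⟩ | ⟨j, rfl⟩ | ⟨j, rfl⟩
        · rw [par_1] at h3; omega
        · rw [par_2] at h3; omega
        · rw [par_3] at h3; omega
        · rw [par_a] at h3; omega
        · rw [par_b] at h3; omega
        · rw [par_c] at h3; omega
        · rw [par_d] at h3; omega
        · rw [par_e] at h3; omega
        · rw [par_f] at h3; omega
      · rintro (rfl | rfl)
        · exact ⟨by omega, par_a k⟩
        · exact ⟨by omega, par_b k⟩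
    rw [this]
    exact pair_card (by omega)
  · have : (Finset.Ico 1 (6 * t + 4)).filter (fun i => par i = 4 + 6 * k) = {6 + 6 * k, 7 + 6 * k} := by
      ext i
      simp only [mem_filter, mem_Ico, mem_insert, mem_singleton]
      constructor
      · rintro ⟨⟨h1, h2⟩, h3⟩
        rcases cases_idx i h1 with rfl | rfl | rfl | ⟨j, rfl⟩ | ⟨j, rfl⟩ | ⟨j, rfl⟩ | ⟨j, rfl⟩ | ⟨j, rfl⟩ | ⟨j, rfl⟩
        · rw [par_1] at h3; omega
        · rw [par_2] at h3; omega
        · rw [par_3] at h3; omega
        · rw [par_a] at h3; omega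
        · rw [par_b] at h3; omega
        · rw [par_c] at h3; omega
        · rw [par_d] at h3; omega
        · rw [par_e] at h3; omega
        · rw [par_f] at h3; omega
      · rintro (rfl | rfl)
        · exact ⟨by omega, par_c k⟩
        · exact ⟨by omega, par_d k⟩
    rw [this]
    exact pair_card (by omega)
  · have : (Finset.Ico 1 (6 * t + 4)).filter (fun i => par i = 5 + 6 * k) = {8 + 6 * k, 9 + 6 * k} := by
      ext i
      simp only [mem_filter, mem_Ico, mem_insert, mem_singleton]
      constructor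
      · rintro ⟨⟨h1, h2⟩, h3⟩
        rcases cases_idx i h1 with rfl | rfl | rfl | ⟨j, rfl⟩ | ⟨j, rfl⟩ | ⟨j, rfl⟩ | ⟨j, rfl⟩ | ⟨j, rfl⟩ | ⟨j, rfl⟩
        · rw [par_1] at h3; omega
        · rw [par_2] at h3; omega
        · rw [par_3] at h3; omega
        · rw [par_a] at h3; omega
        · rw [par_b] at h3; omega
        · rw [par_c] at h3; omega
        · rw [par_d] at h3; omega
        · rw [par_e] at h3; omega
        · rw [par_f] at h3; omega
      · rintro (rfl | rfl)
        · exact ⟨by omega, par_e k⟩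
        · exact ⟨by omega, par_f k⟩
    rw [this]
    exact pair_card (by omega)

theorem prod_types (t x y : ℕ) :
    ∏ i ∈ Finset.Ico 1 (6 * t + 4), (if isR i then x else y) = x ^ (2 * t + 1) * y ^ (4 * t + 2) := by
  induction t with
  | zero =>
    have h1 : isR 1 := by unfold isR; omega
    have h2 : ¬ isR 2 := by unfold isR; omega
    have h3 : ¬ isR 3 := by unfold isR; omega
    rw [show 6 * 0 + 4 = 3 + 1 from rfl, Finset.prod_Ico_succ_top (by omega), Finset.prod_Ico_succ_top (by omega),
      Finset.prod_Ico_succ_top (by omega)]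
    simp only [h1, h2, h3, if_true, if_false, Finset.Ico_self, Finset.prod_empty]
    ring
  | succ t ih =>
    have h0 : isR (6 * t + 4) := by unfold isR; omega
    have h1 : isR (6 * t + 5) := by unfold isR; omega
    have h2 : ¬ isR (6 * t + 6) := by unfold isR; omega
    have h3 : ¬ isR (6 * t + 7) := by unfold isR; omega
    have h4 : ¬ isR (6 * t + 8) := by unfold isR; omega
    have h5 : ¬ isR (6 * t + 9) := by unfold isR; omega
    rw [show 6 * (t + 1) + 4 = 6 * t + 9 + 1 from by ring, Finset.prod_Ico_succ_top (by omega),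
      show 6 * t + 9 = 6 * t + 8 + 1 from rfl, Finset.prod_Ico_succ_top (by omega),
      show 6 * t + 8 = 6 * t + 7 + 1 from rfl, Finset.prod_Ico_succ_top (by omega),
      show 6 * t + 7 = 6 * t + 6 + 1 from rfl, Finset.prod_Ico_succ_top (by omega),
      show 6 * t + 6 = 6 * t + 5 + 1 from rfl, Finset.prod_Ico_succ_top (by omega),
      show 6 * t + 5 = 6 * t + 4 + 1 from rfl, Finset.prod_Ico_succ_top (by omega), ih]
    simp only [show 6 * t + 4 + 1 = 6 * t + 5 from rfl, show 6 * t + 5 + 1 = 6 * t + 6 from rfl,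
      show 6 * t + 6 + 1 = 6 * t + 7 from rfl, show 6 * t + 7 + 1 = 6 * t + 8 from rfl,
      show 6 * t + 8 + 1 = 6 * t + 9 from rfl]
    rw [if_pos h0, if_pos h1, if_neg h2, if_neg h3, if_neg h4, if_neg h5]
    ring

end Pool.Agent.Lib.LocD
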