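import Mathlib

/-!
# LocD.B4: the number of tree edges touching a set of inner vertices

The edge with index `i` (`1 ≤ i < N`) joins `i` with its parent `p i`.

PROOF. `A = {i ∈ Ico 1 N | i ∈ S}`, `B = {i ∈ Ico 1 N | p i ∈ S}`. `|A| = |S|` (`h0`), `|B| = 2 |S|` (sum over `v ∈ S` of the number of children,
`Finset.card_eq_sum_card_fiberwise`), `A ∩ B = {i ∈ S | p i ∈ S}` does not contain the least element of `S` (its parent is smaller), so
`|A ∩ B| ≤ |S| - 1`. `|A ∪ B| = |A| + |B| - |A ∩ B| ≥ 2 |S| + 1`.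
-/

namespace Pool.Agent.Lib.LocD

open Finset

theorem touching (N : ℕ) (p : ℕ → ℕ) (hp : ∀ i, 1 ≤ i → p i < i) (S : Finset ℕ) (hS : S.Nonempty)
    (h0 : ∀ v ∈ S, 1 ≤ v ∧ v < N)
    (h2 : ∀ v ∈ S, ((Finset.Ico 1 N).filter (fun i => p i = v)).card = 2) :
    2 * S.card + 1 ≤ ((Finset.Ico 1 N).filter (fun i => i ∈ S ∨ p i ∈ S)).card := by
  have hA : (Finset.Ico 1 N).filter (fun i => i ∈ S) = S := by
    ext i
    simp only [mem_filter, mem_Ico]
    exact ⟨fun h => h.2, fun h => ⟨h0 i h, h⟩⟩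
  have hB : ((Finset.Ico 1 N).filter (fun i => p i ∈ S)).card = 2 * S.card := by
    have h3 : ∀ i ∈ (Finset.Ico 1 N).filter (fun i => p i ∈ S), p i ∈ S :=
      fun i hi => (mem_filter.1 hi).2
    rw [card_eq_sum_card_fiberwise h3]
    rw [sum_congr rfl (g := fun _ => 2), sum_const, smul_eq_mul, mul_comm]
    intro v hv
    rw [← h2 v hv, filter_filter]
    congr 1
    ext i
    simp only [mem_filter, mem_Ico]
    constructor
    · rintro ⟨h, _, h3⟩
      exact ⟨h, h3⟩
    · rintro ⟨h, h3⟩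
      exact ⟨h, h3 ▸ hv, h3⟩
  have hU := card_union_add_card_inter ((Finset.Ico 1 N).filter (fun i => i ∈ S))
    ((Finset.Ico 1 N).filter (fun i => p i ∈ S))
  have hI : ((Finset.Ico 1 N).filter (fun i => i ∈ S) ∩
      (Finset.Ico 1 N).filter (fun i => p i ∈ S)).card + 1 ≤ S.card := by
    have h3 : ((Finset.Ico 1 N).filter (fun i => i ∈ S) ∩
        (Finset.Ico 1 N).filter (fun i => p i ∈ S)) ⊆ S.erase (S.min' hS) := by
      intro i hi
      rw [mem_inter, mem_filter, mem_filter] at hi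
      refine mem_erase.2 ⟨?_, hi.1.2⟩
      rintro rfl
      have h4 := hp _ (h0 _ hi.1.2).1
      exact absurd (min'_le S _ hi.2.2) (not_le.2 h4)
    have h5 := card_le_card h3
    rw [card_erase_of_mem (min'_mem S hS)] at h5
    have h6 := card_pos.2 hS
    omega
  rw [filter_or]
  rw [hB, hA] at hU
  rw [hA] at hI ⊢
  omega

end Pool.Agent.Lib.LocD
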