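import Pool.Agent.Lib.LocD.E0

/-!
# LocD.E1: the excess of the point set of a subgraph

PROOF. `W = G.pts L F`. Unordered pairs of `W`: `S = W.offDiag.image Sym2.mk` (as a function of pairs; `Sym2.card_image_offDiag`:
`card = W.card.choose 2`), and `f : Sym2 Pl → ℝ`, `f = Sym2.lift ⟨dist, dist_comm⟩`; `distSet W = S.image f` (so `numDist W = (S.image f).card`).
For every `σ ∈ F.image Prod.snd` choose one edge `k σ ∈ F` with `(k σ).2 = σ`; `K = (F.image Prod.snd).image k ⊆ F`, `|K| = |F.image Prod.snd|`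
(`k` is injective since `(k σ).2 = σ`). `R = (F \ K).image (e ↦ s(a e.1, x e.1 e.2)) ∪ (F \ K).image (e ↦ s(b e.1, x e.1 e.2))`.
Both maps are injective on `F` and the two images are disjoint: if `s(a i, x i σ) = s(a j, x j τ)` then (`Sym2.eq_iff`) either `a i = a j`, so
`i = j`, `x i σ = x i τ`, `σ = τ` (`Gam.x_inj`), or `a i = x j τ`, impossible (`G.ax`); likewise for `b`; and `s(a i, x i σ) = s(b j, x j τ)`
gives `a i = b j` or `a i = x j τ`, impossible. So `|R| = 2 (|F| - |K|)`. For `e ∈ F \ K` let `e' = k e.2`: `dist (a e.1) (x e) =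
dist (a e'.1) (x e')` because both are in `distSet P` (`mem_distSet`) and have rank `e.2.1` (`G.ra`, `rk_inj`); the pair of `e'` is in `S` and not
in `R` by the injectivity just shown (`e' ∈ K`). Same for `b`. Conclude with `image_card_of_rep`.
-/

namespace Pool.Agent.Lib.LocD

open Finset

theorem Gam.excess {P : Finset Pl} {q : ℕ} (G : Gam P q) (L : Finset ℕ) (F : Finset (ℕ × (ℕ × ℕ)))
    (hL : ∀ i ∈ L, i < q) (hF : ∀ e ∈ F, e.1 ∈ L ∧ e.2 ∈ G.N e.1) :
    numDist (G.pts L F) + 2 * F.card ≤ (G.pts L F).card.choose 2 + 2 * (F.image Prod.snd).card := by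
  classical
  have hq : ∀ e ∈ F, e.1 < q := fun e he => hL _ (hF e he).1
  have hN : ∀ e ∈ F, e.2 ∈ G.N e.1 := fun e he => (hF e he).2
  obtain ⟨W, hW⟩ : ∃ W, W = G.pts L F := ⟨_, rfl⟩
  rw [← hW]
  have hWP : W ⊆ P := hW ▸ G.pts_subset L F hL hF
  have haW : ∀ e ∈ F, G.a e.1 ∈ W := by
    intro e he
    rw [hW]
    unfold Gam.pts
    exact mem_union_left _ (mem_union_left _ (mem_image_of_mem _ (hF e he).1))
  have hbW : ∀ e ∈ F, G.b e.1 ∈ W := by
    intro e he
    rw [hW]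
    unfold Gam.pts
    exact mem_union_left _ (mem_union_right _ (mem_image_of_mem _ (hF e he).1))
  have hxW : ∀ e ∈ F, G.x e.1 e.2 ∈ W := by
    intro e he
    rw [hW]
    unfold Gam.pts
    exact mem_union_right _ (mem_image.2 ⟨e, he, rfl⟩)
  obtain ⟨S, hSdef⟩ : ∃ S : Finset (Sym2 Pl), S = W.offDiag.image Sym2.mk.uncurry := ⟨_, rfl⟩
  let f : Sym2 Pl → ℝ := Sym2.lift ⟨fun p r => dist p r, fun p r => dist_comm p r⟩
  have hf : ∀ p r : Pl, f s(p, r) = dist p r := fun p r => rfl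
  have hSc : S.card = W.card.choose 2 := hSdef ▸ Sym2.card_image_offDiag W
  have hSim : S.image f = distSet W := by
    rw [hSdef, image_image]
    unfold distSet
    rfl
  have hmemS : ∀ p r : Pl, p ∈ W → r ∈ W → p ≠ r → s(p, r) ∈ S := by
    intro p r hp hr hpr
    rw [hSdef]
    exact mem_image.2 ⟨(p, r), by simp [hp, hr, hpr], rfl⟩
  have hk : ∀ σ ∈ F.image Prod.snd, ∃ e ∈ F, e.2 = σ := by
    intro σ hσ
    exact mem_image.1 hσ
  choose! k hkF hk2 using hk
  obtain ⟨K, hK⟩ : ∃ K, K = (F.image Prod.snd).image k := ⟨_, rfl⟩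
  have hKF : K ⊆ F := by
    rw [hK]
    intro e he
    obtain ⟨σ, hσ, rfl⟩ := mem_image.1 he
    exact hkF σ hσ
  have hKc : K.card = (F.image Prod.snd).card := by
    rw [hK]
    refine card_image_of_injOn ?_
    intro σ hσ τ hτ h
    rw [← hk2 σ hσ, ← hk2 τ hτ, h]
  let pa : ℕ × (ℕ × ℕ) → Sym2 Pl := fun e => s(G.a e.1, G.x e.1 e.2)
  let pb : ℕ × (ℕ × ℕ) → Sym2 Pl := fun e => s(G.b e.1, G.x e.1 e.2)
  have hpa : ∀ e ∈ F, ∀ e' ∈ F, pa e = pa e' → e = e' := by
    intro e he e' he' h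
    have h' : s(G.a e.1, G.x e.1 e.2) = s(G.a e'.1, G.x e'.1 e'.2) := h
    rw [Sym2.eq_iff] at h'
    rcases h' with ⟨h1, h2⟩ | ⟨h1, -⟩
    · have h3 : e.1 = e'.1 := G.ainj _ (hq e he) _ (hq e' he') h1
      rw [← h3] at h2
      have h4 : e.2 = e'.2 := G.x_inj (hq e he) (hN e he) (h3 ▸ hN e' he') h2
      exact Prod.ext h3 h4
    · exact absurd h1 (G.ax _ (hq e he) _ (hq e' he') _ (hN e' he'))
  have hpb : ∀ e ∈ F, ∀ e' ∈ F, pb e = pb e' → e = e' := by
    intro e he e' he' h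
    have h' : s(G.b e.1, G.x e.1 e.2) = s(G.b e'.1, G.x e'.1 e'.2) := h
    rw [Sym2.eq_iff] at h'
    rcases h' with ⟨h1, h2⟩ | ⟨h1, -⟩
    · have h3 : e.1 = e'.1 := G.binj _ (hq e he) _ (hq e' he') h1
      rw [← h3] at h2
      have h4 : e.2 = e'.2 := G.x_inj (hq e he) (hN e he) (h3 ▸ hN e' he') h2
      exact Prod.ext h3 h4
    · exact absurd h1 (G.bx _ (hq e he) _ (hq e' he') _ (hN e' he'))
  have hpab : ∀ e ∈ F, ∀ e' ∈ F, pa e ≠ pb e' := by
    intro e he e' he' h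
    have h' : s(G.a e.1, G.x e.1 e.2) = s(G.b e'.1, G.x e'.1 e'.2) := h
    rw [Sym2.eq_iff] at h'
    rcases h' with ⟨h1, -⟩ | ⟨h1, -⟩
    · exact G.ab _ (hq e he) _ (hq e' he') h1
    · exact G.ax _ (hq e he) _ (hq e' he') _ (hN e' he') h1
  obtain ⟨R, hR⟩ : ∃ R, R = (F \ K).image pa ∪ (F \ K).image pb := ⟨_, rfl⟩
  have hRS : R ⊆ S := by
    rw [hR]
    refine union_subset ?_ ?_
    · intro z hz
      obtain ⟨e, he, rfl⟩ := mem_image.1 hz
      have he' := (mem_sdiff.1 he).1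
      exact hmemS _ _ (haW e he') (hxW e he') (G.ax _ (hq e he') _ (hq e he') _ (hN e he'))
    · intro z hz
      obtain ⟨e, he, rfl⟩ := mem_image.1 hz
      have he' := (mem_sdiff.1 he).1
      exact hmemS _ _ (hbW e he') (hxW e he') (G.bx _ (hq e he') _ (hq e he') _ (hN e he'))
  have hRc : R.card = 2 * (F \ K).card := by
    rw [hR, card_union_of_disjoint, card_image_of_injOn, card_image_of_injOn]
    · ring
    · intro e he e' he' h
      exact hpb e (mem_sdiff.1 (mem_coe.1 he)).1 e' (mem_sdiff.1 (mem_coe.1 he')).1 h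
    · intro e he e' he' h
      exact hpa e (mem_sdiff.1 (mem_coe.1 he)).1 e' (mem_sdiff.1 (mem_coe.1 he')).1 h
    · rw [disjoint_left]
      intro z h1 h2
      obtain ⟨e, he, rfl⟩ := mem_image.1 h1
      obtain ⟨e', he', h3⟩ := mem_image.1 h2
      exact hpab e (mem_sdiff.1 he).1 e' (mem_sdiff.1 he').1 h3.symm
  have hFK : (F \ K).card + K.card = F.card := by
    rw [card_sdiff_of_subset hKF]
    have := card_le_card hKF
    omega
  have hdist : ∀ e ∈ F, ∀ e' ∈ F, e.2 = e'.2 → dist (G.a e.1) (G.x e.1 e.2) = dist (G.a e'.1) (G.x e'.1 e'.2) ∧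
      dist (G.b e.1) (G.x e.1 e.2) = dist (G.b e'.1) (G.x e'.1 e'.2) := by
    intro e he e' he' h
    constructor
    · refine rk_inj (D := distSet P) (mem_distSet (hWP (haW e he)) (hWP (hxW e he)) (G.ax _ (hq e he) _ (hq e he) _ (hN e he)))
        (mem_distSet (hWP (haW e' he')) (hWP (hxW e' he')) (G.ax _ (hq e' he') _ (hq e' he') _ (hN e' he'))) ?_
      rw [G.ra _ (hq e he) _ (hN e he), G.ra _ (hq e' he') _ (hN e' he'), h]
    · refine rk_inj (D := distSet P) (mem_distSet (hWP (hbW e he)) (hWP (hxW e he)) (G.bx _ (hq e he) _ (hq e he) _ (hN e he)))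
        (mem_distSet (hWP (hbW e' he')) (hWP (hxW e' he')) (G.bx _ (hq e' he') _ (hq e' he') _ (hN e' he'))) ?_
      rw [G.rb _ (hq e he) _ (hN e he), G.rb _ (hq e' he') _ (hN e' he'), h]
  have key := image_card_of_rep f S R hRS (by
    intro r hr
    rw [hR, mem_union] at hr
    rcases hr with hr | hr
    · obtain ⟨e, he, rfl⟩ := mem_image.1 hr
      have heF := (mem_sdiff.1 he).1
      have hσ : e.2 ∈ F.image Prod.snd := mem_image_of_mem _ heF
      have hkeF := hkF _ hσ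
      have hkeK : k e.2 ∈ K := hK ▸ mem_image_of_mem _ hσ
      refine ⟨pa (k e.2), hmemS _ _ (haW _ hkeF) (hxW _ hkeF) (G.ax _ (hq _ hkeF) _ (hq _ hkeF) _ (hN _ hkeF)), ?_, ?_⟩
      · rw [hR, mem_union]
        rintro (h1 | h1)
        · obtain ⟨e1, he1, h2⟩ := mem_image.1 h1
          have h3 := hpa e1 (mem_sdiff.1 he1).1 _ hkeF h2
          exact (mem_sdiff.1 he1).2 (h3 ▸ hkeK)
        · obtain ⟨e1, he1, h2⟩ := mem_image.1 h1
          exact hpab _ hkeF e1 (mem_sdiff.1 he1).1 h2.symm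
      · exact ((hdist e heF _ hkeF (hk2 _ hσ).symm).1).symm
    · obtain ⟨e, he, rfl⟩ := mem_image.1 hr
      have heF := (mem_sdiff.1 he).1
      have hσ : e.2 ∈ F.image Prod.snd := mem_image_of_mem _ heF
      have hkeF := hkF _ hσ
      have hkeK : k e.2 ∈ K := hK ▸ mem_image_of_mem _ hσ
      refine ⟨pb (k e.2), hmemS _ _ (hbW _ hkeF) (hxW _ hkeF) (G.bx _ (hq _ hkeF) _ (hq _ hkeF) _ (hN _ hkeF)), ?_, ?_⟩
      · rw [hR, mem_union]
        rintro (h1 | h1)
        · obtain ⟨e1, he1, h2⟩ := mem_image.1 h1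
          exact hpab e1 (mem_sdiff.1 he1).1 _ hkeF h2
        · obtain ⟨e1, he1, h2⟩ := mem_image.1 h1
          have h3 := hpb e1 (mem_sdiff.1 he1).1 _ hkeF h2
          exact (mem_sdiff.1 he1).2 (h3 ▸ hkeK)
      · exact ((hdist e heF _ hkeF (hk2 _ hσ).symm).2).symm)
  rw [hSim, hSc, hRc] at key
  unfold numDist
  omega

end Pool.Agent.Lib.LocD
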