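import Pool.Agent.Lib.LocD.B5a
import Pool.Agent.Lib.LocD.E1

/-!
# LocD.B5: many copies with the same leaves give a k-set with few distances

PROOF. `A0 = 6 t + 6`, `M = Mt t = 18 t + 12`. Call `(L, F, j)` a state if `Λ ⊆ L`, `∀ l ∈ L, l < q`, `F ⊆ E`, `∀ e ∈ F, e.1 ∈ L`,
`2 |L| + 2 |F.image snd| + j ≤ |F| + A0`, `|G.pts L F| ≤ k`, `|G.pts L F| ≤ A0 + j M`. `(Λ, ∅, 0)` is a state. For a state: `|L| ≤ k` (`L.image G.a ⊆ pts`, `G.ainj`) and
`|F| ≤ k * k` (`F ⊆ L ×ˢ ...`: for fixed `i ∈ L` the map `s ↦ G.x i s` is injective on the `s` with `(i, s) ∈ F` (`Gam.x_inj`) with values in `pts`; so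
`(i, s) ↦ (i, G.x i s)` is injective from `F` to `L ×ˢ pts`). So `j ≤ k^2 + A0` and there is a state with `j` maximal (e.g. `Nat.findGreatest` or strong
induction on `k^2 + A0 - j`). Let `U = L.image inl ∪ (F.image snd).image inr`, `|U| ≤ k + k^2`. The `f ∈ H` with all `f i ∈ U` (`i < 6 t + 4`) number at most
`|U|^(6t+4) ≤ (k + k^2)^(6t+4)`: `f ↦ (fun i _ => f i) ∈ (range (6t+4)).pi (fun _ => U)` is injective on `H` by `IsCopy.tail`. So some `f ∈ H` is not inside `U`;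
`glue` gives `L'`, `F'`; `|pts'| ≤ |pts| + 2 (6t+4) + (6t+4) = |pts| + M` (`pts' \ pts` is contained in `(L' \ L).image a ∪ (L' \ L).image b ∪ (F' \ F).image x`).
`(L', F', j+1)` satisfies everything except perhaps `|pts'| ≤ k`; by maximality `|pts'| > k`. Hence `|pts| ≥ k + 1 - M` and `k < A0 + (j+1) M`, and
`P.card ≥ k` (`pts_subset`). `Gam.excess`: `numDist pts + 2|F| ≤ C(|pts|,2) + 2 |F.image snd|`, and `|pts| ≤ 2|L| + |F|`, so
`numDist pts + |pts| + j ≤ C(|pts|, 2) + A0`. `fill_up` gives `S`: `numDist S + |pts| + j ≤ C(k,2) + A0`. Multiply by `M`: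
`M numDist S + M (k + 1 - M) + (k + 1 - A0 - M) ≤ M C(k,2) + M A0`, which implies the claim.
-/

namespace Pool.Agent.Lib.LocD

open Finset

/-- states of the gluing process -/
private structure St {P : Finset Pl} {q : ℕ} (G : Gam P q) (t k : ℕ) (E : Finset (ℕ × (ℕ × ℕ)))
    (Λ : Finset ℕ) (L : Finset ℕ) (F : Finset (ℕ × (ℕ × ℕ))) (j : ℕ) : Prop where
  sa : Λ ⊆ L
  sb : ∀ l ∈ L, l < q
  sc : F ⊆ E
  sd : ∀ e ∈ F, e.1 ∈ L
  se : 2 * L.card + 2 * (F.image Prod.snd).card + j ≤ F.card + (6 * t + 6)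
  sf : (G.pts L F).card ≤ k
  sg : (G.pts L F).card ≤ (6 * t + 6) + j * Mt t

private theorem St.L_le {P : Finset Pl} {q : ℕ} {G : Gam P q} {t k : ℕ} {E : Finset (ℕ × (ℕ × ℕ))}
    {Λ L : Finset ℕ} {F : Finset (ℕ × (ℕ × ℕ))} {j : ℕ} (h : St G t k E Λ L F j) : L.card ≤ k := by
  refine le_trans ?_ h.sf
  have h1 : L.image G.a ⊆ G.pts L F := by
    unfold Gam.pts
    exact subset_union_left.trans subset_union_left
  rw [← card_image_of_injOn (s := L) (f := G.a)
    (fun i hi j hj hij => G.ainj i (h.sb i hi) j (h.sb j hj) hij)]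
  exact card_le_card h1

private theorem St.F_le {P : Finset Pl} {q : ℕ} {G : Gam P q} {t k : ℕ} {E : Finset (ℕ × (ℕ × ℕ))}
    (hE : ∀ e ∈ E, e.1 < q ∧ e.2 ∈ G.N e.1)
    {Λ L : Finset ℕ} {F : Finset (ℕ × (ℕ × ℕ))} {j : ℕ} (h : St G t k E Λ L F j) :
    F.card ≤ k * k := by
  have h1 : F.card ≤ (L ×ˢ G.pts L F).card := by
    refine card_le_card_of_injOn (fun e => (e.1, G.x e.1 e.2)) (fun e he => ?_) ?_
    · rw [mem_coe, mem_product]
      refine ⟨h.sd e he, ?_⟩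
      unfold Gam.pts
      exact mem_union_right _ (mem_image.2 ⟨e, he, rfl⟩)
    · rintro ⟨i, s⟩ he ⟨i', s'⟩ he' hee
      obtain ⟨h2, h3⟩ := Prod.mk.inj hee
      simp only at h2 h3
      subst h2
      have h4 := G.x_inj (hE _ (h.sc he)).1 (hE _ (h.sc he)).2 (hE _ (h.sc he')).2 h3
      simp only at h4
      rw [h4]
  rw [card_product] at h1
  exact h1.trans (Nat.mul_le_mul h.L_le h.sf)

private theorem exists_new {P : Finset Pl} {q : ℕ} {G : Gam P q} {t k : ℕ}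
    {E : Finset (ℕ × (ℕ × ℕ))} (hE : ∀ e ∈ E, e.1 < q ∧ e.2 ∈ G.N e.1)
    {Λ L : Finset ℕ} {F : Finset (ℕ × (ℕ × ℕ))} {j : ℕ} (h : St G t k E Λ L F j)
    (H : Finset (ℕ → Vx)) (hH : ∀ f ∈ H, IsCopy E t f)
    (hcard : (k + k ^ 2) ^ (6 * t + 4) < H.card) :
    ∃ f ∈ H, ∃ i < 6 * t + 4, f i ∉ L.image Sum.inl ∪ (F.image Prod.snd).image Sum.inr := by
  by_contra hno
  push Not at hno
  set U : Finset Vx := L.image Sum.inl ∪ (F.image Prod.snd).image Sum.inr with hU
  have hUc : U.card ≤ k + k ^ 2 := by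
    have h1 := card_union_le (L.image (Sum.inl : ℕ → Vx))
      ((F.image Prod.snd).image (Sum.inr : ℕ × ℕ → Vx))
    have h2 : (L.image (Sum.inl : ℕ → Vx)).card ≤ L.card := card_image_le
    have h3 : ((F.image Prod.snd).image (Sum.inr : ℕ × ℕ → Vx)).card ≤ (F.image Prod.snd).card :=
      card_image_le
    have h4 : (F.image Prod.snd).card ≤ F.card := card_image_le
    have h5 := h.L_le
    have h6 := h.F_le hE
    rw [← hU] at h1
    rw [pow_two]
    omega
  have h1 : H.card ≤ (Fintype.piFinset (fun _ : Fin (6 * t + 4) => U)).card := by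
    refine card_le_card_of_injOn (fun f i => f i) (fun f hf => ?_) ?_
    · rw [mem_coe, Fintype.mem_piFinset]
      exact fun i => hno f hf i i.2
    · intro f hf g hg hfg
      funext i
      by_cases hi : i < 6 * t + 4
      · exact congrFun hfg ⟨i, hi⟩
      · push Not at hi
        rw [(hH f hf).tail i hi, (hH g hg).tail i hi]
  rw [Fintype.card_piFinset_const] at h1
  have h2 : U.card ^ (6 * t + 4) ≤ (k + k ^ 2) ^ (6 * t + 4) := Nat.pow_le_pow_left hUc _
  omega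

private theorem pts_grow {P : Finset Pl} {q : ℕ} (G : Gam P q) (t : ℕ) {L L' : Finset ℕ}
    {F F' : Finset (ℕ × (ℕ × ℕ))} (hL : L ⊆ L') (hF : F ⊆ F')
    (hLc : L'.card ≤ L.card + (6 * t + 4)) (hFc : F'.card ≤ F.card + (6 * t + 4)) :
    (G.pts L' F').card ≤ (G.pts L F).card + Mt t := by
  have h1 : G.pts L' F' ⊆ G.pts L F ∪ (((L' \ L).image G.a ∪ (L' \ L).image G.b) ∪
      (F' \ F).image (fun e => G.x e.1 e.2)) := by
    intro z hz
    unfold Gam.pts at hz ⊢
    simp only [mem_union, mem_image, mem_sdiff] at hz ⊢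
    rcases hz with (⟨i, hi, rfl⟩ | ⟨i, hi, rfl⟩) | ⟨e, he, rfl⟩
    · by_cases h : i ∈ L
      · exact Or.inl (Or.inl (Or.inl ⟨i, h, rfl⟩))
      · exact Or.inr (Or.inl (Or.inl ⟨i, ⟨hi, h⟩, rfl⟩))
    · by_cases h : i ∈ L
      · exact Or.inl (Or.inl (Or.inr ⟨i, h, rfl⟩))
      · exact Or.inr (Or.inl (Or.inr ⟨i, ⟨hi, h⟩, rfl⟩))
    · by_cases h : e ∈ F
      · exact Or.inl (Or.inr ⟨e, h, rfl⟩)
      · exact Or.inr (Or.inr ⟨e, ⟨he, h⟩, rfl⟩)
  have h2 := card_le_card h1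
  have h3 := card_union_le (G.pts L F) (((L' \ L).image G.a ∪ (L' \ L).image G.b) ∪
      (F' \ F).image (fun e => G.x e.1 e.2))
  have h4 := card_union_le ((L' \ L).image G.a ∪ (L' \ L).image G.b)
      ((F' \ F).image (fun e => G.x e.1 e.2))
  have h5 := card_union_le ((L' \ L).image G.a) ((L' \ L).image G.b)
  have h6 : ((L' \ L).image G.a).card ≤ (L' \ L).card := card_image_le
  have h7 : ((L' \ L).image G.b).card ≤ (L' \ L).card := card_image_le
  have h8 : ((F' \ F).image (fun e => G.x e.1 e.2)).card ≤ (F' \ F).card := card_image_le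
  have h9 := card_sdiff_add_card_eq_card hL
  have h10 := card_sdiff_add_card_eq_card hF
  unfold Mt
  omega

theorem Gam.many_copies {P : Finset Pl} {q : ℕ} (G : Gam P q) (t k : ℕ) (hk : 6 * t + 6 ≤ k)
    (E : Finset (ℕ × (ℕ × ℕ))) (hE : ∀ e ∈ E, e.1 < q ∧ e.2 ∈ G.N e.1)
    (Λ : Finset ℕ) (hΛ : Λ.card ≤ 3 * t + 3) (hΛq : ∀ l ∈ Λ, l < q)
    (H : Finset (ℕ → Vx)) (hH : ∀ f ∈ H, IsCopy E t f ∧ ∀ i < 6 * t + 4, isLf t i → ∃ l ∈ Λ, f i = Sum.inl l)
    (hcard : (k + k ^ 2) ^ (6 * t + 4) < H.card) :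
    ∃ S ⊆ P, S.card = k ∧ Mt t * numDist S + (Mt t + 1) * k ≤ Mt t * k.choose 2 + Ct t := by
  classical
  by_contra hno
  -- one step
  have step : ∀ (L : Finset ℕ) (F : Finset (ℕ × (ℕ × ℕ))) (j : ℕ), St G t k E Λ L F j →
      ∃ L' F', St G t k E Λ L' F' (j + 1) := by
    intro L F j h
    obtain ⟨f, hfH, hfU⟩ := exists_new hE h H (fun f hf => (hH f hf).1) hcard
    obtain ⟨L', F', g1, g2, g3, g4, g5, g6, g7, g8⟩ := glue t E F L h.sc h.sd f (hH f hfH).1
      (fun i hi hl => by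
        obtain ⟨l, hl1, hl2⟩ := (hH f hfH).2 i hi hl
        exact ⟨l, h.sa hl1, hl2⟩) hfU
    have hgrow := pts_grow G t g1 g2 g7 g8
    have hb : ∀ l ∈ L', l < q := by
      intro l hl
      rcases g5 l hl with h1 | ⟨s, h1⟩
      · exact h.sb l h1
      · exact (hE _ h1).1
    have hg : (G.pts L' F').card ≤ (6 * t + 6) + (j + 1) * Mt t := by
      have h1 := h.sg
      rw [Nat.add_mul, Nat.one_mul]
      omega
    have he : 2 * L'.card + 2 * (F'.image Prod.snd).card + (j + 1) ≤ F'.card + (6 * t + 6) := by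
      have h1 := h.se
      omega
    by_cases hk' : (G.pts L' F').card ≤ k
    · exact ⟨L', F', ⟨h.sa.trans g1, hb, g3, g4, he, hk', hg⟩⟩
    · exfalso
      apply hno
      push Not at hk'
      have hP : k ≤ P.card := by
        have h1 := card_le_card (G.pts_subset L' F' hb
          (fun e he => ⟨g4 e he, (hE e (g3 he)).2⟩))
        omega
      have h1 := G.excess L F h.sb (fun e he => ⟨h.sd e he, (hE e (h.sc he)).2⟩)
      have h2 := G.pts_card_le L F
      have h3 := h.se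
      have h4 := G.pts_subset L F h.sb (fun e he => ⟨h.sd e he, (hE e (h.sc he)).2⟩)
      obtain ⟨S, hS1, hS2, hS3⟩ := fill_up h4 k h.sf hP
      refine ⟨S, hS1, hS2, ?_⟩
      have h5 : numDist S + (G.pts L F).card + j ≤ k.choose 2 + (6 * t + 6) := by omega
      have h6 : k + 1 ≤ (G.pts L F).card + Mt t := by omega
      have h7 : k + 1 ≤ (6 * t + 6) + (j + 1) * Mt t := by omega
      have h8 := Nat.mul_le_mul_left (Mt t) h5
      have h9 := Nat.mul_le_mul_left (Mt t) h6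
      unfold Ct
      nlinarith
  have all : ∀ j : ℕ, ∃ L F, St G t k E Λ L F j := by
    intro j
    induction j with
    | zero =>
      have h1 := G.pts_card_le Λ ∅
      rw [card_empty] at h1
      refine ⟨Λ, ∅, ⟨Subset.refl _, hΛq, empty_subset _, fun e he => absurd he (notMem_empty _),
        ?_, by omega, by omega⟩⟩
      rw [image_empty, card_empty]
      omega
    | succ j ih =>
      obtain ⟨L, F, h⟩ := ih
      exact step L F j h
  obtain ⟨L, F, h⟩ := all (k * k + (6 * t + 6) + 1)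
  have h1 := h.se
  have h2 := h.F_le hE
  omega

end Pool.Agent.Lib.LocD
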