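import Pool.Agent.Lib.LocD.B3
import Pool.Agent.Lib.LocD.B4

/-!
# LocD.B5a: gluing one more copy of the tree

PROOF. `n = 6 t + 4`. Types: by strong induction `f i` is a right vertex (`Sum.inr`) iff `isR i` (`mem_adj_inl`, `mem_adj_inr`, `isR_par`, `not_isR_zero`).
`fE = (Ico 1 n).image (fun i => ed (f i) (f (par i)))`; each of these edges is in `E`. `fL` = the finset of all `l` with `f i = inl l` for some `i < n`.
`L' = L ∪ fL`, `F' = F ∪ fE`. `U = L.image inl ∪ (F.image snd).image inr`, `S = (range n).filter (fun v => f v ∉ U)`: nonempty by `hnot`, contains no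
leaf by `hleaf` (so `1 ≤ v` for `v ∈ S` as `0` is a leaf). The map `i ↦ ed (f i) (f (par i))` is injective on `Ico 1 n`: `ed` of an adjacent pair
determines the unordered pair, so `f i = f j` or (`f i = f (par j)` and `f (par i) = f j`), the second would give `i = par j < j` and `j = par i < i`.
If `i ∈ Ico 1 n` and (`i ∈ S` or `par i ∈ S`) then the edge is not in `F` (both ends of an edge of `F` are in `U`, as `hFL`). By `touching` and `children`:
`|F'| ≥ |F| + 2 |S| + 1`. Finally `L'.image inl ∪ (F'.image snd).image inr ⊆ U ∪ S.image f`, so `|L'| + |F'.image snd| ≤ |L| + |F.image snd| + |S|`.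
`|L'| ≤ |L| + n`, `|F'| ≤ |F| + n`.
-/

namespace Pool.Agent.Lib.LocD

open Finset

private theorem types (t : ℕ) (E : Finset (ℕ × (ℕ × ℕ))) (f : ℕ → Vx) (hf : IsCopy E t f) :
    ∀ i < 6 * t + 4, (isR i → ∃ s, f i = Sum.inr s) ∧ (¬ isR i → ∃ l, f i = Sum.inl l) := by
  intro i
  induction i using Nat.strong_induction_on with
  | _ i ih =>
    intro hi
    rcases Nat.eq_zero_or_pos i with h0 | h0
    · subst h0
      exact ⟨fun h => absurd h not_isR_zero, fun _ => hf.zero⟩
    · have hlt := par_lt i h0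
      have h1 := ih (par i) hlt (by omega)
      have h2 := hf.step i h0 hi
      have h3 := isR_par i h0
      constructor
      · intro hR
        obtain ⟨l, hl⟩ := h1.2 (h3.1 hR)
        rw [hl, mem_adj_inl] at h2
        obtain ⟨s, _, hs⟩ := h2
        exact ⟨s, hs⟩
      · intro hR
        have h4 : isR (par i) := by
          by_contra h5
          exact hR (h3.2 h5)
        obtain ⟨s, hs⟩ := h1.1 h4
        rw [hs, mem_adj_inr] at h2
        obtain ⟨l, _, hl⟩ := h2
        exact ⟨l, hl⟩

private theorem edge (t : ℕ) (E : Finset (ℕ × (ℕ × ℕ))) (f : ℕ → Vx) (hf : IsCopy E t f)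
    (i : ℕ) (h1 : 1 ≤ i) (hi : i < 6 * t + 4) :
    ∃ l s, (l, s) ∈ E ∧ ed (f i) (f (par i)) = (l, s) ∧
      ((f i = Sum.inl l ∧ f (par i) = Sum.inr s) ∨ (f i = Sum.inr s ∧ f (par i) = Sum.inl l)) := by
  have hlt := par_lt i h1
  have ht := types t E f hf (par i) (by omega)
  have h2 := hf.step i h1 hi
  by_cases hR : isR (par i)
  · obtain ⟨s, hs⟩ := ht.1 hR
    rw [hs, mem_adj_inr] at h2
    obtain ⟨l, hl, hfl⟩ := h2
    refine ⟨l, s, hl, ?_, Or.inl ⟨hfl, hs⟩⟩
    rw [hfl, hs]
    rfl
  · obtain ⟨l, hl⟩ := ht.2 hR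
    rw [hl, mem_adj_inl] at h2
    obtain ⟨s, hs, hfs⟩ := h2
    refine ⟨l, s, hs, ?_, Or.inr ⟨hfs, hl⟩⟩
    rw [hfs, hl]
    rfl

private theorem ed_inj (t : ℕ) (E : Finset (ℕ × (ℕ × ℕ))) (f : ℕ → Vx) (hf : IsCopy E t f)
    (i j : ℕ) (hi1 : 1 ≤ i) (hi : i < 6 * t + 4) (hj1 : 1 ≤ j) (hj : j < 6 * t + 4)
    (h : ed (f i) (f (par i)) = ed (f j) (f (par j))) : i = j := by
  obtain ⟨l, s, _, he, hc⟩ := edge t E f hf i hi1 hi
  obtain ⟨l', s', _, he', hc'⟩ := edge t E f hf j hj1 hj
  rw [he, he'] at h
  obtain ⟨rfl, rfl⟩ := Prod.mk.inj h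
  have hpi := par_lt i hi1
  have hpj := par_lt j hj1
  rcases hc with ⟨a1, a2⟩ | ⟨a1, a2⟩ <;> rcases hc' with ⟨b1, b2⟩ | ⟨b1, b2⟩
  · exact hf.inj i hi j hj (by rw [a1, b1])
  · have h1 := hf.inj i hi (par j) (by omega) (by rw [a1, b2])
    have h2 := hf.inj (par i) (by omega) j hj (by rw [a2, b1])
    omega
  · have h1 := hf.inj i hi (par j) (by omega) (by rw [a1, b2])
    have h2 := hf.inj (par i) (by omega) j hj (by rw [a2, b1])
    omega
  · exact hf.inj i hi j hj (by rw [a1, b1])

/-- the left vertex -/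
private def gl : Vx → Finset ℕ
  | Sum.inl l => {l}
  | Sum.inr _ => ∅

private theorem mem_gl {v : Vx} {l : ℕ} : l ∈ gl v ↔ v = Sum.inl l := by
  cases v with
  | inl a =>
    simp only [gl, mem_singleton, Sum.inl.injEq]
    exact eq_comm
  | inr b => simp [gl]

private theorem gl_card (v : Vx) : (gl v).card ≤ 1 := by
  cases v with
  | inl a => simp [gl]
  | inr b => simp [gl]

theorem glue (t : ℕ) (E F : Finset (ℕ × (ℕ × ℕ))) (L : Finset ℕ) (hF : F ⊆ E) (hFL : ∀ e ∈ F, e.1 ∈ L)
    (f : ℕ → Vx) (hf : IsCopy E t f) (hleaf : ∀ i < 6 * t + 4, isLf t i → ∃ l ∈ L, f i = Sum.inl l)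
    (hnot : ∃ i < 6 * t + 4, f i ∉ L.image Sum.inl ∪ (F.image Prod.snd).image Sum.inr) :
    ∃ (L' : Finset ℕ) (F' : Finset (ℕ × (ℕ × ℕ))), L ⊆ L' ∧ F ⊆ F' ∧ F' ⊆ E ∧ (∀ e ∈ F', e.1 ∈ L') ∧
      (∀ l ∈ L', l ∈ L ∨ ∃ s, (l, s) ∈ E) ∧
      F.card + 2 * L'.card + 2 * (F'.image Prod.snd).card + 1 ≤ F'.card + 2 * L.card + 2 * (F.image Prod.snd).card ∧
      L'.card ≤ L.card + (6 * t + 4) ∧ F'.card ≤ F.card + (6 * t + 4) := by
  classical
  have hedge := edge t E f hf
  set n : ℕ := 6 * t + 4 with hn
  set fE : Finset (ℕ × (ℕ × ℕ)) := (Finset.Ico 1 n).image (fun i => ed (f i) (f (par i))) with hfE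
  set fL : Finset ℕ := (range n).biUnion (fun i => gl (f i)) with hfL
  set U : Finset Vx := L.image Sum.inl ∪ (F.image Prod.snd).image Sum.inr with hU
  set S : Finset ℕ := (range n).filter (fun v => f v ∉ U) with hS
  have hmemL : ∀ l, l ∈ fL ↔ ∃ i < n, f i = Sum.inl l := by
    intro l
    rw [hfL, mem_biUnion]
    constructor
    · rintro ⟨i, hi, hl⟩
      exact ⟨i, mem_range.1 hi, mem_gl.1 hl⟩
    · rintro ⟨i, hi, hl⟩
      exact ⟨i, mem_range.2 hi, mem_gl.2 hl⟩
  have hSlf : ∀ v ∈ S, ¬ isLf t v := by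
    intro v hv hlf
    rw [hS, mem_filter, mem_range] at hv
    obtain ⟨l, hl, hfl⟩ := hleaf v hv.1 hlf
    apply hv.2
    rw [hfl, hU, mem_union]
    exact Or.inl (mem_image_of_mem _ hl)
  have hS0 : ∀ v ∈ S, 1 ≤ v ∧ v < n := by
    intro v hv
    have h1 := hSlf v hv
    rw [hS, mem_filter, mem_range] at hv
    refine ⟨?_, hv.1⟩
    rcases Nat.eq_zero_or_pos v with h0 | h0
    · exact absurd (Or.inl h0) h1
    · exact h0
  have hSne : S.Nonempty := by
    obtain ⟨i, hi, hiU⟩ := hnot
    exact ⟨i, by rw [hS, mem_filter, mem_range]; exact ⟨hi, hiU⟩⟩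
  have htouch := touching n par par_lt S hSne hS0
    (fun v hv => children t v (hS0 v hv).2 (hSlf v hv))
  -- every tree vertex is in U or in the image of S
  have hUS : ∀ i < n, f i ∈ U ∪ S.image f := by
    intro i hi
    rw [mem_union]
    by_cases h : f i ∈ U
    · exact Or.inl h
    · refine Or.inr (mem_image_of_mem _ ?_)
      rw [hS, mem_filter, mem_range]
      exact ⟨hi, h⟩
  have hpar : ∀ i, 1 ≤ i → i < n → par i < n := by
    intro i h1 hi
    have := par_lt i h1
    omega
  refine ⟨L ∪ fL, F ∪ fE, subset_union_left, subset_union_left, ?_, ?_, ?_, ?_, ?_, ?_⟩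
  · -- F' ⊆ E
    apply union_subset hF
    intro e he
    rw [hfE, mem_image] at he
    obtain ⟨i, hi, rfl⟩ := he
    rw [Finset.mem_Ico] at hi
    obtain ⟨l, s, hls, he, _⟩ := hedge i hi.1 hi.2
    rw [he]
    exact hls
  · -- e.1 ∈ L'
    intro e he
    rw [mem_union] at he ⊢
    rcases he with he | he
    · exact Or.inl (hFL e he)
    · right
      rw [hfE, mem_image] at he
      obtain ⟨i, hi, rfl⟩ := he
      rw [Finset.mem_Ico] at hi
      obtain ⟨l, s, hls, he, hc⟩ := hedge i hi.1 hi.2
      rw [he, hmemL]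
      rcases hc with ⟨a1, a2⟩ | ⟨a1, a2⟩
      · exact ⟨i, hi.2, a1⟩
      · exact ⟨par i, hpar i hi.1 hi.2, a2⟩
  · -- l ∈ L'
    intro l hl
    rw [mem_union] at hl
    rcases hl with hl | hl
    · exact Or.inl hl
    · rw [hmemL] at hl
      obtain ⟨i, hi, hfi⟩ := hl
      rcases Nat.eq_zero_or_pos i with h0 | h0
      · subst h0
        obtain ⟨l', hl', hfl⟩ := hleaf 0 hi (Or.inl rfl)
        rw [hfi] at hfl
        have := Sum.inl.inj hfl
        subst this
        exact Or.inl hl'
      · right
        obtain ⟨l', s, hls, _, hc⟩ := hedge i h0 hi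
        rcases hc with ⟨a1, a2⟩ | ⟨a1, a2⟩
        · rw [hfi] at a1
          have := Sum.inl.inj a1
          subst this
          exact ⟨s, hls⟩
        · rw [hfi] at a1
          exact absurd a1 (by simp)
  · -- the main inequality
    have h1 : F.card + (2 * S.card + 1) ≤ (F ∪ fE).card := by
      set T := (Finset.Ico 1 n).filter (fun i => i ∈ S ∨ par i ∈ S) with hT
      have hTcard : (T.image (fun i => ed (f i) (f (par i)))).card = T.card := by
        apply card_image_of_injOn
        intro i hi j hj hij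
        rw [hT, mem_coe, mem_filter, Finset.mem_Ico] at hi hj
        exact ed_inj t E f hf i j hi.1.1 hi.1.2 hj.1.1 hj.1.2 hij
      have hdisj : Disjoint F (T.image (fun i => ed (f i) (f (par i)))) := by
        rw [disjoint_left]
        intro e heF heT
        rw [mem_image] at heT
        obtain ⟨i, hi, rfl⟩ := heT
        rw [hT, mem_filter, Finset.mem_Ico] at hi
        obtain ⟨l, s, hls, he, hc⟩ := hedge i hi.1.1 hi.1.2
        rw [he] at heF
        have u1 : (Sum.inl l : Vx) ∈ U := by
          rw [hU, mem_union]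
          exact Or.inl (mem_image_of_mem _ (hFL _ heF))
        have u2 : (Sum.inr s : Vx) ∈ U := by
          rw [hU, mem_union]
          exact Or.inr (mem_image_of_mem _ (mem_image.2 ⟨_, heF, rfl⟩))
        have u3 : f i ∈ U ∧ f (par i) ∈ U := by
          rcases hc with ⟨a1, a2⟩ | ⟨a1, a2⟩
          · rw [a1, a2]; exact ⟨u1, u2⟩
          · rw [a1, a2]; exact ⟨u2, u1⟩
        rcases hi.2 with h | h
        · rw [hS, mem_filter] at h
          exact h.2 u3.1
        · rw [hS, mem_filter] at h
          exact h.2 u3.2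
      have hsub : F ∪ T.image (fun i => ed (f i) (f (par i))) ⊆ F ∪ fE := by
        apply union_subset_union_right
        rw [hfE]
        exact image_subset_image (filter_subset _ _)
      have h2 := card_le_card hsub
      rw [card_union_of_disjoint hdisj, hTcard] at h2
      omega
    have h2 : (L ∪ fL).card + ((F ∪ fE).image Prod.snd).card ≤
        L.card + (F.image Prod.snd).card + S.card := by
      have hinl : Function.Injective (Sum.inl : ℕ → Vx) := Sum.inl_injective
      have hinr : Function.Injective (Sum.inr : ℕ × ℕ → Vx) := Sum.inr_injective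
      have hd : ∀ (A : Finset ℕ) (B : Finset (ℕ × ℕ)),
          ((A.image (Sum.inl : ℕ → Vx)) ∪ (B.image (Sum.inr : ℕ × ℕ → Vx))).card =
            A.card + B.card := by
        intro A B
        rw [card_union_of_disjoint, card_image_of_injective _ hinl, card_image_of_injective _ hinr]
        rw [disjoint_left]
        intro v hv1 hv2
        rw [mem_image] at hv1 hv2
        obtain ⟨a, _, rfl⟩ := hv1
        obtain ⟨b, _, hb⟩ := hv2
        exact absurd hb (by simp)
      have hsub : ((L ∪ fL).image (Sum.inl : ℕ → Vx)) ∪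
          (((F ∪ fE).image Prod.snd).image (Sum.inr : ℕ × ℕ → Vx)) ⊆ U ∪ S.image f := by
        apply union_subset
        · intro v hv
          rw [mem_image] at hv
          obtain ⟨l, hl, rfl⟩ := hv
          rw [mem_union] at hl
          rcases hl with hl | hl
          · rw [mem_union]
            left
            rw [hU, mem_union]
            exact Or.inl (mem_image_of_mem _ hl)
          · rw [hmemL] at hl
            obtain ⟨i, hi, hfi⟩ := hl
            rw [← hfi]
            exact hUS i hi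
        · intro v hv
          rw [mem_image] at hv
          obtain ⟨s, hs, rfl⟩ := hv
          rw [mem_image] at hs
          obtain ⟨e, he, rfl⟩ := hs
          rw [mem_union] at he
          rcases he with he | he
          · rw [mem_union]
            left
            rw [hU, mem_union]
            exact Or.inr (mem_image_of_mem _ (mem_image.2 ⟨e, he, rfl⟩))
          · rw [hfE, mem_image] at he
            obtain ⟨i, hi, rfl⟩ := he
            rw [Finset.mem_Ico] at hi
            obtain ⟨l, s, hls, he, hc⟩ := hedge i hi.1 hi.2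
            rw [he]
            show (Sum.inr s : Vx) ∈ U ∪ S.image f
            rcases hc with ⟨a1, a2⟩ | ⟨a1, a2⟩
            · rw [← a2]
              exact hUS _ (hpar i hi.1 hi.2)
            · rw [← a1]
              exact hUS i hi.2
      have h3 := card_le_card hsub
      rw [hd] at h3
      have h4 := card_union_le U (S.image f)
      have h5 : (S.image f).card ≤ S.card := card_image_le
      have h6 : U.card = L.card + (F.image Prod.snd).card := hd L _
      omega
    omega
  · have h1 : fL.card ≤ n := by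
      rw [hfL]
      refine card_biUnion_le.trans ?_
      refine (sum_le_card_nsmul _ _ 1 (fun i _ => gl_card _)).trans ?_
      simp
    have h2 := card_union_le L fL
    omega
  · have h1 : fE.card ≤ n := by
      rw [hfE]
      refine card_image_le.trans ?_
      rw [Nat.card_Ico]
      omega
    have h2 := card_union_le F fE
    omega

end Pool.Agent.Lib.LocD
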