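import Pool.Agent.Lib.LocD.B1
import Pool.Agent.Lib.LocD.B2
import Pool.Agent.Lib.LocD.B5

/-!
# LocD.B6: the counting inequality

PROOF. `n = 6 t + 4`. `E = (range q).biUnion (fun i => (G.N i).image (fun s => (i, s)))`, `|E| = Σ_{i<q} |N i| ≥ e0`. `prune E (range q) R dl dr` gives `E'`
with `|E| ≤ 2 |E'|`. `V0 = (E'.image fst).image inl`; every left vertex has at most `ξ` edges, so `|E'| ≤ ξ |V0|`, `e0 ≤ 2 ξ |V0|`.
`hom_count (adj E') V0 par par_lt d (Sum.inl 0) n` with `d i = if isR i then dl - n else dr - n`: in a partial copy `f (par i)` is a left vertex iff `isR i`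
(induction as in `glue`), and it has an incident edge of `E'` (for `par i = 0` because `f 0 ∈ V0`, otherwise because `f (par i)` is adjacent to `f (par (par i))`),
so `|adj E' (f (par i))| ≥ dl` resp. `dr` (the images in `adj` are injective on the filtered edge sets) `≥ (dl - n) + i`.
So `|H| ≥ |V0| (dl - n)^(2t+1) (dr - n)^(4t+2)` by `prod_types`. All `f ∈ H` are `IsCopy E' t f`. Leaf positions: `leaf i → f i = inl l` with `l < q`
(`lf_not_isR`): the map `f ↦ (fun i _ => f i)` into `((range n).filter (isLf t)).pi (fun _ => (range q).image inl)`, a set with `q^(3t+3)` elements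
(`lf_count`, `Finset.card_pi`). If `q^(3t+3) * (k + k^2)^n < |H|` then some fibre has more than `(k + k^2)^n` elements
(`Finset.exists_lt_card_fiber_of_mul_lt_card_of_maps_to`); `Λ` = the set of the values on the leaves, `|Λ| ≤ 3 t + 3`; `many_copies` contradicts `hno`.
So `|V0| (dl - n)^(2t+1) (dr - n)^(4t+2) ≤ q^(3t+3) (k + k^2)^n`; multiply by `2 ξ`.
-/

namespace Pool.Agent.Lib.LocD

open Finset

private theorem types (E' : Finset (ℕ × (ℕ × ℕ))) (f : ℕ → Vx) (i : ℕ)
    (h0 : f 0 ∈ (E'.image Prod.fst).image (Sum.inl : ℕ → Vx))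
    (hs : ∀ j, 1 ≤ j → j < i → f j ∈ adj E' (f (par j))) :
    ∀ j, j = 0 ∨ j < i → (¬ isR j → ∃ e ∈ E', f j = Sum.inl e.1) ∧
      (isR j → ∃ e ∈ E', f j = Sum.inr e.2) := by
  intro j
  induction j using Nat.strong_induction_on with
  | _ j ih =>
    intro hj
    rcases Nat.eq_zero_or_pos j with h | h
    · subst h
      refine ⟨fun _ => ?_, fun h1 => absurd h1 not_isR_zero⟩
      obtain ⟨l, hl, hl2⟩ := mem_image.mp h0
      obtain ⟨e, he, rfl⟩ := mem_image.mp hl
      exact ⟨e, he, hl2.symm⟩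
    · have hji : j < i := by
        rcases hj with h1 | h1
        · omega
        · exact h1
      have hp := par_lt j h
      have h1 := ih (par j) hp (Or.inr (by omega))
      have h2 := hs j h hji
      have h3 := isR_par j h
      constructor
      · intro h4
        have h5 : isR (par j) := by
          by_contra h6
          exact h4 (h3.mpr h6)
        obtain ⟨e, _, he2⟩ := h1.2 h5
        rw [he2, mem_adj_inr] at h2
        obtain ⟨l, hl, hl2⟩ := h2
        exact ⟨_, hl, hl2⟩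
      · intro h4
        have h5 : ¬ isR (par j) := h3.mp h4
        obtain ⟨e, _, he2⟩ := h1.1 h5
        rw [he2, mem_adj_inl] at h2
        obtain ⟨s, hs1, hs2⟩ := h2
        exact ⟨_, hs1, hs2⟩

private theorem adj_inl_card (E' : Finset (ℕ × (ℕ × ℕ))) (l : ℕ) :
    (adj E' (Sum.inl l)).card = (E'.filter (fun e' => e'.1 = l)).card := by
  show ((E'.filter (fun e => e.1 = l)).image (fun e => (Sum.inr e.2 : Vx))).card = _
  apply card_image_of_injOn
  intro e he e' he' h
  have h1 := (mem_filter.mp (mem_coe.mp he)).2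
  have h2 := (mem_filter.mp (mem_coe.mp he')).2
  exact Prod.ext (h1.trans h2.symm) (Sum.inr_injective h)

private theorem adj_inr_card (E' : Finset (ℕ × (ℕ × ℕ))) (s : ℕ × ℕ) :
    (adj E' (Sum.inr s)).card = (E'.filter (fun e' => e'.2 = s)).card := by
  show ((E'.filter (fun e => e.2 = s)).image (fun e => (Sum.inl e.1 : Vx))).card = _
  apply card_image_of_injOn
  intro e he e' he' h
  have h1 := (mem_filter.mp (mem_coe.mp he)).2
  have h2 := (mem_filter.mp (mem_coe.mp he')).2
  exact Prod.ext (Sum.inl_injective h) (h1.trans h2.symm)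

private def lft : Vx → ℕ := Sum.elim id (fun _ => 0)

theorem Gam.copies_bound {P : Finset Pl} {q : ℕ} (G : Gam P q) (t k ξ e0 dl dr : ℕ) (hk : 6 * t + 6 ≤ k)
    (R : Finset (ℕ × ℕ)) (hR : ∀ i < q, G.N i ⊆ R) (hξ : ∀ i < q, (G.N i).card ≤ ξ)
    (he : e0 ≤ ∑ i ∈ range q, (G.N i).card) (hd : 2 * (dl * q + dr * R.card) ≤ e0)
    (hl : 6 * t + 4 ≤ dl) (hr : 6 * t + 4 ≤ dr)
    (hno : ¬ ∃ S ⊆ P, S.card = k ∧ Mt t * numDist S + (Mt t + 1) * k ≤ Mt t * k.choose 2 + Ct t) :
    e0 * ((dl - (6 * t + 4)) ^ (2 * t + 1) * (dr - (6 * t + 4)) ^ (4 * t + 2)) ≤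
      2 * ξ * (q ^ (3 * t + 3) * (k + k ^ 2) ^ (6 * t + 4)) := by
  classical
  set n := 6 * t + 4 with hn
  -- the edge set
  set E : Finset (ℕ × (ℕ × ℕ)) := ((range q) ×ˢ R).filter (fun e => e.2 ∈ G.N e.1) with hE
  have hEm : ∀ e, e ∈ E ↔ e.1 < q ∧ e.2 ∈ G.N e.1 := by
    intro e
    rw [hE, mem_filter, mem_product, mem_range]
    constructor
    · rintro ⟨⟨h1, _⟩, h2⟩
      exact ⟨h1, h2⟩
    · rintro ⟨h1, h2⟩
      exact ⟨⟨h1, hR _ h1 h2⟩, h2⟩
  have hfib : ∀ i < q, (E.filter (fun e => e.1 = i)).card = (G.N i).card := by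
    intro i hi
    have h1 : E.filter (fun e => e.1 = i) = (G.N i).image (fun s => (i, s)) := by
      ext e
      rw [mem_filter, hEm, mem_image]
      constructor
      · rintro ⟨⟨_, h2⟩, h3⟩
        exact ⟨e.2, h3 ▸ h2, Prod.ext h3.symm rfl⟩
      · rintro ⟨s, hs, rfl⟩
        exact ⟨⟨hi, hs⟩, rfl⟩
    rw [h1]
    exact card_image_of_injective _ (fun s s' h => congrArg Prod.snd h)
  have hEcard : E.card = ∑ i ∈ range q, (G.N i).card := by
    rw [card_eq_sum_card_fiberwise (f := Prod.fst) (t := range q) (by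
      intro e he
      exact mem_coe.mpr (mem_range.mpr ((hEm e).mp (mem_coe.mp he)).1))]
    apply sum_congr rfl
    intro i hi
    exact hfib i (mem_range.mp hi)
  obtain ⟨E', hE'E, hE'c, hmin1, hmin2⟩ := prune E (range q) R
    (fun e he => mem_range.mpr ((hEm e).mp he).1)
    (fun e he => hR _ ((hEm e).mp he).1 ((hEm e).mp he).2) dl dr (by
      rw [card_range, hEcard]
      exact hd.trans he)
  set V0 : Finset Vx := (E'.image Prod.fst).image (Sum.inl : ℕ → Vx) with hV0
  have hV0c : V0.card = (E'.image Prod.fst).card :=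
    card_image_of_injective _ Sum.inl_injective
  have hE'V : E'.card ≤ ξ * V0.card := by
    rw [hV0c]
    apply card_le_mul_card_image
    intro l hl
    obtain ⟨e, he', rfl⟩ := mem_image.mp hl
    have hlq : e.1 < q := ((hEm e).mp (hE'E he')).1
    refine le_trans (card_le_card (filter_subset_filter _ hE'E)) ?_
    rw [hfib _ hlq]
    exact hξ _ hlq
  have he0 : e0 ≤ 2 * ξ * V0.card := by
    calc e0 ≤ E.card := by rw [hEcard]; exact he
      _ ≤ 2 * E'.card := hE'c
      _ ≤ 2 * (ξ * V0.card) := Nat.mul_le_mul_left _ hE'V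
      _ = 2 * ξ * V0.card := by ring
  -- counting copies
  obtain ⟨H, hHc, hH⟩ := hom_count (adj E') V0 par par_lt
    (fun i => if isR i then dl - n else dr - n) (Sum.inl 0) n (by omega) (by
      intro i hi hin f hf0 hfs
      have hp := par_lt i hi
      have h1 := types E' f i hf0 hfs (par i) (Or.inr hp)
      have h3 := isR_par i hi
      by_cases h4 : isR i
      · simp only [if_pos h4]
        obtain ⟨e, he1, he2⟩ := h1.1 (h3.mp h4)
        rw [he2, adj_inl_card]
        have h5 := hmin1 e he1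
        omega
      · simp only [if_neg h4]
        have h5 : isR (par i) := by
          by_contra h6
          exact h4 (h3.mpr h6)
        obtain ⟨e, he1, he2⟩ := h1.2 h5
        rw [he2, adj_inr_card]
        have h6 := hmin2 e he1
        omega)
  have hcopy : ∀ f ∈ H, IsCopy E' t f := by
    intro f hf
    obtain ⟨h1, h2, h3, h4⟩ := hH f hf
    refine ⟨?_, h2, h3, h4⟩
    obtain ⟨l, _, hl⟩ := mem_image.mp h1
    exact ⟨l, hl.symm⟩
  have hleaf : ∀ f ∈ H, ∀ i < n, isLf t i → ∃ l < q, f i = Sum.inl l := by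
    intro f hf i hi hl
    obtain ⟨h1, h2, _, _⟩ := hH f hf
    obtain ⟨e, he1, he2⟩ := (types E' f n h1 h2 i (Or.inr hi)).1 (lf_not_isR t i hl)
    exact ⟨e.1, ((hEm e).mp (hE'E he1)).1, he2⟩
  -- the pigeonhole
  have hHle : H.card ≤ q ^ (3 * t + 3) * (k + k ^ 2) ^ n := by
    by_contra hcon
    push Not at hcon
    set Lf := (range n).filter (isLf t) with hLf
    set T := Lf.pi (fun _ => (range q).image (Sum.inl : ℕ → Vx)) with hT
    have hTc : T.card = q ^ (3 * t + 3) := by
      rw [hT, card_pi, prod_const, card_image_of_injective _ Sum.inl_injective, card_range, hLf,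
        lf_count]
    obtain ⟨y, hy, hyc⟩ := exists_lt_card_fiber_of_mul_lt_card_of_maps_to
      (s := H) (t := T) (f := fun f => (fun (i : ℕ) (_ : i ∈ Lf) => f i)) (n := (k + k ^ 2) ^ n) (by
        intro f hf
        rw [hT, mem_pi]
        intro i hi
        obtain ⟨hi1, hi2⟩ := mem_filter.mp hi
        obtain ⟨l, hl1, hl2⟩ := hleaf f hf i (mem_range.mp hi1) hi2
        exact mem_image.mpr ⟨l, mem_range.mpr hl1, hl2.symm⟩) (by rw [hTc]; exact hcon)
    set H' := H.filter (fun f => (fun (i : ℕ) (_ : i ∈ Lf) => f i) = y) with hH'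
    obtain ⟨f0, hf0⟩ : H'.Nonempty := card_pos.mp (lt_of_le_of_lt (Nat.zero_le _) hyc)
    have hf0' := mem_filter.mp hf0
    apply hno
    refine G.many_copies t k hk E' (fun e he => (hEm e).mp (hE'E he))
      (Lf.image (fun i => lft (f0 i))) ?_ ?_ H' ?_ hyc
    · refine card_image_le.trans ?_
      rw [hLf, lf_count]
    · intro l hl
      obtain ⟨i, hi, rfl⟩ := mem_image.mp hl
      obtain ⟨hi1, hi2⟩ := mem_filter.mp hi
      obtain ⟨l, hl1, hl2⟩ := hleaf f0 hf0'.1 i (mem_range.mp hi1) hi2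
      rw [hl2]
      exact hl1
    · intro f hf
      obtain ⟨hf1, hf2⟩ := mem_filter.mp hf
      refine ⟨hcopy f hf1, ?_⟩
      intro i hi hl
      have hiL : i ∈ Lf := mem_filter.mpr ⟨mem_range.mpr hi, hl⟩
      have h1 : f i = f0 i := by
        have h2 := hf2.trans hf0'.2.symm
        exact congrFun (congrFun h2 i) hiL
      obtain ⟨l, hl1, hl2⟩ := hleaf f0 hf0'.1 i hi hl
      refine ⟨l, mem_image.mpr ⟨i, hiL, by rw [hl2]; rfl⟩, ?_⟩
      rw [h1, hl2]
  rw [prod_types] at hHc
  calc e0 * ((dl - n) ^ (2 * t + 1) * (dr - n) ^ (4 * t + 2))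
      ≤ (2 * ξ * V0.card) * ((dl - n) ^ (2 * t + 1) * (dr - n) ^ (4 * t + 2)) :=
        Nat.mul_le_mul_right _ he0
    _ = 2 * ξ * (V0.card * ((dl - n) ^ (2 * t + 1) * (dr - n) ^ (4 * t + 2))) := by ring
    _ ≤ 2 * ξ * (q ^ (3 * t + 3) * (k + k ^ 2) ^ n) :=
        Nat.mul_le_mul_left _ (hHc.trans hHle)

end Pool.Agent.Lib.LocD
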