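import Mathlib

/-!
# LocD.BNa: first numerical end of Theorem B

PROOF. `N = 6 t + 4`, `C1 = (k + k^2)^N` (real, `C1 ≥ 0`). Put `dl = ξ / 16`, `dr = q ξ / (16 ρ)` (floors). `2 (dl q + dr ρ) ≤ q ξ / 8 + q ξ / 8 = q ξ / 4 ≤ e0`.
For `n ≥ n0` (`n0 = 64 * 16 * N` say): `dl ≥ n/32 - 1 ≥ n / 64 + N`, so `dl ≥ N`, `dl - N ≥ n / 64`. CASE `dr < 2 N`: `q ξ / (16 ρ) < 2 N`, so
`q ξ < 32 N ρ`, `n^2 / 32 ≤ q ξ`, `n^2 ≤ 1024 N ρ` and `n^(2 - (t+1)/(4t+2)) ≤ n^2`. CASE `dr ≥ 2 N`: `dr - N ≥ dr / 2`, hypothesis: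
`e0 (n/64)^(2t+1) (dr/2)^(4t+2) ≤ 2 n * n^(3t+3) C1` with `e0 ≥ q ξ / 4 ≥ n^2 / 128`: `dr^(4t+2) ≤ C2 n^(3t+4) / n^(2t+3) = C2 n^(t+1)`,
`C2 = 256 * 64^(2t+1) * 2^(4t+2) * (C1 + 1)`, so `dr ≤ C2' n^((t+1)/(4t+2))` with `C2' = C2^(1/(4t+2)) ≥ 1`. Then `q ξ < 16 ρ (dr + 1) ≤ 32 ρ C2' n^((t+1)/(4t+2))`
and `n^2 / 32 ≤ q ξ`: `n^2 ≤ 1024 C2' ρ n^((t+1)/(4t+2))`. Divide (`Real.rpow_sub`).
-/

namespace Pool.Agent.Lib.LocD

theorem numeric_Ba (t k : ℕ) : ∃ K : ℝ, 1 ≤ K ∧ ∃ n0 : ℕ, ∀ n q ξ ρ e0 : ℕ, n0 ≤ n → n ≤ 16 * q → q ≤ n → n ≤ 2 * ξ → ξ ≤ n →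
    1 ≤ ρ → q * ξ ≤ 4 * e0 →
    (∀ dl dr : ℕ, 2 * (dl * q + dr * ρ) ≤ e0 → 6 * t + 4 ≤ dl → 6 * t + 4 ≤ dr →
      e0 * ((dl - (6 * t + 4)) ^ (2 * t + 1) * (dr - (6 * t + 4)) ^ (4 * t + 2)) ≤
        2 * ξ * (q ^ (3 * t + 3) * (k + k ^ 2) ^ (6 * t + 4))) →
    (n : ℝ) ^ (2 - ((t : ℝ) + 1) / (4 * t + 2)) ≤ K * ρ := by
  obtain ⟨C1, hC1⟩ : ∃ C1 : ℕ, C1 = (k + k ^ 2) ^ (6 * t + 4) := ⟨_, rfl⟩
  obtain ⟨N, hN⟩ : ∃ N : ℕ, N = 6 * t + 4 := ⟨_, rfl⟩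
  obtain ⟨C2, hC2⟩ : ∃ C2 : ℝ, C2 = 256 * 64 ^ (2 * t + 1) * 2 ^ (4 * t + 2) * ((C1 : ℝ) + 1) :=
    ⟨_, rfl⟩
  have hC21 : 1 ≤ C2 := by
    have e1 : (1 : ℝ) ≤ 64 ^ (2 * t + 1) := one_le_pow₀ (by norm_num)
    have e2 : (1 : ℝ) ≤ 2 ^ (4 * t + 2) := one_le_pow₀ (by norm_num)
    have e3 : (1 : ℝ) ≤ (C1 : ℝ) + 1 := by
      have : (0 : ℝ) ≤ (C1 : ℝ) := Nat.cast_nonneg _
      linarith
    have e4 : (1 : ℝ) ≤ 256 * 64 ^ (2 * t + 1) := by linarith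
    have e5 : (1 : ℝ) ≤ 256 * 64 ^ (2 * t + 1) * 2 ^ (4 * t + 2) := one_le_mul_of_one_le_of_one_le e4 e2
    rw [hC2]
    exact one_le_mul_of_one_le_of_one_le e5 e3
  refine ⟨1024 * C2 + 1024 * N, ?_, 64 * (N + 1), ?_⟩
  · have : (0 : ℝ) ≤ (N : ℝ) := Nat.cast_nonneg _
    linarith
  intro n q ξ ρ e0 hn h1 h2 h3 h4 hρ he H
  have hn1 : 1 ≤ n := by omega
  have hnR : (1 : ℝ) ≤ n := by exact_mod_cast hn1
  have hn0 : (0 : ℝ) < n := by linarith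
  have hρR : (1 : ℝ) ≤ ρ := by exact_mod_cast hρ
  have hNR : (0 : ℝ) ≤ (N : ℝ) := Nat.cast_nonneg _
  have hα0 : 0 ≤ ((t : ℝ) + 1) / (4 * t + 2) := by positivity
  have hnn : n * n ≤ 32 * (q * ξ) := by
    calc n * n ≤ (16 * q) * (2 * ξ) := Nat.mul_le_mul h1 h3
      _ = 32 * (q * ξ) := by ring
  have hdl : 16 * (ξ / 16) ≤ ξ := Nat.mul_div_le _ _
  have hdr : 16 * ρ * (q * ξ / (16 * ρ)) ≤ q * ξ := Nat.mul_div_le _ _
  have hdr2 : q * ξ < 16 * ρ * (q * ξ / (16 * ρ) + 1) := by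
    have := Nat.lt_mul_div_succ (q * ξ) (show 0 < 16 * ρ by omega)
    simpa [Nat.mul_comm] using this
  obtain ⟨dl, hdle⟩ : ∃ dl, dl = ξ / 16 := ⟨_, rfl⟩
  obtain ⟨dr, hdre⟩ : ∃ dr, dr = q * ξ / (16 * ρ) := ⟨_, rfl⟩
  rw [← hdle] at hdl
  rw [← hdre] at hdr hdr2
  have hbud : 2 * (dl * q + dr * ρ) ≤ e0 := by
    have a1 : 16 * (dl * q) ≤ q * ξ := by
      calc 16 * (dl * q) = q * (16 * dl) := by ring
        _ ≤ q * ξ := Nat.mul_le_mul_left _ hdl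
    have a2 : 16 * (dr * ρ) ≤ q * ξ := by
      calc 16 * (dr * ρ) = 16 * ρ * dr := by ring
        _ ≤ q * ξ := hdr
    omega
  have hdlN : N ≤ dl := by omega
  have hdlR : (n : ℝ) / 64 ≤ ((dl - N : ℕ) : ℝ) := by
    rw [div_le_iff₀ (by norm_num)]
    have : n ≤ (dl - N) * 64 := by omega
    exact_mod_cast this
  by_cases hcase : dr < 2 * N
  · have b1 : q * ξ ≤ 32 * (N * ρ) := by
      have : 16 * ρ * (dr + 1) ≤ 16 * ρ * (2 * N) := Nat.mul_le_mul_left _ (by omega)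
      calc q * ξ ≤ 16 * ρ * (dr + 1) := hdr2.le
        _ ≤ 16 * ρ * (2 * N) := this
        _ = 32 * (N * ρ) := by ring
    have b2 : n * n ≤ 1024 * (N * ρ) := by omega
    have b3 : (n : ℝ) ^ (2 : ℕ) ≤ 1024 * (N * ρ) := by
      rw [pow_two]
      exact_mod_cast b2
    have b4 : (n : ℝ) ^ (2 - ((t : ℝ) + 1) / (4 * t + 2)) ≤ (n : ℝ) ^ (2 : ℕ) := by
      rw [← Real.rpow_natCast]
      apply Real.rpow_le_rpow_of_exponent_le hnR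
      push_cast
      linarith
    have b5 : 0 ≤ C2 * ρ := by positivity
    nlinarith
  · push Not at hcase
    have hdrN : N ≤ dr := by omega
    have hdrR : (dr : ℝ) / 2 ≤ ((dr - N : ℕ) : ℝ) := by
      rw [div_le_iff₀ (by norm_num)]
      have : dr ≤ (dr - N) * 2 := by omega
      exact_mod_cast this
    have hH := H dl dr hbud (hN ▸ hdlN) (hN ▸ hdrN)
    rw [← hC1, ← hN] at hH
    have hHR : (e0 : ℝ) * (((dl - N : ℕ) : ℝ) ^ (2 * t + 1) * ((dr - N : ℕ) : ℝ) ^ (4 * t + 2)) ≤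
        2 * ξ * ((q : ℝ) ^ (3 * t + 3) * C1) := by exact_mod_cast hH
    have c1 : (n : ℝ) ^ 2 / 128 ≤ e0 := by
      rw [div_le_iff₀ (by norm_num), pow_two]
      have : n * n ≤ e0 * 128 := by omega
      exact_mod_cast this
    have c2 : ((n : ℝ) / 64) ^ (2 * t + 1) ≤ ((dl - N : ℕ) : ℝ) ^ (2 * t + 1) :=
      pow_le_pow_left₀ (by positivity) hdlR _
    have c3 : ((dr : ℝ) / 2) ^ (4 * t + 2) ≤ ((dr - N : ℕ) : ℝ) ^ (4 * t + 2) :=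
      pow_le_pow_left₀ (by positivity) hdrR _
    have c4 : 2 * (ξ : ℝ) * ((q : ℝ) ^ (3 * t + 3) * C1) ≤ 2 * n * ((n : ℝ) ^ (3 * t + 3) * (C1 + 1)) := by
      have d1 : (ξ : ℝ) ≤ n := by exact_mod_cast h4
      have d2 : (q : ℝ) ≤ n := by exact_mod_cast h2
      gcongr
      linarith
    have c5 : (n : ℝ) ^ 2 / 128 * (((n : ℝ) / 64) ^ (2 * t + 1) * ((dr : ℝ) / 2) ^ (4 * t + 2)) ≤
        2 * n * ((n : ℝ) ^ (3 * t + 3) * (C1 + 1)) := by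
      refine le_trans ?_ (hHR.trans c4)
      gcongr
    have c6 : (dr : ℝ) ^ (4 * t + 2) ≤ C2 * (n : ℝ) ^ (t + 1) := by
      have hP : (0 : ℝ) < (n : ℝ) ^ (2 * t + 3) := by positivity
      have e1 : (n : ℝ) ^ (2 * t + 3) * (dr : ℝ) ^ (4 * t + 2) ≤
          (n : ℝ) ^ (2 * t + 3) * (C2 * (n : ℝ) ^ (t + 1)) := by
        have e2 : (n : ℝ) ^ (2 * t + 3) * (dr : ℝ) ^ (4 * t + 2) =
            128 * 64 ^ (2 * t + 1) * 2 ^ (4 * t + 2) *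
              ((n : ℝ) ^ 2 / 128 * (((n : ℝ) / 64) ^ (2 * t + 1) * ((dr : ℝ) / 2) ^ (4 * t + 2))) := by
          rw [div_pow, div_pow]
          have f1 : (64 : ℝ) ^ (2 * t + 1) ≠ 0 := by positivity
          have f2 : (2 : ℝ) ^ (4 * t + 2) ≠ 0 := by positivity
          field_simp
          ring
        rw [e2]
        have e3 : (n : ℝ) ^ (2 * t + 3) * (C2 * (n : ℝ) ^ (t + 1)) =
            128 * 64 ^ (2 * t + 1) * 2 ^ (4 * t + 2) * (2 * n * ((n : ℝ) ^ (3 * t + 3) * (C1 + 1))) := by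
          rw [hC2]
          ring
        rw [e3]
        exact mul_le_mul_of_nonneg_left c5 (by positivity)
      exact le_of_mul_le_mul_left e1 hP
    have hdr1 : 1 ≤ dr := by omega
    obtain ⟨y, hy⟩ : ∃ y : ℝ, y = (n : ℝ) ^ 2 / (1024 * ρ) := ⟨_, rfl⟩
    have hy0 : 0 ≤ y := by rw [hy]; positivity
    have hyd : y ≤ dr := by
      rw [hy, div_le_iff₀ (by positivity), pow_two]
      have g1 : n * n ≤ dr * (1024 * ρ) := by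
        have g2 : 16 * ρ * (dr + 1) ≤ 16 * ρ * (2 * dr) := Nat.mul_le_mul_left _ (by omega)
        have g3 : 16 * ρ * (2 * dr) = 32 * (ρ * dr) := by ring
        have g4 : dr * (1024 * ρ) = 1024 * (ρ * dr) := by ring
        omega
      exact_mod_cast g1
    have hyM : y ^ (4 * t + 2) ≤ C2 * (n : ℝ) ^ (t + 1) :=
      (pow_le_pow_left₀ hy0 hyd _).trans c6
    have hyr : y ≤ C2 * (n : ℝ) ^ (((t : ℝ) + 1) / (4 * t + 2)) := by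
      have hM : ((4 * t + 2 : ℕ) : ℝ) = 4 * t + 2 := by push_cast; ring
      have hMpos : (0 : ℝ) < 4 * t + 2 := by positivity
      have k1 : y = (y ^ (4 * t + 2)) ^ ((1 : ℝ) / (4 * t + 2)) := by
        rw [← Real.rpow_natCast, ← Real.rpow_mul hy0, hM, mul_one_div_cancel hMpos.ne', Real.rpow_one]
      rw [k1]
      refine (Real.rpow_le_rpow (by positivity) hyM (by positivity)).trans ?_
      rw [Real.mul_rpow (by linarith) (by positivity)]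
      have k2 : ((n : ℝ) ^ (t + 1)) ^ ((1 : ℝ) / (4 * t + 2)) =
          (n : ℝ) ^ (((t : ℝ) + 1) / (4 * t + 2)) := by
        rw [← Real.rpow_natCast, ← Real.rpow_mul hn0.le]
        congr 1
        push_cast
        ring
      rw [k2]
      have k3 : C2 ^ ((1 : ℝ) / (4 * t + 2)) ≤ C2 := by
        conv_rhs => rw [← Real.rpow_one C2]
        apply Real.rpow_le_rpow_of_exponent_le hC21
        rw [div_le_one hMpos]
        have : (0 : ℝ) ≤ t := Nat.cast_nonneg _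
        linarith
      exact mul_le_mul_of_nonneg_right k3 (by positivity)
    have hfin : (n : ℝ) ^ (2 - ((t : ℝ) + 1) / (4 * t + 2)) ≤ 1024 * C2 * ρ := by
      rw [Real.rpow_sub hn0, div_le_iff₀ (by positivity)]
      have m1 : (n : ℝ) ^ (2 : ℝ) = 1024 * ρ * y := by
        rw [hy, Real.rpow_two]
        field_simp
      rw [m1]
      calc 1024 * (ρ : ℝ) * y ≤ 1024 * ρ * (C2 * (n : ℝ) ^ (((t : ℝ) + 1) / (4 * t + 2))) :=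
            mul_le_mul_of_nonneg_left hyr (by positivity)
        _ = _ := by ring
    have hlast : 0 ≤ 1024 * (N : ℝ) * ρ := by positivity
    nlinarith

end Pool.Agent.Lib.LocD
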