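import Mathlib

/-!
# LocD.BNb: second numerical end of Theorem B

PROOF. `a = 2 - (t+1)/(4t+2) = 7/4 - 1/(8t+4)`. `n^a ≤ K ρ ≤ K D (2 w + 1) ≤ K (60 D^2 log n / √n + 3 D)`. Either `n^a ≤ 6 K D`, so `D ≥ n^a / (6K)` and `a ≥ 3/2 ≥ 9/8 - ε`
(`t ≥ 0`: `a ≥ 7/4 - 1/4`); or `n^(a + 1/2) ≤ 120 K D^2 log n`, `D ≥ n^(a/2 + 1/4) / √(120 K log n)`, `a/2 + 1/4 = 9/8 - 1/(16t+8)`, and `√(log n) ≤ C n^(ε - 1/(16t+8))`
(`Real.log_le_rpow_div`: `log n ≤ n^δ / δ` with `δ = 2 (ε - 1/(16t+8)) > 0`).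
-/

namespace Pool.Agent.Lib.LocD

theorem numeric_Bb (t : ℕ) (K ε : ℝ) (hK : 1 ≤ K) (hε : 1 / (16 * (t : ℝ) + 8) < ε) : ∃ c : ℝ, 0 < c ∧ ∀ n D w ρ : ℕ, 10000 ≤ n →
    (w : ℝ) ≤ 30 * D * Real.log n / Real.sqrt n + 1 → ρ ≤ D * (2 * w + 1) →
    (n : ℝ) ^ (2 - ((t : ℝ) + 1) / (4 * t + 2)) ≤ K * ρ → c * (n : ℝ) ^ (9 / 8 - ε) ≤ D := by
  have ht : (0 : ℝ) ≤ t := Nat.cast_nonneg t
  have hK0 : 0 < K := by linarith
  obtain ⟨δ, hδ⟩ : ∃ δ, δ = 2 * (ε - 1 / (16 * (t : ℝ) + 8)) := ⟨_, rfl⟩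
  have hδ0 : 0 < δ := by
    rw [hδ]
    linarith
  have hε0 : 0 < ε := lt_trans (by positivity) hε
  obtain ⟨a, ha⟩ : ∃ a, a = 2 - ((t : ℝ) + 1) / (4 * t + 2) := ⟨_, rfl⟩
  have ha1 : 9 / 8 - ε ≤ a := by
    have h1 : ((t : ℝ) + 1) / (4 * t + 2) ≤ 1 / 2 := by
      rw [div_le_div_iff₀ (by positivity) (by norm_num)]
      linarith
    rw [ha]
    linarith
  have ha2 : a + 1 / 2 - δ = (9 / 8 - ε) + (9 / 8 - ε) := by
    rw [ha, hδ]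
    have h1 : (16 * (t : ℝ) + 8) ≠ 0 := by positivity
    have h2 : (4 * (t : ℝ) + 2) ≠ 0 := by positivity
    field_simp
    ring
  obtain ⟨e, he⟩ : ∃ e, e = δ / (120 * K) := ⟨_, rfl⟩
  have he0 : 0 < e := by
    rw [he]
    positivity
  refine ⟨min (1 / (6 * K)) (Real.sqrt e), lt_min (by positivity) (Real.sqrt_pos.2 he0), ?_⟩
  intro n D w ρ hn hw hρ hmain
  rw [← ha] at hmain
  have hn' : (10000 : ℝ) ≤ n := by exact_mod_cast hn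
  have hn0 : (0 : ℝ) < n := by linarith
  have hn1 : (1 : ℝ) ≤ n := by linarith
  have hs0 : 0 < Real.sqrt n := Real.sqrt_pos.2 hn0
  have hL0 : 0 < Real.log n := Real.log_pos (by linarith)
  have hD0 : (0 : ℝ) ≤ D := Nat.cast_nonneg D
  have hρ' : (ρ : ℝ) ≤ D * (2 * w + 1) := by exact_mod_cast hρ
  set y : ℝ := (n : ℝ) ^ (9 / 8 - ε) with hy
  have hy0 : 0 < y := Real.rpow_pos_of_pos hn0 _
  have h1 : (n : ℝ) ^ a ≤ 60 * K * (D : ℝ) ^ 2 * Real.log n / Real.sqrt n + 3 * K * D := by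
    have h2 : (D : ℝ) * (2 * w + 1) ≤ D * (2 * (30 * D * Real.log n / Real.sqrt n + 1) + 1) :=
      mul_le_mul_of_nonneg_left (by linarith) hD0
    have h3 : K * (ρ : ℝ) ≤ K * (D * (2 * (30 * D * Real.log n / Real.sqrt n + 1) + 1)) :=
      mul_le_mul_of_nonneg_left (hρ'.trans h2) hK0.le
    refine hmain.trans (h3.trans (le_of_eq ?_))
    field_simp
    ring
  by_cases hc : (n : ℝ) ^ a ≤ 6 * K * D
  · have h2 : y ≤ (n : ℝ) ^ a := Real.rpow_le_rpow_of_exponent_le hn1 ha1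
    have h3 : min (1 / (6 * K)) (Real.sqrt e) * y ≤ 1 / (6 * K) * y :=
      mul_le_mul_of_nonneg_right (min_le_left _ _) hy0.le
    refine h3.trans ?_
    rw [div_mul_eq_mul_div, one_mul, div_le_iff₀ (by positivity)]
    linarith
  · push Not at hc
    have h2 : (n : ℝ) ^ a < 120 * K * (D : ℝ) ^ 2 * Real.log n / Real.sqrt n := by
      have h3 : 120 * K * (D : ℝ) ^ 2 * Real.log n / Real.sqrt n =
          2 * (60 * K * (D : ℝ) ^ 2 * Real.log n / Real.sqrt n) := by ring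
      rw [h3]
      linarith
    rw [lt_div_iff₀ hs0, Real.sqrt_eq_rpow, ← Real.rpow_add hn0] at h2
    have h3 : Real.log n ≤ (n : ℝ) ^ δ / δ := Real.log_le_rpow_div hn0.le hδ0
    have h4 : 120 * K * (D : ℝ) ^ 2 * Real.log n ≤ 120 * K * (D : ℝ) ^ 2 * ((n : ℝ) ^ δ / δ) :=
      mul_le_mul_of_nonneg_left h3 (by positivity)
    have h5 : y * y = (n : ℝ) ^ (a + 1 / 2) / (n : ℝ) ^ δ := by
      rw [← Real.rpow_sub hn0, ha2, Real.rpow_add hn0]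
    have hnδ : 0 < (n : ℝ) ^ δ := Real.rpow_pos_of_pos hn0 _
    have h6 : e * (y * y) ≤ (D : ℝ) ^ 2 := by
      rw [h5, he, div_mul_div_comm, div_le_iff₀ (by positivity)]
      have h7 : (n : ℝ) ^ (a + 1 / 2) * δ ≤ 120 * K * (D : ℝ) ^ 2 * (n : ℝ) ^ δ := by
        have h8 := (h2.le.trans h4)
        rw [mul_div_assoc', le_div_iff₀ hδ0] at h8
        exact h8
      linarith
    have h7 : min (1 / (6 * K)) (Real.sqrt e) * y ≤ Real.sqrt e * y :=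
      mul_le_mul_of_nonneg_right (min_le_right _ _) hy0.le
    refine h7.trans ?_
    refine le_of_sq_le_sq ?_ hD0
    rw [mul_pow, Real.sq_sqrt he0.le, pow_two y]
    exact h6

end Pool.Agent.Lib.LocD
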