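import Pool.Agent.Lib.LocD.Defs

/-!
# LocD.BDefs: the cubic caterpillar tree and its copies

The tree `T_t` has the vertices `0, ..., 6 t + 3`; `par i` is the parent of `i ≥ 1`. Vertex 1 is a right vertex with the neighbours
`0, 2, 3`; every block `s = 4 + 6 j, ..., s + 5` hangs on the last vertex `s - 1` before it: right vertices `s`, `s+1` with parent `s - 1`, left
vertices `s+2, s+3` with parent `s` and `s+4, s+5` with parent `s + 1`.
-/

namespace Pool.Agent.Lib.LocD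

open Finset

/-- parent function of the caterpillar tree -/
def par (i : ℕ) : ℕ :=
  if i ≤ 1 then 0 else if i ≤ 3 then 1
  else if (i - 4) % 6 ≤ 1 then i - (i - 4) % 6 - 1
  else if (i - 4) % 6 ≤ 3 then i - (i - 4) % 6
  else i - (i - 4) % 6 + 1

/-- right vertices of the caterpillar tree -/
def isR (i : ℕ) : Prop := i = 1 ∨ (4 ≤ i ∧ (i - 4) % 6 ≤ 1)

instance : DecidablePred isR := fun i => by unfold isR; infer_instance

/-- leaves of the tree with `6 t + 4` vertices -/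
def isLf (t i : ℕ) : Prop := i = 0 ∨ i = 2 ∨ (4 ≤ i ∧ 2 ≤ (i - 4) % 6 ∧ (i - 4) % 6 ≤ 4) ∨ i = 6 * t + 3

instance (t : ℕ) : DecidablePred (isLf t) := fun i => by unfold isLf; infer_instance

/-- vertices of the bipartite graph: left `ℕ`, right `ℕ × ℕ` -/
abbrev Vx : Type := ℕ ⊕ (ℕ × ℕ)

/-- the neighbours of a vertex in the bipartite graph with edge set `E` -/
def adj (E : Finset (ℕ × (ℕ × ℕ))) : Vx → Finset Vx
  | Sum.inl i => (E.filter (fun e => e.1 = i)).image (fun e => Sum.inr e.2)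
  | Sum.inr s => (E.filter (fun e => e.2 = s)).image (fun e => Sum.inl e.1)

/-- the edge between two vertices -/
def ed : Vx → Vx → ℕ × (ℕ × ℕ)
  | Sum.inl i, Sum.inr s => (i, s)
  | Sum.inr s, Sum.inl i => (i, s)
  | _, _ => (0, (0, 0))

/-- an injective copy of the tree with `6 t + 4` vertices in the graph with edge set `E`, starting at a left vertex -/
structure IsCopy (E : Finset (ℕ × (ℕ × ℕ))) (t : ℕ) (f : ℕ → Vx) : Prop where
  zero : ∃ i, f 0 = Sum.inl i
  step : ∀ i, 1 ≤ i → i < 6 * t + 4 → f i ∈ adj E (f (par i))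
  inj : ∀ i < 6 * t + 4, ∀ j < 6 * t + 4, f i = f j → i = j
  tail : ∀ i, 6 * t + 4 ≤ i → f i = Sum.inl 0

/-- number of points added by one copy, at most -/
def Mt (t : ℕ) : ℕ := 18 * t + 12

/-- the constant of the excess bound -/
def Ct (t : ℕ) : ℕ := Mt t ^ 2 + (6 * t + 6) * (Mt t + 1)

theorem mem_adj_inl {E : Finset (ℕ × (ℕ × ℕ))} {i : ℕ} {v : Vx} : v ∈ adj E (Sum.inl i) ↔ ∃ s, (i, s) ∈ E ∧ v = Sum.inr s := by
  unfold adj
  constructor
  · intro h
    obtain ⟨e, he, rfl⟩ := mem_image.1 h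
    rw [mem_filter] at he
    exact ⟨e.2, by rw [← he.2]; exact he.1, rfl⟩
  · rintro ⟨s, hs, rfl⟩
    exact mem_image.2 ⟨(i, s), by simp [hs], rfl⟩

theorem mem_adj_inr {E : Finset (ℕ × (ℕ × ℕ))} {s : ℕ × ℕ} {v : Vx} : v ∈ adj E (Sum.inr s) ↔ ∃ i, (i, s) ∈ E ∧ v = Sum.inl i := by
  unfold adj
  constructor
  · intro h
    obtain ⟨e, he, rfl⟩ := mem_image.1 h
    rw [mem_filter] at he
    exact ⟨e.1, by rw [← he.2]; exact he.1, rfl⟩
  · rintro ⟨i, hi, rfl⟩
    exact mem_image.2 ⟨(i, s), by simp [hi], rfl⟩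

end Pool.Agent.Lib.LocD
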