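import Mathlib

/-!
# LocD.C0: pruning with two attributes

PROOF. Same as `LocD.B1` (file B1.lean, copy its private lemma `prune_del`), for a finite set `E` of any type with two attribute maps `f`, `g` instead of
`Prod.fst`, `Prod.snd`: take `E' ∈ E.powerset` maximizing `|E'| - da |E'.image f| - db |E'.image g|` (integers).
-/

namespace Pool.Agent.Lib.LocD

open Finset

private theorem c0_prune_del {γ δ : Type*} [DecidableEq γ] [DecidableEq δ] (E' : Finset γ)
    (f : γ → δ) (e : γ) (he : e ∈ E') (d : ℕ) (hd : (E'.filter (fun e' => f e' = f e)).card < d) :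
    (E'.card : ℤ) - d * (E'.image f).card <
      ((E'.filter (fun e' => ¬ f e' = f e)).card : ℤ) -
        d * ((E'.filter (fun e' => ¬ f e' = f e)).image f).card := by
  have h1 := Finset.card_filter_add_card_filter_not (s := E') (fun e' => f e' = f e)
  have h2 : ((E'.filter (fun e' => ¬ f e' = f e)).image f) ⊆ (E'.image f).erase (f e) := by
    intro x hx
    obtain ⟨y, hy, rfl⟩ := mem_image.mp hx
    rw [mem_filter] at hy
    exact mem_erase.mpr ⟨hy.2, mem_image_of_mem f hy.1⟩
  have h3 := card_le_card h2
  have h4 : ((E'.image f).erase (f e)).card + 1 = (E'.image f).card :=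
    card_erase_add_one (mem_image_of_mem f he)
  have h5 : d * (((E'.filter (fun e' => ¬ f e' = f e)).image f).card + 1) ≤
      d * (E'.image f).card :=
    Nat.mul_le_mul_left d (by omega)
  rw [Nat.mul_succ] at h5
  have h6 : (d : ℤ) * ((E'.filter (fun e' => ¬ f e' = f e)).image f).card + d
      ≤ d * (E'.image f).card := by exact_mod_cast h5
  have h7 : ((E'.filter (fun e' => f e' = f e)).card : ℤ)
      + ((E'.filter (fun e' => ¬ f e' = f e)).card : ℤ) = E'.card := by exact_mod_cast h1
  have h8 : ((E'.filter (fun e' => f e' = f e)).card : ℤ) < d := by exact_mod_cast hd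
  linarith

theorem prune2 {γ α β : Type*} [DecidableEq γ] [DecidableEq α] [DecidableEq β] (E : Finset γ) (f : γ → α) (g : γ → β)
    (L : Finset α) (R : Finset β) (hL : ∀ e ∈ E, f e ∈ L) (hR : ∀ e ∈ E, g e ∈ R) (da db : ℕ)
    (h : 2 * (da * L.card + db * R.card) ≤ E.card) :
    ∃ E' ⊆ E, E.card ≤ 2 * E'.card ∧ (∀ e ∈ E', da ≤ (E'.filter (fun e' => f e' = f e)).card) ∧
      (∀ e ∈ E', db ≤ (E'.filter (fun e' => g e' = g e)).card) := by
  let φ : Finset γ → ℤ := fun F =>
    (F.card : ℤ) - da * (F.image f).card - db * (F.image g).card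
  obtain ⟨E', hE', hmax⟩ := exists_max_image E.powerset φ ⟨E, mem_powerset_self E⟩
  rw [mem_powerset] at hE'
  have hmax' : ∀ F ⊆ E, (F.card : ℤ) - da * (F.image f).card - db * (F.image g).card
      ≤ (E'.card : ℤ) - da * (E'.image f).card - db * (E'.image g).card :=
    fun F hF => hmax F (mem_powerset.mpr hF)
  refine ⟨E', hE', ?_, ?_, ?_⟩
  · have h1 := hmax' E Subset.rfl
    have h2 : (E.image f).card ≤ L.card := card_le_card (fun x hx => by
      obtain ⟨y, hy, rfl⟩ := mem_image.mp hx
      exact hL y hy)
    have h3 : (E.image g).card ≤ R.card := card_le_card (fun x hx => by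
      obtain ⟨y, hy, rfl⟩ := mem_image.mp hx
      exact hR y hy)
    have h4 : (da : ℤ) * (E.image f).card ≤ da * L.card := by
      exact_mod_cast Nat.mul_le_mul_left da h2
    have h5 : (db : ℤ) * (E.image g).card ≤ db * R.card := by
      exact_mod_cast Nat.mul_le_mul_left db h3
    have h6 : (0 : ℤ) ≤ da * (E'.image f).card := by positivity
    have h7 : (0 : ℤ) ≤ db * (E'.image g).card := by positivity
    have h8 : 2 * ((da : ℤ) * L.card + db * R.card) ≤ E.card := by exact_mod_cast h
    have h9 : (E.card : ℤ) ≤ 2 * E'.card := by linarith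
    exact_mod_cast h9
  · intro e he
    by_contra hlt
    push Not at hlt
    have h1 := c0_prune_del E' f e he da hlt
    have h2 := hmax' (E'.filter (fun e' => ¬ f e' = f e)) ((filter_subset _ _).trans hE')
    have h3 : ((E'.filter (fun e' => ¬ f e' = f e)).image g).card ≤ (E'.image g).card :=
      card_le_card (image_subset_image (filter_subset _ _))
    have h4 : (db : ℤ) * ((E'.filter (fun e' => ¬ f e' = f e)).image g).card
        ≤ db * (E'.image g).card := by exact_mod_cast Nat.mul_le_mul_left db h3
    linarith
  · intro e he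
    by_contra hlt
    push Not at hlt
    have h1 := c0_prune_del E' g e he db hlt
    have h2 := hmax' (E'.filter (fun e' => ¬ g e' = g e)) ((filter_subset _ _).trans hE')
    have h3 : ((E'.filter (fun e' => ¬ g e' = g e)).image f).card ≤ (E'.image f).card :=
      card_le_card (image_subset_image (filter_subset _ _))
    have h4 : (da : ℤ) * ((E'.filter (fun e' => ¬ g e' = g e)).image f).card
        ≤ da * (E'.image f).card := by exact_mod_cast Nat.mul_le_mul_left da h3
    linarith

end Pool.Agent.Lib.LocD
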