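import Mathlib

/-!
# LocD.C1: counting sequences built step by step

`C n f` is the set of allowed values at position `n`, it depends only on the values of `f` below `n` (`hC`).

PROOF. As `LocD.B2` (file B2.lean). Induction on `N`. `N = 0`: `H = {fun _ => v0}`. Step: `H' = H.biUnion (fun f => (C N f).image (fun y => Function.update f N y))`.
For `f ∈ H` (so `f j = v0` for `j ≥ N`) the new function agrees with `f` below `N`, so by `hC` all earlier conditions and `y ∈ C N f = C N (update f N y)` hold.
The map `(f, y) ↦ Function.update f N y` is injective on these pairs (value at `N` gives `y`; values elsewhere and `f N = v0` give `f`). `hd` gives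
`|C N f| ≥ d N` (`Finset.card_biUnion`, `Finset.card_image_of_injective`), `Finset.prod_range_succ`.
-/

namespace Pool.Agent.Lib.LocD

open Finset

theorem seq_count {V : Type*} [DecidableEq V] (C : ℕ → (ℕ → V) → Finset V)
    (hC : ∀ n f f', (∀ j < n, f j = f' j) → C n f = C n f') (d : ℕ → ℕ) (v0 : V) (N : ℕ)
    (hd : ∀ n < N, ∀ f : ℕ → V, (∀ j < n, f j ∈ C j f) → d n ≤ (C n f).card) :
    ∃ H : Finset (ℕ → V), ∏ i ∈ range N, d i ≤ H.card ∧
      ∀ f ∈ H, (∀ j < N, f j ∈ C j f) ∧ ∀ j, N ≤ j → f j = v0 := by
  classical
  induction N with
  | zero =>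
    refine ⟨{fun _ => v0}, by simp, ?_⟩
    intro f hf
    rw [mem_singleton] at hf
    subst hf
    exact ⟨fun j hj => absurd hj (Nat.not_lt_zero j), fun _ _ => rfl⟩
  | succ N ih =>
    obtain ⟨H, hH, hHf⟩ := ih (fun n hn => hd n (by omega))
    have hupd : ∀ (f : ℕ → V) (y : V) (j : ℕ), j ≠ N → Function.update f N y j = f j :=
      fun f y j hj => Function.update_of_ne hj _ _
    have hCu : ∀ (f : ℕ → V) (y : V) (j : ℕ), j ≤ N → C j (Function.update f N y) = C j f :=
      fun f y j hj => hC j _ _ (fun i hi => hupd f y i (by omega))
    refine ⟨H.biUnion (fun f => (C N f).image (fun y => Function.update f N y)), ?_, ?_⟩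
    · rw [card_biUnion]
      · have h1 : ∀ f ∈ H, d N ≤ ((C N f).image (fun y => Function.update f N y)).card := by
          intro f hf
          rw [card_image_of_injective]
          · exact hd N (Nat.lt_succ_self N) f (fun j hj => (hHf f hf).1 j hj)
          · intro y y' h
            have := congrFun h N
            simpa using this
        have h7 := card_nsmul_le_sum H _ (d N) h1
        rw [smul_eq_mul] at h7
        refine le_trans ?_ h7
        rw [Finset.prod_range_succ]
        exact Nat.mul_le_mul_right _ hH
      · intro f hf f' hf' hne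
        rw [Function.onFun, disjoint_left]
        intro g hg hg'
        obtain ⟨y, -, rfl⟩ := mem_image.1 hg
        obtain ⟨y', -, h⟩ := mem_image.1 hg'
        apply hne
        funext j
        by_cases hj : j = N
        · subst hj
          rw [(hHf f hf).2 j le_rfl, (hHf f' hf').2 j le_rfl]
        · have := congrFun h j
          rw [hupd _ _ _ hj, hupd _ _ _ hj] at this
          exact this.symm
    · intro g hg
      obtain ⟨f, hf, hg'⟩ := mem_biUnion.1 hg
      obtain ⟨y, hy, rfl⟩ := mem_image.1 hg'
      obtain ⟨h1, h2⟩ := hHf f hf
      refine ⟨?_, ?_⟩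
      · intro j hj
        rw [hCu f y j (by omega)]
        by_cases hjN : j = N
        · subst hjN
          rw [Function.update_self]
          exact hy
        · rw [hupd _ _ _ hjN]
          exact h1 j (by omega)
      · intro j hj
        rw [hupd _ _ _ (by omega)]
        exact h2 j (by omega)

end Pool.Agent.Lib.LocD
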