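import Pool.Agent.Lib.LocD.CDefs
import Pool.Agent.Lib.LocD.C1

/-!
# LocD.C2: the number of walks

PROOF. `seq_count` with `V = Pl × Pl`, `v0 = (0, 0)`, `N = 2 m` and `C 0 f = O`, `C (2j+1) f = {e ∈ O | dist e.1 e.2 = dist (f (2j)).1 (f (2j)).2 and
s(e.1, e.2) ≠ s((f i).1, (f i).2) for all i < 2j+1}`, `C (2j+2) f = {e ∈ O | e.2 = (f (2j+1)).2 and the same for all i < 2j+2}` (define `C n f` by
`if n = 0 then O else if n % 2 = 1 then ... else ...` with `O.filter`; classical decidability). For the lower bounds: the class resp. fibre of the element `f (n-1) ∈ O`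
has at least `b` resp. `a` elements, and for every `i < n` at most the two ordered pairs `f i` and `(f i).swap` are excluded, `2 n ≤ 4 m` in total:
`d 0 = |O|`, `d (2j+1) = b - 4m`, `d (2j+2) = a - 4m`. The product over `range (2m)` is `|O| (b-4m)^m (a-4m)^(m-1)` (induction on `m` for a general function
`d`, or `Finset.prod_range_succ` twice). Every `g ∈ H` is a walk (`inj`: for `i < j < 2m` the pairs differ by the choice at `j`).
-/

namespace Pool.Agent.Lib.LocD

open Finset

/-- the condition on the choice at position `n` -/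
private def cnd (n : ℕ) (f : ℕ → Pl × Pl) (e : Pl × Pl) : Prop :=
  (n % 2 = 1 → dist e.1 e.2 = dist (f (n - 1)).1 (f (n - 1)).2) ∧ (n % 2 = 0 → 0 < n → e.2 = (f (n - 1)).2) ∧
    ∀ i < n, s(e.1, e.2) ≠ s((f i).1, (f i).2)

private theorem excl (T : Finset (Pl × Pl)) (n : ℕ) (f : ℕ → Pl × Pl) (S : Finset (Pl × Pl))
    (hS : ∀ e ∈ T, (∀ i < n, s(e.1, e.2) ≠ s((f i).1, (f i).2)) → e ∈ S) : T.card - 2 * n ≤ S.card := by
  classical
  have h1 : T \ (range n).biUnion (fun i => ({f i, (f i).swap} : Finset (Pl × Pl))) ⊆ S := by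
    intro e he
    rw [mem_sdiff] at he
    refine hS e he.1 (fun i hi h => he.2 ?_)
    rw [mem_biUnion]
    refine ⟨i, mem_range.2 hi, ?_⟩
    rw [Sym2.eq_iff] at h
    rw [mem_insert, mem_singleton]
    rcases h with h | h
    · left
      exact Prod.ext h.1 h.2
    · right
      exact Prod.ext h.1 h.2
  have h2 : ((range n).biUnion (fun i => ({f i, (f i).swap} : Finset (Pl × Pl)))).card ≤ n * 2 := by
    have := card_biUnion_le_card_mul (range n) (fun i => ({f i, (f i).swap} : Finset (Pl × Pl))) 2
      (fun i _ => card_le_two)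
    rwa [card_range] at this
  have h3 := card_le_card h1
  have h4 := le_card_sdiff ((range n).biUnion (fun i => ({f i, (f i).swap} : Finset (Pl × Pl)))) T
  omega

private theorem prod_d (N A B : ℕ) (k : ℕ) :
    ∏ i ∈ range (2 * (k + 1)), (if i = 0 then N else if i % 2 = 1 then B else A) = N * (B ^ (k + 1) * A ^ k) := by
  induction k with
  | zero => simp [prod_range_succ]
  | succ k ih =>
    have h : 2 * (k + 1 + 1) = 2 * (k + 1) + 1 + 1 := by ring
    rw [h, prod_range_succ, prod_range_succ, ih, if_neg (by omega), if_neg (by omega), if_neg (by omega), if_pos (by omega)]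
    ring

theorem walk_count (O : Finset (Pl × Pl)) (m a b : ℕ) (hm : 1 ≤ m)
    (ha : ∀ e ∈ O, a ≤ (O.filter (fun e' => e'.2 = e.2)).card)
    (hb : ∀ e ∈ O, b ≤ (O.filter (fun e' => dist e'.1 e'.2 = dist e.1 e.2)).card) :
    ∃ H : Finset (ℕ → Pl × Pl), O.card * ((b - 4 * m) ^ m * (a - 4 * m) ^ (m - 1)) ≤ H.card ∧ ∀ g ∈ H, IsWalk O m g := by
  classical
  obtain ⟨H, hH1, hH2⟩ := seq_count (fun n f => O.filter (cnd n f)) (by
      intro n f f' h
      refine filter_congr (fun e _ => ?_)
      unfold cnd
      rcases Nat.eq_zero_or_pos n with h0 | h0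
      · subst h0
        simp
      · rw [h (n - 1) (by omega)]
        refine and_congr_right (fun _ => and_congr_right (fun _ => ?_))
        refine forall_congr' (fun i => ?_)
        refine imp_congr_right (fun hi => ?_)
        rw [h i hi])
    (fun i => if i = 0 then O.card else if i % 2 = 1 then b - 4 * m else a - 4 * m) ((0, 0) : Pl × Pl) (2 * m) (by
      intro n hn f hf
      by_cases h0 : n = 0
      · subst h0
        have : O.filter (cnd 0 f) = O := by
          rw [filter_eq_self]
          intro e _
          unfold cnd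
          simp
        simp [this]
      · have hmem : f (n - 1) ∈ O := (mem_filter.1 (hf (n - 1) (by omega))).1
        by_cases h1 : n % 2 = 1
        · rw [if_neg h0, if_pos h1]
          have h2 := excl (O.filter (fun e' => dist e'.1 e'.2 = dist (f (n - 1)).1 (f (n - 1)).2)) n f (O.filter (cnd n f))
            (by
              intro e he hx
              rw [mem_filter] at he ⊢
              exact ⟨he.1, fun _ => he.2, fun h => absurd h (by omega), hx⟩)
          have h3 := hb _ hmem
          omega
        · rw [if_neg h0, if_neg h1]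
          have h2 := excl (O.filter (fun e' => e'.2 = (f (n - 1)).2)) n f (O.filter (cnd n f))
            (by
              intro e he hx
              rw [mem_filter] at he ⊢
              exact ⟨he.1, fun h => absurd h h1, fun _ _ => he.2, hx⟩)
          have h3 := ha _ hmem
          omega)
  refine ⟨H, ?_, ?_⟩
  · obtain ⟨k, rfl⟩ : ∃ k, m = k + 1 := ⟨m - 1, by omega⟩
    rw [prod_d] at hH1
    simpa using hH1
  · intro g hg
    obtain ⟨h1, h2⟩ := hH2 g hg
    have h3 : ∀ j < 2 * m, g j ∈ O ∧ cnd j g (g j) := fun j hj => mem_filter.1 (h1 j hj)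
    refine ⟨fun j hj => (h3 j hj).1, ?_, ?_, ?_, h2⟩
    · intro j hj
      have h4 := (h3 (2 * j + 1) (by omega)).2.1 (by omega)
      rw [Nat.add_sub_cancel] at h4
      exact h4.symm
    · intro j hj
      have h4 := (h3 (2 * j + 2) (by omega)).2.2.1 (by omega) (by omega)
      exact h4
    · intro i hi j hj h
      rcases lt_trichotomy i j with h4 | h4 | h4
      · exact absurd h.symm ((h3 j hj).2.2.2 i h4)
      · exact h4
      · exact absurd h ((h3 i hi).2.2.2 j h4)

end Pool.Agent.Lib.LocD
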