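import Pool.Agent.Lib.LocD.CDefs
import Pool.Agent.Lib.LocD.C1

/-!
# LocD.C3: the number of root assignments

PROOF. `seq_count` with `V = ℕ`, `v0 = 0`, `N = 4 m + 4`: `C (2l) r = {i < q | (i, sg i (x l)) ∈ E, G.x i (sg i (x l)) = x l, i ≠ r u for all u < 2l}` and
`C (2l+1) r = {i < q | (i, sg (r (2l)) (x l)) ∈ E, i ≠ r u for all u < 2l+1}` (use `n / 2`, `n % 2`). Lower bounds. Even positions: the edges `e ∈ E` with
`G.x e.1 e.2 = x l` inject by `e ↦ e.1` into the first set (before removing used values): `e.2 = sg e.1 (x l)` by `G.ra`, `G.rb` (`e.1 < q`, `e.2 ∈ G.N e.1`),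
so `e.1` determines `e`; there are at least `h`, at most `4m+4` used values. Odd positions: the edges of `E` with second coordinate `s = sg (r (2l)) (x l)`
inject into the set; `(r (2l), s) ∈ E`, so there are at least `dr`. `d (2l) = h - (4m+4)`, `d (2l+1) = dr - (4m+4)`; product
`((h - (4m+4)) * (dr - (4m+4)))^(2m+2)`. For `H`: `GoodRoots.inj` from the avoidance.
-/

namespace Pool.Agent.Lib.LocD

open Finset

open Classical in
/-- the allowed values -/
private noncomputable def rtC {P : Finset Pl} {q : ℕ} (G : Gam P q) (E : Finset (ℕ × (ℕ × ℕ))) (x : ℕ → Pl)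
    (n : ℕ) (r : ℕ → ℕ) : Finset ℕ :=
  if n % 2 = 0 then (range q).filter (fun i => (i, G.sg i (x (n / 2))) ∈ E ∧ G.x i (G.sg i (x (n / 2))) = x (n / 2) ∧
    ∀ u < n, i ≠ r u)
  else (range q).filter (fun i => (i, G.sg (r (n - 1)) (x (n / 2))) ∈ E ∧ ∀ u < n, i ≠ r u)

private theorem rtC_congr {P : Finset Pl} {q : ℕ} (G : Gam P q) (E : Finset (ℕ × (ℕ × ℕ))) (x : ℕ → Pl)
    (n : ℕ) (f f' : ℕ → ℕ) (h : ∀ j < n, f j = f' j) : rtC G E x n f = rtC G E x n f' := by
  have h1 : ∀ i, (∀ u < n, i ≠ f u) ↔ (∀ u < n, i ≠ f' u) := by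
    intro i
    constructor
    · intro hh u hu
      rw [← h u hu]; exact hh u hu
    · intro hh u hu
      rw [h u hu]; exact hh u hu
  unfold rtC
  by_cases hn : n % 2 = 0
  · rw [if_pos hn, if_pos hn]
    ext i
    simp only [mem_filter, h1]
  · rw [if_neg hn, if_neg hn, h (n - 1) (by omega)]
    ext i
    simp only [mem_filter, h1]

private theorem mem_rtC_even {P : Finset Pl} {q : ℕ} (G : Gam P q) (E : Finset (ℕ × (ℕ × ℕ))) (x : ℕ → Pl)
    (l : ℕ) (r : ℕ → ℕ) (i : ℕ) : i ∈ rtC G E x (2 * l) r ↔ i < q ∧ (i, G.sg i (x l)) ∈ E ∧ G.x i (G.sg i (x l)) = x l ∧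
      ∀ u < 2 * l, i ≠ r u := by
  unfold rtC
  rw [if_pos (by omega), show 2 * l / 2 = l by omega]
  simp only [mem_filter, mem_range]

private theorem mem_rtC_odd {P : Finset Pl} {q : ℕ} (G : Gam P q) (E : Finset (ℕ × (ℕ × ℕ))) (x : ℕ → Pl)
    (l : ℕ) (r : ℕ → ℕ) (i : ℕ) : i ∈ rtC G E x (2 * l + 1) r ↔ i < q ∧ (i, G.sg (r (2 * l)) (x l)) ∈ E ∧
      ∀ u < 2 * l + 1, i ≠ r u := by
  unfold rtC
  rw [if_neg (by omega), show (2 * l + 1) / 2 = l by omega, show 2 * l + 1 - 1 = 2 * l by omega]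
  simp only [mem_filter, mem_range]

private theorem rt_card {A C : Finset ℕ} {f : ℕ → ℕ} {n k m : ℕ} (hk : k ≤ A.card) (hn : n ≤ m)
    (h : ∀ i ∈ A, (∀ u < n, i ≠ f u) → i ∈ C) : k - m ≤ C.card := by
  have h1 : A \ (range n).image f ⊆ C := by
    intro i hi
    rw [mem_sdiff, mem_image] at hi
    refine h i hi.1 (fun u hu e => hi.2 ⟨u, mem_range.2 hu, e.symm⟩)
  have h2 := card_le_card h1
  have h3 := le_card_sdiff ((range n).image f) A
  have h4 : ((range n).image f).card ≤ n := card_image_le.trans (by simp)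
  omega

private theorem rt_even {P : Finset Pl} {q : ℕ} (G : Gam P q) (E : Finset (ℕ × (ℕ × ℕ)))
    (hE : ∀ e ∈ E, e.1 < q ∧ e.2 ∈ G.N e.1) (x : ℕ → Pl) (h l m : ℕ) (hl : 2 * l ≤ m)
    [DecidablePred (fun e : ℕ × (ℕ × ℕ) => G.x e.1 e.2 = x l)]
    (hx : h ≤ (E.filter (fun e => G.x e.1 e.2 = x l)).card) (f : ℕ → ℕ) :
    h - m ≤ (rtC G E x (2 * l) f).card := by
  have hsg : ∀ e ∈ E, G.x e.1 e.2 = x l → e.2 = G.sg e.1 (x l) := by
    intro e he h1
    unfold Gam.sg
    rw [← h1, G.ra e.1 (hE e he).1 e.2 (hE e he).2, G.rb e.1 (hE e he).1 e.2 (hE e he).2]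
  have hcard : (E.filter (fun e => G.x e.1 e.2 = x l)).card =
      ((E.filter (fun e => G.x e.1 e.2 = x l)).image Prod.fst).card := by
    refine (card_image_of_injOn ?_).symm
    intro e he e' he' h1
    rw [mem_coe, mem_filter] at he he'
    refine Prod.ext h1 ?_
    rw [hsg e he.1 he.2, hsg e' he'.1 he'.2, h1]
  rw [hcard] at hx
  refine rt_card (f := f) hx hl ?_
  intro i hi hu
  obtain ⟨e, he, rfl⟩ := mem_image.1 hi
  rw [mem_filter] at he
  rw [mem_rtC_even]
  refine ⟨(hE e he.1).1, ?_, ?_, hu⟩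
  · rw [← hsg e he.1 he.2]; exact he.1
  · rw [← hsg e he.1 he.2]; exact he.2

private theorem rt_odd {P : Finset Pl} {q : ℕ} (G : Gam P q) (E : Finset (ℕ × (ℕ × ℕ)))
    (hE : ∀ e ∈ E, e.1 < q ∧ e.2 ∈ G.N e.1) (x : ℕ → Pl) (dr l m : ℕ) (hl : 2 * l + 1 ≤ m)
    (hr : ∀ e ∈ E, dr ≤ (E.filter (fun e' => e'.2 = e.2)).card) (f : ℕ → ℕ)
    (hf : (f (2 * l), G.sg (f (2 * l)) (x l)) ∈ E) :
    dr - m ≤ (rtC G E x (2 * l + 1) f).card := by
  have h0 := hr _ hf
  have hcard : (E.filter (fun e' => e'.2 = G.sg (f (2 * l)) (x l))).card =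
      ((E.filter (fun e' => e'.2 = G.sg (f (2 * l)) (x l))).image Prod.fst).card := by
    refine (card_image_of_injOn ?_).symm
    intro e he e' he' h1
    rw [mem_coe, mem_filter] at he he'
    exact Prod.ext h1 (he.2.trans he'.2.symm)
  have h1 : dr ≤ ((E.filter (fun e' => e'.2 = G.sg (f (2 * l)) (x l))).image Prod.fst).card := by
    rw [← hcard]; exact h0
  refine rt_card (f := f) h1 hl ?_
  intro i hi hu
  obtain ⟨e, he, rfl⟩ := mem_image.1 hi
  rw [mem_filter] at he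
  rw [mem_rtC_odd]
  refine ⟨(hE e he.1).1, ?_, hu⟩
  rw [← he.2]; exact he.1

private theorem rt_prod (a b k : ℕ) (d : ℕ → ℕ) (h0 : ∀ l < k, d (2 * l) = a) (h1 : ∀ l < k, d (2 * l + 1) = b) :
    ∏ i ∈ range (2 * k), d i = (a * b) ^ k := by
  induction k with
  | zero => simp
  | succ k ih =>
    rw [show 2 * (k + 1) = 2 * k + 1 + 1 by ring, prod_range_succ, prod_range_succ,
      ih (fun l hl => h0 l (by omega)) (fun l hl => h1 l (by omega)), h0 k (by omega), h1 k (by omega)]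
    ring

theorem Gam.roots_count {P : Finset Pl} {q : ℕ} (G : Gam P q) (E : Finset (ℕ × (ℕ × ℕ)))
    (hE : ∀ e ∈ E, e.1 < q ∧ e.2 ∈ G.N e.1) (m h dr : ℕ) (x : ℕ → Pl)
    (hx : ∀ l < 2 * m + 2, h ≤ (E.filter (fun e => G.x e.1 e.2 = x l)).card)
    (hr : ∀ e ∈ E, dr ≤ (E.filter (fun e' => e'.2 = e.2)).card) :
    ∃ H : Finset (ℕ → ℕ), ((h - (4 * m + 4)) * (dr - (4 * m + 4))) ^ (2 * m + 2) ≤ H.card ∧
      ∀ r ∈ H, GoodRoots G E m x r := by
  classical
  obtain ⟨H, hH, hr2⟩ := seq_count (rtC G E x) (fun n f f' hh => rtC_congr G E x n f f' hh)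
    (fun n => if n % 2 = 0 then h - (4 * m + 4) else dr - (4 * m + 4)) 0 (4 * m + 4) (by
      intro n hn f hf
      rcases Nat.even_or_odd' n with ⟨l, rfl | rfl⟩
      · have h1 : (if 2 * l % 2 = 0 then h - (4 * m + 4) else dr - (4 * m + 4)) = h - (4 * m + 4) := if_pos (by omega)
        simp only [h1]
        exact rt_even G E hE x h l (4 * m + 4) (by omega) (hx l (by omega)) f
      · have h1 : (if (2 * l + 1) % 2 = 0 then h - (4 * m + 4) else dr - (4 * m + 4)) = dr - (4 * m + 4) :=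
          if_neg (by omega)
        simp only [h1]
        refine rt_odd G E hE x dr l (4 * m + 4) (by omega) hr f ?_
        have h2 := hf (2 * l) (by omega)
        rw [mem_rtC_even] at h2
        exact h2.2.1)
  refine ⟨H, ?_, ?_⟩
  · refine le_trans (le_of_eq ?_) hH
    rw [show 4 * m + 4 = 2 * (2 * m + 2) by ring, rt_prod (h - 2 * (2 * m + 2)) (dr - 2 * (2 * m + 2)) (2 * m + 2)]
    · intro l _
      exact if_pos (by omega)
    · intro l _
      exact if_neg (by omega)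
  · intro r hrH
    obtain ⟨h1, h2⟩ := hr2 r hrH
    have hav : ∀ n < 4 * m + 4, ∀ u < n, r n ≠ r u := by
      intro n hn u hu
      have h3 := h1 n hn
      rcases Nat.even_or_odd' n with ⟨l, rfl | rfl⟩
      · rw [mem_rtC_even] at h3
        exact h3.2.2.2 u hu
      · rw [mem_rtC_odd] at h3
        exact h3.2.2 u hu
    refine ⟨?_, ?_, ?_, ?_, h2⟩
    · intro u hu v hv huv
      rcases lt_trichotomy u v with h4 | h4 | h4
      · exact absurd huv.symm (hav v hv u h4)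
      · exact h4
      · exact absurd huv (hav u hu v h4)
    · intro l hl
      exact ((mem_rtC_even G E x l r _).1 (h1 (2 * l) (by omega))).2.1
    · intro l hl
      exact ((mem_rtC_even G E x l r _).1 (h1 (2 * l) (by omega))).2.2.1
    · intro l hl
      exact ((mem_rtC_odd G E x l r _).1 (h1 (2 * l + 1) (by omega))).2.1

end Pool.Agent.Lib.LocD
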