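import Pool.Agent.Lib.LocD.E0

/-!
# LocD.C4: adding points that carry coincidences

`e κ`, `f κ` (`κ ∈ K`) are pairs of points of `W'` with equal lengths; all these `2 |K|` unordered pairs are different; `Kn` is a set of `κ` such that `e κ` or `f κ` is
not inside `W`.

PROOF. Let `pairs S = S.offDiag.image (fun p => s(p.1, p.2))` (`card = S.card.choose 2`, `Sym2.card_image_offDiag`) and `δ : Sym2 Pl → ℝ` the length
(`Sym2.lift ⟨dist, dist_comm⟩`), so `distSet S = (pairs S).image δ`. For `κ ∈ Kn` let `c κ` be that one of `e κ`, `f κ` which is not in `pairs W` (`e κ` if it is not, otherwise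
`f κ`): an element of `NP = pairs W' \ pairs W`. The `c κ` are different. The partner of `c κ` has the same length and is in `pairs W` or in `NP \ c(Kn)` (all pairs are different).
So `distSet W' ⊆ distSet W ∪ (NP \ c(Kn)).image δ`, hence `numDist W' ≤ numDist W + |NP| - |Kn|`, and `|NP| = C(|W'|,2) - C(|W|,2)`.
-/

namespace Pool.Agent.Lib.LocD

open Finset

private noncomputable def c4d : Sym2 Pl → ℝ := Sym2.lift ⟨fun a b => dist a b, dist_comm⟩

private theorem c4d_mk (a b : Pl) : c4d s(a, b) = dist a b := rfl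

open Classical in
private noncomputable def c4p (S : Finset Pl) : Finset (Sym2 Pl) :=
  S.offDiag.image (fun p => s(p.1, p.2))

private theorem c4p_card (S : Finset Pl) : (c4p S).card = S.card.choose 2 := by
  classical
  unfold c4p
  have h := Sym2.card_image_offDiag S
  have e : (fun p : Pl × Pl => s(p.1, p.2)) = Function.uncurry Sym2.mk := by
    funext p
    rfl
  rw [e]
  convert h using 2

private theorem c4p_mk {S : Finset Pl} {a b : Pl} (ha : a ∈ S) (hb : b ∈ S) (hab : a ≠ b) :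
    s(a, b) ∈ c4p S := by
  classical
  unfold c4p
  exact mem_image.2 ⟨(a, b), mem_offDiag.2 ⟨ha, hb, hab⟩, rfl⟩

private theorem c4p_mem {S : Finset Pl} {a b : Pl} (h : s(a, b) ∈ c4p S) : a ∈ S ∧ b ∈ S := by
  classical
  unfold c4p at h
  obtain ⟨p, hp, hq⟩ := mem_image.1 h
  rw [mem_offDiag] at hp
  rcases Sym2.eq_iff.1 hq with ⟨h1, h2⟩ | ⟨h1, h2⟩
  · rw [← h1, ← h2]
    exact ⟨hp.1, hp.2.1⟩
  · rw [← h1, ← h2]
    exact ⟨hp.2.1, hp.1⟩

private theorem c4p_dist {S : Finset Pl} {q : Sym2 Pl} (h : q ∈ c4p S) : c4d q ∈ distSet S := by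
  classical
  unfold c4p at h
  obtain ⟨p, hp, rfl⟩ := mem_image.1 h
  rw [mem_offDiag] at hp
  exact mem_distSet hp.1 hp.2.1 hp.2.2

private theorem c4p_mono {S T : Finset Pl} (h : S ⊆ T) : c4p S ⊆ c4p T := by
  classical
  unfold c4p
  exact image_subset_image (offDiag_mono h)

theorem add_coincidences {ι : Type*} [DecidableEq ι] {W W' : Finset Pl} (hW : W ⊆ W') (Kn : Finset ι)
    (e f : ι → Pl × Pl)
    (he : ∀ κ ∈ Kn, e κ ∈ W'.offDiag) (hf : ∀ κ ∈ Kn, f κ ∈ W'.offDiag)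
    (hd : ∀ κ ∈ Kn, dist (e κ).1 (e κ).2 = dist (f κ).1 (f κ).2)
    (hee : ∀ κ ∈ Kn, ∀ κ' ∈ Kn, s((e κ).1, (e κ).2) = s((e κ').1, (e κ').2) → κ = κ')
    (hff : ∀ κ ∈ Kn, ∀ κ' ∈ Kn, s((f κ).1, (f κ).2) = s((f κ').1, (f κ').2) → κ = κ')
    (hef : ∀ κ ∈ Kn, ∀ κ' ∈ Kn, s((e κ).1, (e κ).2) ≠ s((f κ').1, (f κ').2))
    (hn : ∀ κ ∈ Kn, (e κ).1 ∉ W ∨ (e κ).2 ∉ W ∨ (f κ).1 ∉ W ∨ (f κ).2 ∉ W) :
    numDist W' + W.card.choose 2 + Kn.card ≤ numDist W + W'.card.choose 2 := by
  classical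
  set E : ι → Sym2 Pl := fun κ => s((e κ).1, (e κ).2) with hE
  set F : ι → Sym2 Pl := fun κ => s((f κ).1, (f κ).2) with hF
  have hE' : ∀ κ ∈ Kn, E κ ∈ c4p W' := by
    intro κ hκ
    have h := mem_offDiag.1 (he κ hκ)
    exact c4p_mk h.1 h.2.1 h.2.2
  have hF' : ∀ κ ∈ Kn, F κ ∈ c4p W' := by
    intro κ hκ
    have h := mem_offDiag.1 (hf κ hκ)
    exact c4p_mk h.1 h.2.1 h.2.2
  have hEF : ∀ κ ∈ Kn, E κ ∈ c4p W → F κ ∉ c4p W := by
    intro κ hκ h1 h2
    have h3 := c4p_mem h1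
    have h4 := c4p_mem h2
    rcases hn κ hκ with h | h | h | h
    · exact h h3.1
    · exact h h3.2
    · exact h h4.1
    · exact h h4.2
  have hdd : ∀ κ ∈ Kn, c4d (E κ) = c4d (F κ) := fun κ hκ => hd κ hκ
  set NP : Finset (Sym2 Pl) := c4p W' \ c4p W with hNP
  set c : ι → Sym2 Pl := fun κ => if E κ ∈ c4p W then F κ else E κ with hc
  have hcNP : ∀ κ ∈ Kn, c κ ∈ NP := by
    intro κ hκ
    by_cases h : E κ ∈ c4p W
    · have : c κ = F κ := if_pos h
      rw [this]
      exact mem_sdiff.2 ⟨hF' κ hκ, hEF κ hκ h⟩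
    · have : c κ = E κ := if_neg h
      rw [this]
      exact mem_sdiff.2 ⟨hE' κ hκ, h⟩
  have hcinj : Set.InjOn c (Kn : Set ι) := by
    intro κ hκ κ' hκ' h
    have hκ := mem_coe.1 hκ
    have hκ' := mem_coe.1 hκ'
    by_cases h1 : E κ ∈ c4p W
    · have e1 : c κ = F κ := if_pos h1
      by_cases h2 : E κ' ∈ c4p W
      · have e2 : c κ' = F κ' := if_pos h2
        rw [e1, e2] at h
        exact hff κ hκ κ' hκ' h
      · have e2 : c κ' = E κ' := if_neg h2
        rw [e1, e2] at h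
        exact absurd h.symm (hef κ' hκ' κ hκ)
    · have e1 : c κ = E κ := if_neg h1
      by_cases h2 : E κ' ∈ c4p W
      · have e2 : c κ' = F κ' := if_pos h2
        rw [e1, e2] at h
        exact absurd h (hef κ hκ κ' hκ')
      · have e2 : c κ' = E κ' := if_neg h2
        rw [e1, e2] at h
        exact hee κ hκ κ' hκ' h
  have hsub : distSet W' ⊆ distSet W ∪ (NP \ Kn.image c).image c4d := by
    intro r hr
    obtain ⟨p, hp, rfl⟩ := mem_image.1 hr
    have hp' := mem_offDiag.1 hp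
    have hq : s(p.1, p.2) ∈ c4p W' := c4p_mk hp'.1 hp'.2.1 hp'.2.2
    have hr' : dist p.1 p.2 = c4d s(p.1, p.2) := rfl
    rw [mem_union, hr']
    generalize s(p.1, p.2) = q at hq
    by_cases h1 : q ∈ c4p W
    · exact Or.inl (c4p_dist h1)
    by_cases h2 : q ∈ Kn.image c
    · obtain ⟨κ, hκ, rfl⟩ := mem_image.1 h2
      by_cases h3 : E κ ∈ c4p W
      · have e1 : c κ = F κ := if_pos h3
        left
        rw [e1, ← hdd κ hκ]
        exact c4p_dist h3
      · have e1 : c κ = E κ := if_neg h3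
        rw [e1, hdd κ hκ]
        by_cases h4 : F κ ∈ c4p W
        · exact Or.inl (c4p_dist h4)
        · right
          refine mem_image_of_mem _ (mem_sdiff.2 ⟨mem_sdiff.2 ⟨hF' κ hκ, h4⟩, fun h5 => ?_⟩)
          obtain ⟨κ', hκ', h6⟩ := mem_image.1 h5
          by_cases h7 : E κ' ∈ c4p W
          · have e2 : c κ' = F κ' := if_pos h7
            rw [e2] at h6
            have := hff κ' hκ' κ hκ h6
            rw [this] at h7
            exact h3 h7
          · have e2 : c κ' = E κ' := if_neg h7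
            rw [e2] at h6
            exact hef κ' hκ' κ hκ h6
    · exact Or.inr (mem_image_of_mem _ (mem_sdiff.2 ⟨mem_sdiff.2 ⟨hq, h1⟩, h2⟩))
  have h1 : numDist W' ≤ numDist W + (NP \ Kn.image c).card :=
    (card_le_card hsub).trans ((card_union_le _ _).trans (Nat.add_le_add_left card_image_le _))
  have hKN : Kn.image c ⊆ NP := by
    intro q hq
    obtain ⟨κ, hκ, rfl⟩ := mem_image.1 hq
    exact hcNP κ hκ
  have h2 := card_sdiff_add_card_eq_card hKN
  have h3 : (Kn.image c).card = Kn.card := card_image_of_injOn hcinj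
  have h4 := card_sdiff_add_card_eq_card (c4p_mono hW)
  rw [c4p_card, c4p_card] at h4
  rw [← hNP] at h4
  omega

end Pool.Agent.Lib.LocD
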