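import Mathlib

/-!
# LocD.C5: counting lemma for chains

`Sx`, `Sy` ⊆ `{0, ..., 2m+1}`: slots whose point resp. second end of the leg is new; `Sz` ⊆ `{0, ..., m-2}`: new link points; `T` ⊆ `{0, ..., m-1}` the equalities of
the chain that contain a new point: `T` contains `j`, `j+1` for `j ∈ Sz`, and is not empty if `Sx` is not empty.

PROOF. If `Sx ∪ Sz` is not empty then `|T| ≥ |Sz| + 1`: if `Sz = ∅` by `hT2`, otherwise `T ⊇ insert (max Sz + 1) Sz`. And `|Sx| + |Sy| ≤ 2 |Sx ∪ Sy|`.
If `Sx = Sz = ∅` then `2 |Sy| ≥ |Sy| + 1`.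
-/

namespace Pool.Agent.Lib.LocD

open Finset

theorem chain_count (Sx Sy Sz T : Finset ℕ) (h : (Sx ∪ Sy ∪ Sz).Nonempty)
    (hT1 : ∀ j ∈ Sz, j ∈ T ∧ j + 1 ∈ T) (hT2 : Sx.Nonempty → T.Nonempty) :
    Sx.card + Sy.card + Sz.card + 1 ≤ 2 * (Sx ∪ Sy).card + T.card := by
  have hx : Sx.card ≤ (Sx ∪ Sy).card := card_le_card subset_union_left
  have hy : Sy.card ≤ (Sx ∪ Sy).card := card_le_card subset_union_right
  by_cases hz : Sz.Nonempty
  · have h1 : insert (Sz.max' hz + 1) Sz ⊆ T := by
      intro j hj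
      rw [mem_insert] at hj
      rcases hj with rfl | hj
      · exact (hT1 _ (max'_mem Sz hz)).2
      · exact (hT1 _ hj).1
    have h2 : Sz.max' hz + 1 ∉ Sz := by
      intro hm
      have := le_max' Sz _ hm
      omega
    have h3 := card_le_card h1
    rw [card_insert_of_notMem h2] at h3
    omega
  · rw [not_nonempty_iff_eq_empty] at hz
    subst hz
    by_cases hxn : Sx.Nonempty
    · have h1 := card_pos.2 (hT2 hxn)
      simp only [card_empty]
      omega
    · rw [not_nonempty_iff_eq_empty] at hxn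
      subst hxn
      simp only [empty_union, union_empty] at h
      have h1 := card_pos.2 h
      simp only [card_empty, empty_union] at hx hy ⊢
      omega

end Pool.Agent.Lib.LocD
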