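import Pool.Agent.Lib.LocD.CDefs
import Pool.Agent.Lib.LocD.C4
import Pool.Agent.Lib.LocD.C5

/-!
# LocD.C6: one more chain

`Xs` is the set of the possible slot and link points: all of them are `G.x i s` for an edge `(i, s) ∈ E`, so different from all `G.a j`, `G.b j` (`G.ax`, `G.bx`).

PROOF. `x l = xs m g l`, `y l = G.ys x r l`, `z j = (g (2j+1)).2` (`j + 1 < m`). `W' = W ∪ {x l, y l | l < 2m+2} ∪ {z j | j + 1 < m}`; at most `(2m+2) + (2m+2) + (m-1) = 5m+3` new points.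
`W' ⊆ P`: `g j ∈ O`, `hO`, `G.xP`. All end points of the `g j` are in `W'`: `(g j).1 = x j`, `(g 0).2 = x (2m)`, `(g (2m-1)).2 = x (2m+1)`, `(g (2j+1)).2 = (g (2j+2)).2 = z j` for `j + 1 < m`.
Coincidences: index type `ι = ℕ × ℕ`, `(0, l)`: `e = (a (r (2l)), x l)`, `f = (a (r (2l+1)), y l)`; `(1, l)`: the same with `b`; `(2, j)`, `j < m`: `e = g (2j)`, `f = g (2j+1)`.
Equal lengths: `rk (dist (a (r (2l))) (x l)) = (sg ..).1` by definition, `rk (dist (a (r (2l+1))) (y l)) = (sg ..).1` by `G.ra`, and `rk_inj` (both distances are in `distSet P`,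
`mem_distSet`); likewise `b` with `G.rb`; `IsWalk.col`. Different pairs: a leg pair has one end among the `a i`, `b i` and the other end `G.x ..`; the indices `r u` are all different
(`GoodRoots.inj`), `G.ainj`, `G.binj`, `G.ab`; chain pairs have no end among the `a i`, `b i`; chain pairs are different by `IsWalk.inj`.
`Sx = {l < 2m+2 | x l ∉ W}`, `Sy = {l < 2m+2 | y l ∉ W}`, `Sz = {j < m-1 | z j ∉ W}`, `T = {j < m | an end of g (2j) or g (2j+1) is ∉ W}`,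
`Kn = {0} ×ˢ (Sx ∪ Sy) ∪ {1} ×ˢ (Sx ∪ Sy) ∪ {2} ×ˢ T`, `|Kn| = 2 |Sx ∪ Sy| + |T|`. `add_coincidences` and `chain_count`
(`|W' \ W| ≤ |Sx| + |Sy| + |Sz|`; `Sx ∪ Sz` is not empty by `hnew`).
-/

namespace Pool.Agent.Lib.LocD

open Finset

/-- the pairs of points used by one chain -/
private noncomputable def pr (A B p : ℕ → Pl) (g : ℕ → Pl × Pl) (k u : ℕ) : Pl × Pl :=
  if k = 0 then (A u, p u) else if k = 1 then (B u, p u) else g u

private lemma pr_zero (A B p : ℕ → Pl) (g : ℕ → Pl × Pl) (u : ℕ) : pr A B p g 0 u = (A u, p u) := by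
  simp [pr]

private lemma pr_one (A B p : ℕ → Pl) (g : ℕ → Pl × Pl) (u : ℕ) : pr A B p g 1 u = (B u, p u) := by
  simp [pr]

private lemma pr_two (A B p : ℕ → Pl) (g : ℕ → Pl × Pl) (u : ℕ) : pr A B p g 2 u = g u := by
  simp [pr]

private lemma pr_inj (m : ℕ) (A B p : ℕ → Pl) (g : ℕ → Pl × Pl) (X : Set Pl)
    (hA : ∀ u < 4 * m + 4, A u ∉ X) (hB : ∀ u < 4 * m + 4, B u ∉ X)
    (hp : ∀ u < 4 * m + 4, p u ∈ X)
    (hg : ∀ u < 2 * m, (g u).1 ∈ X ∧ (g u).2 ∈ X)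
    (hAA : ∀ u < 4 * m + 4, ∀ v < 4 * m + 4, A u = A v → u = v)
    (hBB : ∀ u < 4 * m + 4, ∀ v < 4 * m + 4, B u = B v → u = v)
    (hAB : ∀ u < 4 * m + 4, ∀ v < 4 * m + 4, A u ≠ B v)
    (hgg : ∀ i < 2 * m, ∀ j < 2 * m, s((g i).1, (g i).2) = s((g j).1, (g j).2) → i = j)
    (k u k' u' : ℕ) (hk : (k = 0 ∧ u < 4 * m + 4) ∨ (k = 1 ∧ u < 4 * m + 4) ∨ (k = 2 ∧ u < 2 * m))
    (hk' : (k' = 0 ∧ u' < 4 * m + 4) ∨ (k' = 1 ∧ u' < 4 * m + 4) ∨ (k' = 2 ∧ u' < 2 * m))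
    (h : s((pr A B p g k u).1, (pr A B p g k u).2) = s((pr A B p g k' u').1, (pr A B p g k' u').2)) :
    k = k' ∧ u = u' := by
  rcases hk with ⟨rfl, hu⟩ | ⟨rfl, hu⟩ | ⟨rfl, hu⟩ <;>
  rcases hk' with ⟨rfl, hu'⟩ | ⟨rfl, hu'⟩ | ⟨rfl, hu'⟩
  · rw [pr_zero, pr_zero, Sym2.eq_iff] at h
    rcases h with ⟨h, -⟩ | ⟨h, -⟩
    · exact ⟨rfl, hAA u hu u' hu' h⟩
    · simp only at h
      exact absurd (h ▸ hp u' hu') (hA u hu)
  · rw [pr_zero, pr_one, Sym2.eq_iff] at h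
    rcases h with ⟨h, -⟩ | ⟨h, -⟩
    · exact absurd h (hAB u hu u' hu')
    · simp only at h
      exact absurd (h ▸ hp u' hu') (hA u hu)
  · rw [pr_zero, pr_two, Sym2.eq_iff] at h
    rcases h with ⟨h, -⟩ | ⟨h, -⟩
    · simp only at h
      exact absurd (h ▸ (hg u' hu').1) (hA u hu)
    · simp only at h
      exact absurd (h ▸ (hg u' hu').2) (hA u hu)
  · rw [pr_one, pr_zero, Sym2.eq_iff] at h
    rcases h with ⟨h, -⟩ | ⟨h, -⟩
    · exact absurd h.symm (hAB u' hu' u hu)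
    · simp only at h
      exact absurd (h ▸ hp u' hu') (hB u hu)
  · rw [pr_one, pr_one, Sym2.eq_iff] at h
    rcases h with ⟨h, -⟩ | ⟨h, -⟩
    · exact ⟨rfl, hBB u hu u' hu' h⟩
    · simp only at h
      exact absurd (h ▸ hp u' hu') (hB u hu)
  · rw [pr_one, pr_two, Sym2.eq_iff] at h
    rcases h with ⟨h, -⟩ | ⟨h, -⟩
    · simp only at h
      exact absurd (h ▸ (hg u' hu').1) (hB u hu)
    · simp only at h
      exact absurd (h ▸ (hg u' hu').2) (hB u hu)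
  · rw [pr_two, pr_zero, Sym2.eq_iff] at h
    rcases h with ⟨h, -⟩ | ⟨-, h⟩
    · simp only at h
      exact absurd (h ▸ (hg u hu).1) (hA u' hu')
    · simp only at h
      exact absurd (h ▸ (hg u hu).2) (hA u' hu')
  · rw [pr_two, pr_one, Sym2.eq_iff] at h
    rcases h with ⟨h, -⟩ | ⟨-, h⟩
    · simp only at h
      exact absurd (h ▸ (hg u hu).1) (hB u' hu')
    · simp only at h
      exact absurd (h ▸ (hg u hu).2) (hB u' hu')
  · rw [pr_two, pr_two] at h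
    exact ⟨rfl, hgg u hu u' hu' h⟩

private lemma core {W W' : Finset Pl} (hW : W ⊆ W') (m : ℕ) (A B p : ℕ → Pl) (g : ℕ → Pl × Pl) (X : Set Pl)
    (hA : ∀ u < 4 * m + 4, A u ∈ W ∧ A u ∉ X) (hB : ∀ u < 4 * m + 4, B u ∈ W ∧ B u ∉ X)
    (hp : ∀ u < 4 * m + 4, p u ∈ W' ∧ p u ∈ X)
    (hg : ∀ u < 2 * m, ((g u).1 ∈ W' ∧ (g u).2 ∈ W') ∧ (g u).1 ≠ (g u).2)
    (hgX : ∀ u < 2 * m, (g u).1 ∈ X ∧ (g u).2 ∈ X)
    (hAA : ∀ u < 4 * m + 4, ∀ v < 4 * m + 4, A u = A v → u = v)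
    (hBB : ∀ u < 4 * m + 4, ∀ v < 4 * m + 4, B u = B v → u = v)
    (hAB : ∀ u < 4 * m + 4, ∀ v < 4 * m + 4, A u ≠ B v)
    (hgg : ∀ i < 2 * m, ∀ j < 2 * m, s((g i).1, (g i).2) = s((g j).1, (g j).2) → i = j)
    (hdA : ∀ l < 2 * m + 2, dist (A (2 * l)) (p (2 * l)) = dist (A (2 * l + 1)) (p (2 * l + 1)))
    (hdB : ∀ l < 2 * m + 2, dist (B (2 * l)) (p (2 * l)) = dist (B (2 * l + 1)) (p (2 * l + 1)))
    (hdg : ∀ j < m, dist (g (2 * j)).1 (g (2 * j)).2 = dist (g (2 * j + 1)).1 (g (2 * j + 1)).2)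
    (S T : Finset ℕ) (hS : ∀ l ∈ S, l < 2 * m + 2 ∧ (p (2 * l) ∉ W ∨ p (2 * l + 1) ∉ W))
    (hT : ∀ j ∈ T, j < m ∧ ((g (2 * j)).1 ∉ W ∨ (g (2 * j)).2 ∉ W ∨ (g (2 * j + 1)).1 ∉ W ∨ (g (2 * j + 1)).2 ∉ W)) :
    numDist W' + W.card.choose 2 + (2 * S.card + T.card) ≤ numDist W + W'.card.choose 2 := by
  set Kn : Finset (ℕ × ℕ) := (({0} : Finset ℕ) ×ˢ S ∪ ({1} : Finset ℕ) ×ˢ S) ∪ ({2} : Finset ℕ) ×ˢ T with hKn
  have hcard : Kn.card = 2 * S.card + T.card := by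
    rw [hKn, Finset.card_union_of_disjoint, Finset.card_union_of_disjoint, Finset.card_product,
      Finset.card_product, Finset.card_product]
    · simp
      ring
    · rw [Finset.disjoint_left]
      intro x hx hx'
      simp only [Finset.mem_product, Finset.mem_singleton] at hx hx'
      omega
    · rw [Finset.disjoint_left]
      intro x hx hx'
      simp only [Finset.mem_product, Finset.mem_singleton, Finset.mem_union] at hx hx'
      omega
  have hmem : ∀ κ ∈ Kn, (κ.1 = 0 ∧ κ.2 ∈ S) ∨ (κ.1 = 1 ∧ κ.2 ∈ S) ∨ (κ.1 = 2 ∧ κ.2 ∈ T) := by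
    intro κ hκ
    rw [hKn] at hκ
    simp only [Finset.mem_product, Finset.mem_singleton, Finset.mem_union] at hκ
    tauto
  have hval : ∀ κ ∈ Kn, ∀ c < 2, (κ.1 = 0 ∧ 2 * κ.2 + c < 4 * m + 4) ∨ (κ.1 = 1 ∧ 2 * κ.2 + c < 4 * m + 4) ∨
      (κ.1 = 2 ∧ 2 * κ.2 + c < 2 * m) := by
    intro κ hκ c hc
    rcases hmem κ hκ with ⟨h1, h2⟩ | ⟨h1, h2⟩ | ⟨h1, h2⟩
    · have := (hS _ h2).1
      left
      exact ⟨h1, by omega⟩
    · have := (hS _ h2).1
      right; left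
      exact ⟨h1, by omega⟩
    · have := (hT _ h2).1
      right; right
      exact ⟨h1, by omega⟩
  have hinj := pr_inj m A B p g X (fun u hu => (hA u hu).2) (fun u hu => (hB u hu).2) (fun u hu => (hp u hu).2)
    hgX hAA hBB hAB hgg
  have hoff : ∀ k u, ((k = 0 ∧ u < 4 * m + 4) ∨ (k = 1 ∧ u < 4 * m + 4) ∨ (k = 2 ∧ u < 2 * m)) →
      pr A B p g k u ∈ W'.offDiag := by
    intro k u hk
    rw [Finset.mem_offDiag]
    rcases hk with ⟨rfl, hu⟩ | ⟨rfl, hu⟩ | ⟨rfl, hu⟩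
    · rw [pr_zero]
      refine ⟨hW (hA u hu).1, (hp u hu).1, ?_⟩
      intro h
      simp only at h
      exact (hA u hu).2 (h ▸ (hp u hu).2)
    · rw [pr_one]
      refine ⟨hW (hB u hu).1, (hp u hu).1, ?_⟩
      intro h
      simp only at h
      exact (hB u hu).2 (h ▸ (hp u hu).2)
    · rw [pr_two]
      exact ⟨(hg u hu).1.1, (hg u hu).1.2, (hg u hu).2⟩
  have hmain := add_coincidences hW Kn (fun κ => pr A B p g κ.1 (2 * κ.2 + 0)) (fun κ => pr A B p g κ.1 (2 * κ.2 + 1))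
    (fun κ hκ => hoff _ _ (hval κ hκ 0 (by norm_num)))
    (fun κ hκ => hoff _ _ (hval κ hκ 1 (by norm_num)))
    (by
      intro κ hκ
      rcases hmem κ hκ with ⟨h1, h2⟩ | ⟨h1, h2⟩ | ⟨h1, h2⟩
      · have h3 := hdA _ (hS _ h2).1
        simp only [h1, pr_zero, add_zero]
        exact h3
      · have h3 := hdB _ (hS _ h2).1
        simp only [h1, pr_one, add_zero]
        exact h3
      · have h3 := hdg _ (hT _ h2).1
        simp only [h1, pr_two, add_zero]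
        exact h3)
    (by
      intro κ hκ κ' hκ' h
      obtain ⟨h1, h2⟩ := hinj _ _ _ _ (hval κ hκ 0 (by norm_num)) (hval κ' hκ' 0 (by norm_num)) h
      exact Prod.ext h1 (by omega))
    (by
      intro κ hκ κ' hκ' h
      obtain ⟨h1, h2⟩ := hinj _ _ _ _ (hval κ hκ 1 (by norm_num)) (hval κ' hκ' 1 (by norm_num)) h
      exact Prod.ext h1 (by omega))
    (by
      intro κ hκ κ' hκ' h
      obtain ⟨h1, h2⟩ := hinj _ _ _ _ (hval κ hκ 0 (by norm_num)) (hval κ' hκ' 1 (by norm_num)) h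
      omega)
    (by
      intro κ hκ
      rcases hmem κ hκ with ⟨h1, h2⟩ | ⟨h1, h2⟩ | ⟨h1, h2⟩
      · have h3 := (hS _ h2).2
        simp only [h1, pr_zero, add_zero]
        tauto
      · have h3 := (hS _ h2).2
        simp only [h1, pr_one, add_zero]
        tauto
      · have h3 := (hT _ h2).2
        simp only [h1, pr_two, add_zero]
        tauto)
  rw [hcard] at hmain
  exact hmain

theorem Gam.add_chain {P : Finset Pl} {q : ℕ} (G : Gam P q) (m : ℕ) (hm : 1 ≤ m) (E : Finset (ℕ × (ℕ × ℕ)))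
    (hE : ∀ e ∈ E, e.1 < q ∧ e.2 ∈ G.N e.1) (O : Finset (Pl × Pl))
    (hO : ∀ p ∈ O, p.1 ≠ p.2 ∧ (∃ e ∈ E, G.x e.1 e.2 = p.1) ∧ ∃ e ∈ E, G.x e.1 e.2 = p.2)
    (g : ℕ → Pl × Pl) (hg : IsWalk O m g) (r : ℕ → ℕ) (hr : GoodRoots G E m (xs m g) r)
    (W : Finset Pl) (hWP : W ⊆ P) (hWa : ∀ u < 4 * m + 4, G.a (r u) ∈ W ∧ G.b (r u) ∈ W)
    (hnew : ∃ j < 2 * m, (g j).1 ∉ W ∨ (g j).2 ∉ W) :
    ∃ W' : Finset Pl, W ⊆ W' ∧ W' ⊆ P ∧ W'.card ≤ W.card + Mc m ∧
      numDist W' + W.card.choose 2 + W'.card + 1 ≤ numDist W + W'.card.choose 2 + W.card := by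
  classical
  -- the points
  obtain ⟨X, hX⟩ : ∃ X : Set Pl, ∀ z, z ∈ X ↔ ∃ e ∈ E, G.x e.1 e.2 = z := ⟨{z | ∃ e ∈ E, G.x e.1 e.2 = z}, fun z => Iff.rfl⟩
  obtain ⟨x, hx⟩ : ∃ x : ℕ → Pl, x = xs m g := ⟨_, rfl⟩
  obtain ⟨y, hy⟩ : ∃ y : ℕ → Pl, ∀ l, y l = G.x (r (2 * l + 1)) (G.sg (r (2 * l)) (x l)) :=
    ⟨fun l => G.x (r (2 * l + 1)) (G.sg (r (2 * l)) (x l)), fun l => rfl⟩
  obtain ⟨z, hz⟩ : ∃ z : ℕ → Pl, ∀ j, z j = (g (2 * j + 1)).2 := ⟨fun j => (g (2 * j + 1)).2, fun j => rfl⟩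
  rw [← hx] at hr
  have hXP : ∀ w ∈ X, w ∈ P := by
    intro w hw
    obtain ⟨e, he, rfl⟩ := (hX w).1 hw
    exact G.xP e.1 (hE e he).1 e.2 (hE e he).2
  have hgX : ∀ u < 2 * m, (g u).1 ∈ X ∧ (g u).2 ∈ X := by
    intro u hu
    have h := hO _ (hg.mem u hu)
    exact ⟨(hX _).2 h.2.1, (hX _).2 h.2.2⟩
  have hgne : ∀ u < 2 * m, (g u).1 ≠ (g u).2 := fun u hu => (hO _ (hg.mem u hu)).1
  have hx1 : ∀ l < 2 * m, x l = (g l).1 := by
    intro l hl
    rw [hx, xs, if_pos hl]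
  have hx2 : x (2 * m) = (g 0).2 := by
    rw [hx, xs, if_neg (by omega), if_pos rfl]
  have hx3 : x (2 * m + 1) = (g (2 * m - 1)).2 := by
    rw [hx, xs, if_neg (by omega), if_neg (by omega)]
  have hrq : ∀ u < 4 * m + 4, r u < q := by
    intro u hu
    rcases Nat.even_or_odd' u with ⟨l, rfl | rfl⟩
    · exact (hE _ (hr.e1 l (by omega))).1
    · exact (hE _ (hr.e3 l (by omega))).1
  have hxX : ∀ l < 2 * m + 2, x l ∈ X := by
    intro l hl
    exact (hX _).2 ⟨_, hr.e1 l hl, hr.e2 l hl⟩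
  have hyX : ∀ l < 2 * m + 2, y l ∈ X := by
    intro l hl
    exact (hX _).2 ⟨_, hr.e3 l hl, (hy l).symm⟩
  have haX : ∀ u < 4 * m + 4, G.a (r u) ∉ X := by
    intro u hu h
    obtain ⟨e, he, h1⟩ := (hX _).1 h
    exact G.ax (r u) (hrq u hu) e.1 (hE e he).1 e.2 (hE e he).2 h1.symm
  have hbX : ∀ u < 4 * m + 4, G.b (r u) ∉ X := by
    intro u hu h
    obtain ⟨e, he, h1⟩ := (hX _).1 h
    exact G.bx (r u) (hrq u hu) e.1 (hE e he).1 e.2 (hE e he).2 h1.symm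
  -- equal lengths
  have hdA : ∀ l < 2 * m + 2, dist (G.a (r (2 * l))) (x l) = dist (G.a (r (2 * l + 1))) (y l) := by
    intro l hl
    have h1 := hrq (2 * l) (by omega)
    have h2 := hrq (2 * l + 1) (by omega)
    refine rk_inj (D := distSet P) (mem_distSet (G.aP _ h1) (hXP _ (hxX l hl)) ?_)
      (mem_distSet (G.aP _ h2) (hXP _ (hyX l hl)) ?_) ?_
    · intro h
      exact haX (2 * l) (by omega) (h ▸ hxX l hl)
    · intro h
      exact haX (2 * l + 1) (by omega) (h ▸ hyX l hl)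
    · rw [hy l, G.ra _ h2 _ (hE _ (hr.e3 l hl)).2]
      rfl
  have hdB : ∀ l < 2 * m + 2, dist (G.b (r (2 * l))) (x l) = dist (G.b (r (2 * l + 1))) (y l) := by
    intro l hl
    have h1 := hrq (2 * l) (by omega)
    have h2 := hrq (2 * l + 1) (by omega)
    refine rk_inj (D := distSet P) (mem_distSet (G.bP _ h1) (hXP _ (hxX l hl)) ?_)
      (mem_distSet (G.bP _ h2) (hXP _ (hyX l hl)) ?_) ?_
    · intro h
      exact hbX (2 * l) (by omega) (h ▸ hxX l hl)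
    · intro h
      exact hbX (2 * l + 1) (by omega) (h ▸ hyX l hl)
    · rw [hy l, G.rb _ h2 _ (hE _ (hr.e3 l hl)).2]
      rfl
  -- the new set
  obtain ⟨W', hW'⟩ : ∃ W' : Finset Pl, W' = W ∪ (range (2 * m + 2)).image x ∪ (range (2 * m + 2)).image y ∪
    (range (m - 1)).image z := ⟨_, rfl⟩
  have hWW : W ⊆ W' := by
    intro w hw
    rw [hW']
    simp only [mem_union]
    tauto
  have hxW : ∀ l < 2 * m + 2, x l ∈ W' := by
    intro l hl
    rw [hW']
    simp only [mem_union]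
    exact Or.inl (Or.inl (Or.inr (mem_image_of_mem x (mem_range.2 hl))))
  have hyW : ∀ l < 2 * m + 2, y l ∈ W' := by
    intro l hl
    rw [hW']
    simp only [mem_union]
    exact Or.inl (Or.inr (mem_image_of_mem y (mem_range.2 hl)))
  have hzW : ∀ j < m - 1, z j ∈ W' := by
    intro j hj
    rw [hW']
    simp only [mem_union]
    exact Or.inr (mem_image_of_mem z (mem_range.2 hj))
  -- the second points
  have hsec : ∀ u < 2 * m, (∃ l < 2 * m + 2, x l = (g u).2) ∨ ∃ j < m - 1, z j = (g u).2 := by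
    intro u hu
    rcases Nat.even_or_odd' u with ⟨l, rfl | rfl⟩
    · rcases Nat.eq_zero_or_pos l with rfl | hl
      · exact Or.inl ⟨2 * m, by omega, hx2⟩
      · right
        refine ⟨l - 1, by omega, ?_⟩
        have h := hg.ver (l - 1) (by omega)
        rw [hz, ← h]
        congr 2
        omega
    · by_cases hl : l + 1 < m
      · exact Or.inr ⟨l, by omega, hz l⟩
      · left
        refine ⟨2 * m + 1, by omega, ?_⟩
        rw [hx3]
        congr 2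
        omega
  have hgW : ∀ u < 2 * m, (g u).1 ∈ W' ∧ (g u).2 ∈ W' := by
    intro u hu
    constructor
    · rw [← hx1 u hu]
      exact hxW u (by omega)
    · rcases hsec u hu with ⟨l, hl, h⟩ | ⟨j, hj, h⟩
      · rw [← h]; exact hxW l hl
      · rw [← h]; exact hzW j hj
  -- the index sets
  obtain ⟨Sx, hSx⟩ : ∃ S : Finset ℕ, S = (range (2 * m + 2)).filter (fun l => x l ∉ W) := ⟨_, rfl⟩
  obtain ⟨Sy, hSy⟩ : ∃ S : Finset ℕ, S = (range (2 * m + 2)).filter (fun l => y l ∉ W) := ⟨_, rfl⟩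
  obtain ⟨Sz, hSz⟩ : ∃ S : Finset ℕ, S = (range (m - 1)).filter (fun j => z j ∉ W) := ⟨_, rfl⟩
  obtain ⟨T, hT⟩ : ∃ T : Finset ℕ, T = (range m).filter (fun j => (g (2 * j)).1 ∉ W ∨ (g (2 * j)).2 ∉ W ∨
    (g (2 * j + 1)).1 ∉ W ∨ (g (2 * j + 1)).2 ∉ W) := ⟨_, rfl⟩
  have mSx : ∀ l, l ∈ Sx ↔ l < 2 * m + 2 ∧ x l ∉ W := by intro l; rw [hSx, mem_filter, mem_range]
  have mSy : ∀ l, l ∈ Sy ↔ l < 2 * m + 2 ∧ y l ∉ W := by intro l; rw [hSy, mem_filter, mem_range]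
  have mSz : ∀ l, l ∈ Sz ↔ l < m - 1 ∧ z l ∉ W := by intro l; rw [hSz, mem_filter, mem_range]
  have mT : ∀ j, j ∈ T ↔ j < m ∧ ((g (2 * j)).1 ∉ W ∨ (g (2 * j)).2 ∉ W ∨
    (g (2 * j + 1)).1 ∉ W ∨ (g (2 * j + 1)).2 ∉ W) := by intro j; rw [hT, mem_filter, mem_range]
  -- counting
  have hcc := chain_count Sx Sy Sz T
    (by
      obtain ⟨j, hj, h⟩ := hnew
      rcases h with h | h
      · refine ⟨j, ?_⟩
        simp only [mem_union]
        left; left
        rw [mSx]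
        exact ⟨by omega, by rw [hx1 j hj]; exact h⟩
      · rcases hsec j hj with ⟨l, hl, h1⟩ | ⟨i, hi, h1⟩
        · refine ⟨l, ?_⟩
          simp only [mem_union]
          left; left
          rw [mSx]
          exact ⟨hl, by rw [h1]; exact h⟩
        · refine ⟨i, ?_⟩
          simp only [mem_union]
          right
          rw [mSz]
          exact ⟨hi, by rw [h1]; exact h⟩)
    (by
      intro j hj
      obtain ⟨h1, h2⟩ := (mSz j).1 hj
      rw [hz] at h2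
      refine ⟨(mT j).2 ⟨by omega, by tauto⟩, (mT (j + 1)).2 ⟨by omega, ?_⟩⟩
      have h3 := hg.ver j (by omega)
      rw [← h3] at h2
      have h4 : 2 * (j + 1) = 2 * j + 2 := by ring
      rw [h4]
      tauto)
    (by
      rintro ⟨l, hl⟩
      obtain ⟨h1, h2⟩ := (mSx l).1 hl
      rcases Nat.lt_or_ge l (2 * m) with h3 | h3
      · rw [hx1 l h3] at h2
        refine ⟨l / 2, (mT _).2 ⟨by omega, ?_⟩⟩
        rcases Nat.even_or_odd' l with ⟨i, rfl | rfl⟩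
        · have h4 : 2 * i / 2 = i := by omega
          rw [h4]
          tauto
        · have h4 : (2 * i + 1) / 2 = i := by omega
          rw [h4]
          tauto
      · rcases Nat.eq_or_lt_of_le h3 with h3 | h3
        · rw [← h3, hx2] at h2
          refine ⟨0, (mT _).2 ⟨by omega, ?_⟩⟩
          rw [mul_zero]
          tauto
        · have h4 : l = 2 * m + 1 := by omega
          rw [h4, hx3] at h2
          refine ⟨m - 1, (mT _).2 ⟨by omega, ?_⟩⟩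
          have h5 : 2 * (m - 1) + 1 = 2 * m - 1 := by omega
          rw [h5]
          tauto)
  -- size
  have hsize : W'.card ≤ W.card + (Sx.card + Sy.card + Sz.card) := by
    have hsub : W' ⊆ W ∪ Sx.image x ∪ Sy.image y ∪ Sz.image z := by
      intro w hw
      by_cases hwW : w ∈ W
      · simp only [mem_union]; tauto
      rw [hW'] at hw
      simp only [mem_union] at hw ⊢
      rcases hw with ((hw | hw) | hw) | hw
      · exact absurd hw hwW
      · obtain ⟨l, hl, rfl⟩ := mem_image.1 hw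
        exact Or.inl (Or.inl (Or.inr (mem_image_of_mem x ((mSx l).2 ⟨mem_range.1 hl, hwW⟩))))
      · obtain ⟨l, hl, rfl⟩ := mem_image.1 hw
        exact Or.inl (Or.inr (mem_image_of_mem y ((mSy l).2 ⟨mem_range.1 hl, hwW⟩)))
      · obtain ⟨l, hl, rfl⟩ := mem_image.1 hw
        exact Or.inr (mem_image_of_mem z ((mSz l).2 ⟨mem_range.1 hl, hwW⟩))
    have h1 := card_le_card hsub
    have h2 := card_union_le (W ∪ Sx.image x ∪ Sy.image y) (Sz.image z)
    have h3 := card_union_le (W ∪ Sx.image x) (Sy.image y)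
    have h4 := card_union_le W (Sx.image x)
    have h5 : (Sx.image x).card ≤ Sx.card := card_image_le
    have h6 : (Sy.image y).card ≤ Sy.card := card_image_le
    have h7 : (Sz.image z).card ≤ Sz.card := card_image_le
    omega
  have hsize2 : Sx.card + Sy.card + Sz.card ≤ Mc m := by
    have h1 : Sx.card ≤ 2 * m + 2 := by
      rw [hSx]
      exact (card_filter_le _ _).trans (by simp)
    have h2 : Sy.card ≤ 2 * m + 2 := by
      rw [hSy]
      exact (card_filter_le _ _).trans (by simp)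
    have h3 : Sz.card ≤ m - 1 := by
      rw [hSz]
      exact (card_filter_le _ _).trans (by simp)
    unfold Mc
    omega
  -- the alternating function
  obtain ⟨p, hp⟩ : ∃ p : ℕ → Pl, ∀ u, p u = if u % 2 = 0 then x (u / 2) else y (u / 2) :=
    ⟨fun u => if u % 2 = 0 then x (u / 2) else y (u / 2), fun u => rfl⟩
  have hp0 : ∀ l, p (2 * l) = x l := by
    intro l
    rw [hp, if_pos (by omega)]
    congr 1
    omega
  have hp1 : ∀ l, p (2 * l + 1) = y l := by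
    intro l
    rw [hp, if_neg (by omega)]
    congr 1
    omega
  have hmain := core hWW m (fun u => G.a (r u)) (fun u => G.b (r u)) p g X
    (fun u hu => ⟨(hWa u hu).1, haX u hu⟩) (fun u hu => ⟨(hWa u hu).2, hbX u hu⟩)
    (by
      intro u hu
      rcases Nat.even_or_odd' u with ⟨l, rfl | rfl⟩
      · rw [hp0]
        exact ⟨hxW l (by omega), hxX l (by omega)⟩
      · rw [hp1]
        exact ⟨hyW l (by omega), hyX l (by omega)⟩)
    (fun u hu => ⟨hgW u hu, hgne u hu⟩) hgX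
    (fun u hu v hv h => hr.inj u hu v hv (G.ainj _ (hrq u hu) _ (hrq v hv) h))
    (fun u hu v hv h => hr.inj u hu v hv (G.binj _ (hrq u hu) _ (hrq v hv) h))
    (fun u hu v hv => G.ab _ (hrq u hu) _ (hrq v hv))
    hg.inj
    (by
      intro l hl
      rw [hp0, hp1]
      exact hdA l hl)
    (by
      intro l hl
      rw [hp0, hp1]
      exact hdB l hl)
    hg.col (Sx ∪ Sy) T
    (by
      intro l hl
      rw [hp0, hp1]
      rcases mem_union.1 hl with h | h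
      · exact ⟨((mSx l).1 h).1, Or.inl ((mSx l).1 h).2⟩
      · exact ⟨((mSy l).1 h).1, Or.inr ((mSy l).1 h).2⟩)
    (fun j hj => (mT j).1 hj)
  refine ⟨W', hWW, ?_, by omega, by omega⟩
  intro w hw
  rw [hW'] at hw
  simp only [mem_union] at hw
  rcases hw with ((hw | hw) | hw) | hw
  · exact hWP hw
  · obtain ⟨l, hl, rfl⟩ := mem_image.1 hw
    exact hXP _ (hxX l (mem_range.1 hl))
  · obtain ⟨l, hl, rfl⟩ := mem_image.1 hw
    exact hXP _ (hyX l (mem_range.1 hl))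
  · obtain ⟨l, hl, rfl⟩ := mem_image.1 hw
    rw [hz]
    have h3 := mem_range.1 hl
    exact hXP _ (hgX (2 * l + 1) (by omega)).2

end Pool.Agent.Lib.LocD
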