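import Pool.Agent.Lib.LocD.C6

/-!
# LocD.C7: many chains with the same roots give a k-set with few distances

PROOF. `A0 = 8m+8`, `M = Mc m`, `B0` = the points `a (r u)`, `b (r u)`, `u < 4m+4` (`|B0| ≤ A0`, `B0 ⊆ P` since `(r u, _) ∈ E`: `r u < q` for even and odd `u`). A state is `(W, j)` with `B0 ⊆ W ⊆ P`,
`numDist W + |W| + j ≤ C(|W|,2) + A0`, `|W| ≤ k`, `|W| ≤ A0 + j M`. `(B0, 0)` is a state: `numDist_le`. In a state `j ≤ C(k,2) + A0` (`Nat.choose_le_choose`), so there is one with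
`j` maximal. The chains `g ∈ H` with all end points in `W` number at most `(k^2)^(2m) = k^(4m)` (`g ↦ (fun j _ => g j) ∈ (range (2m)).pi (fun _ => W ×ˢ W)`, injective by
`IsWalk.tail`), so some `g ∈ H` has an end point outside `W`; `add_chain` gives `W'` and `(W', j+1)` satisfies everything except perhaps `|W'| ≤ k`; by maximality `|W'| > k`.
Hence `|W| ≥ k + 1 - M`, `k < A0 + (j+1) M`, `k ≤ |P|`. `fill_up` gives `S ⊆ P`, `|S| = k`: `numDist S + |W| + j ≤ C(k,2) + A0`. Multiply by `M` as in `LocD.B5`.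
-/

namespace Pool.Agent.Lib.LocD

open Finset

/-- states of the process -/
private structure Cs {P : Finset Pl} {q : ℕ} (G : Gam P q) (m k : ℕ) (r : ℕ → ℕ) (W : Finset Pl)
    (j : ℕ) : Prop where
  sa : ∀ u < 4 * m + 4, G.a (r u) ∈ W ∧ G.b (r u) ∈ W
  sb : W ⊆ P
  sc : numDist W + W.card + j ≤ W.card.choose 2 + (8 * m + 8)
  sd : W.card ≤ k
  se : W.card ≤ (8 * m + 8) + j * Mc m

private theorem exists_out {m k : ℕ} {O : Finset (Pl × Pl)} (W : Finset Pl) (hW : W.card ≤ k)
    (H : Finset (ℕ → Pl × Pl)) (hH : ∀ g ∈ H, IsWalk O m g) (hcard : k ^ (4 * m) < H.card) :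
    ∃ g ∈ H, ∃ j < 2 * m, (g j).1 ∉ W ∨ (g j).2 ∉ W := by
  by_contra hno
  push Not at hno
  have h1 : H.card ≤ (Fintype.piFinset (fun _ : Fin (2 * m) => W ×ˢ W)).card := by
    refine card_le_card_of_injOn (fun f i => f i) (fun f hf => ?_) ?_
    · rw [mem_coe, Fintype.mem_piFinset]
      exact fun i => mem_product.2 (hno f hf i i.2)
    · intro f hf g hg hfg
      funext i
      by_cases hi : i < 2 * m
      · exact congrFun hfg ⟨i, hi⟩
      · push Not at hi
        rw [(hH f hf).tail i hi, (hH g hg).tail i hi]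
  rw [Fintype.card_piFinset_const, card_product] at h1
  have h2 : (W.card * W.card) ^ (2 * m) ≤ (k * k) ^ (2 * m) :=
    Nat.pow_le_pow_left (Nat.mul_le_mul hW hW) _
  have h3 : (k * k) ^ (2 * m) = k ^ (4 * m) := by
    rw [← pow_two, ← pow_mul]
    congr 1
    omega
  omega

theorem Gam.many_chains {P : Finset Pl} {q : ℕ} (G : Gam P q) (m k : ℕ) (hm : 1 ≤ m) (hk : 8 * m + 8 ≤ k)
    (E : Finset (ℕ × (ℕ × ℕ))) (hE : ∀ e ∈ E, e.1 < q ∧ e.2 ∈ G.N e.1) (O : Finset (Pl × Pl))
    (hO : ∀ p ∈ O, p.1 ≠ p.2 ∧ (∃ e ∈ E, G.x e.1 e.2 = p.1) ∧ ∃ e ∈ E, G.x e.1 e.2 = p.2)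
    (r : ℕ → ℕ) (H : Finset (ℕ → Pl × Pl)) (hH : ∀ g ∈ H, IsWalk O m g ∧ GoodRoots G E m (xs m g) r)
    (hcard : k ^ (4 * m) < H.card) :
    ∃ S ⊆ P, S.card = k ∧ Mc m * numDist S + (Mc m + 1) * k ≤ Mc m * k.choose 2 + Cc m := by
  classical
  by_contra hno
  have hHne : H.Nonempty := card_pos.1 (by omega)
  obtain ⟨g0, hg0⟩ := hHne
  have hr0 := (hH g0 hg0).2
  have hrq : ∀ u < 4 * m + 4, r u < q := by
    intro u hu
    rcases Nat.even_or_odd' u with ⟨l, hl | hl⟩
    · have h1 := (hE _ (hr0.e1 l (by omega))).1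
      rw [hl]
      exact h1
    · have h1 := (hE _ (hr0.e3 l (by omega))).1
      rw [hl]
      exact h1
  -- one step
  have step : ∀ (W : Finset Pl) (j : ℕ), Cs G m k r W j → ∃ W', Cs G m k r W' (j + 1) := by
    intro W j h
    obtain ⟨g, hgH, hgo⟩ := exists_out W h.sd H (fun g hg => (hH g hg).1) hcard
    obtain ⟨W', g1, g2, g3, g4⟩ := G.add_chain m hm E hE O hO g (hH g hgH).1 r (hH g hgH).2 W
      h.sb h.sa hgo
    have h1 := h.sc
    have hc : numDist W' + W'.card + (j + 1) ≤ W'.card.choose 2 + (8 * m + 8) := by omega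
    have he : W'.card ≤ (8 * m + 8) + (j + 1) * Mc m := by
      have h2 := h.se
      rw [Nat.add_mul, Nat.one_mul]
      omega
    by_cases hk' : W'.card ≤ k
    · exact ⟨W', ⟨fun u hu => ⟨g1 (h.sa u hu).1, g1 (h.sa u hu).2⟩, g2, hc, hk', he⟩⟩
    · exfalso
      apply hno
      push Not at hk'
      have hP : k ≤ P.card := by
        have h2 := card_le_card g2
        omega
      obtain ⟨S, hS1, hS2, hS3⟩ := fill_up h.sb k h.sd hP
      refine ⟨S, hS1, hS2, ?_⟩
      have h5 : numDist S + W.card + j ≤ k.choose 2 + (8 * m + 8) := by omega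
      have h6 : k + 1 ≤ W.card + Mc m := by omega
      have h7 : k + 1 ≤ (8 * m + 8) + (j + 1) * Mc m := by omega
      have h8 := Nat.mul_le_mul_left (Mc m) h5
      have h9 := Nat.mul_le_mul_left (Mc m) h6
      unfold Cc
      nlinarith
  have all : ∀ j : ℕ, ∃ W, Cs G m k r W j := by
    intro j
    induction j with
    | zero =>
      have hb : ((range (4 * m + 4)).image (fun u => G.a (r u)) ∪
          (range (4 * m + 4)).image (fun u => G.b (r u))).card ≤ 8 * m + 8 := by
        refine (card_union_le _ _).trans ?_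
        have h1 : ((range (4 * m + 4)).image (fun u => G.a (r u))).card ≤ 4 * m + 4 :=
          card_image_le.trans (by rw [card_range])
        have h2 : ((range (4 * m + 4)).image (fun u => G.b (r u))).card ≤ 4 * m + 4 :=
          card_image_le.trans (by rw [card_range])
        omega
      refine ⟨(range (4 * m + 4)).image (fun u => G.a (r u)) ∪
          (range (4 * m + 4)).image (fun u => G.b (r u)), ⟨fun u hu => ⟨?_, ?_⟩, ?_, ?_, ?_, ?_⟩⟩
      · exact mem_union_left _ (mem_image.2 ⟨u, mem_range.2 hu, rfl⟩)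
      · exact mem_union_right _ (mem_image.2 ⟨u, mem_range.2 hu, rfl⟩)
      · intro z hz
        rcases mem_union.1 hz with hz | hz
        · obtain ⟨u, hu, rfl⟩ := mem_image.1 hz
          exact G.aP _ (hrq u (mem_range.1 hu))
        · obtain ⟨u, hu, rfl⟩ := mem_image.1 hz
          exact G.bP _ (hrq u (mem_range.1 hu))
      · have h1 := numDist_le ((range (4 * m + 4)).image (fun u => G.a (r u)) ∪
          (range (4 * m + 4)).image (fun u => G.b (r u)))
        omega
      · omega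
      · omega
    | succ j ih =>
      obtain ⟨W, h⟩ := ih
      exact step W j h
  obtain ⟨W, h⟩ := all (k.choose 2 + (8 * m + 8) + 1)
  have h1 := h.sc
  have h2 := Nat.choose_le_choose 2 h.sd
  omega

end Pool.Agent.Lib.LocD
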