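import Pool.Agent.Lib.LocD.C0
import Pool.Agent.Lib.LocD.C2
import Pool.Agent.Lib.LocD.C3
import Pool.Agent.Lib.LocD.C7

/-!
# LocD.C8: the counting inequality

PROOF. `E0 = (range q).biUnion (fun i => (G.N i).image (fun s => (i, s)))`, `|E0| = Σ |N i| ≥ e0`. `prune2 E0 Prod.fst Prod.snd (range q) R 0 dr`: `E ⊆ E0`, `e0 ≤ 2 |E|`, all right
degrees `≥ dr`. `Xs = P.filter (fun x => h ≤ (E.filter (fun e => G.x e.1 e.2 = x)).card)`: `|E| = Σ_{x ∈ P} |E_x| ≤ q |Xs| + h |P|` (`|E_x| ≤ q`: `e ↦ e.1` is injective on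
`E_x` as `e.2 = sg e.1 x`), so with `hv`: `v ≤ |Xs|`. Choose `X' ⊆ Xs` with `|X'| = v`. `O0 = X'.offDiag`, `|O0| = v (v-1)`; `prune2 O0 Prod.snd (fun p => dist p.1 p.2) X' (distSet P) a b`
(`distSet P` has `numDist P` elements; `mem_distSet`) gives `O` with `v (v-1) ≤ 2 |O|`. `walk_count` gives `H` with `|H| ≥ |O| (b-4m)^m (a-4m)^(m-1)`. For every
`g ∈ H` all `xs m g l` are in `Xs`, so `roots_count` gives at least `B = ((h-(4m+4)) (dr-(4m+4)))^(2m+2)` good root assignments, functions with values `< q` below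
`4m+4` and `0` beyond: they inject into `(range (4m+4)).pi (fun _ => range q)`, `q^(4m+4)` elements. Double counting: if `q^(4m+4) k^(4m) < |H| B` some root assignment `r` is good for more than
`k^(4m)` of the `g ∈ H` (`Finset.exists_lt_card_fiber_of_mul_lt_card_of_maps_to` on the set of pairs `(g, r)` = `H.sigma ..`), and `many_chains` contradicts `hno`
(`h ≥ 1` gives `hO`). So `|H| B ≤ q^(4m+4) k^(4m)`; multiply by 2.
-/

namespace Pool.Agent.Lib.LocD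

open Finset

private theorem snd_eq {P : Finset Pl} {q : ℕ} (G : Gam P q) {E : Finset (ℕ × (ℕ × ℕ))}
    (hE : ∀ e ∈ E, e.1 < q ∧ e.2 ∈ G.N e.1) {e : ℕ × (ℕ × ℕ)} (he : e ∈ E) {x : Pl} (hx : G.x e.1 e.2 = x) :
    e.2 = G.sg e.1 x := by
  have h1 := G.ra e.1 (hE e he).1 e.2 (hE e he).2
  have h2 := G.rb e.1 (hE e he).1 e.2 (hE e he).2
  rw [hx] at h1 h2
  unfold Gam.sg
  exact Prod.ext h1.symm h2.symm

private theorem fib_le {P : Finset Pl} {q : ℕ} (G : Gam P q) {E : Finset (ℕ × (ℕ × ℕ))}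
    (hE : ∀ e ∈ E, e.1 < q ∧ e.2 ∈ G.N e.1) (x : Pl) :
    (E.filter (fun e => G.x e.1 e.2 = x)).card ≤ q := by
  have h1 : (E.filter (fun e => G.x e.1 e.2 = x)).card ≤ (range q).card := by
    apply card_le_card_of_injOn (fun e => e.1)
    · intro e he
      have he' := mem_filter.mp (mem_coe.mp he)
      exact mem_coe.mpr (mem_range.mpr (hE e he'.1).1)
    · intro e he e' he' h
      have h1 := mem_filter.mp (mem_coe.mp he)
      have h2 := mem_filter.mp (mem_coe.mp he')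
      have h3 := snd_eq G hE h1.1 h1.2
      have h4 := snd_eq G hE h2.1 h2.2
      have h5 : e.1 = e'.1 := h
      refine Prod.ext h5 ?_
      rw [h3, h4, h5]
  rwa [card_range] at h1

private theorem rich {P : Finset Pl} {q : ℕ} (G : Gam P q) {E : Finset (ℕ × (ℕ × ℕ))}
    (hE : ∀ e ∈ E, e.1 < q ∧ e.2 ∈ G.N e.1) (h : ℕ) :
    E.card ≤ q * (P.filter (fun x => h ≤ (E.filter (fun e => G.x e.1 e.2 = x)).card)).card + h * P.card := by
  have h1 : E.card = ∑ x ∈ P, (E.filter (fun e => G.x e.1 e.2 = x)).card := by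
    apply card_eq_sum_card_fiberwise
    intro e he
    exact mem_coe.mpr (G.xP e.1 (hE e (mem_coe.mp he)).1 e.2 (hE e (mem_coe.mp he)).2)
  rw [h1]
  have h2 : ∀ x ∈ P, (E.filter (fun e => G.x e.1 e.2 = x)).card ≤
      (if h ≤ (E.filter (fun e => G.x e.1 e.2 = x)).card then q else 0) + h := by
    intro x _
    split_ifs with h3
    · have := fib_le G hE x
      omega
    · omega
  refine (sum_le_sum h2).trans ?_
  rw [sum_add_distrib, ← sum_filter, sum_const, sum_const, smul_eq_mul, smul_eq_mul]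
  exact le_of_eq (by ring)

private theorem r_lt {P : Finset Pl} {q : ℕ} (G : Gam P q) {E : Finset (ℕ × (ℕ × ℕ))}
    (hE : ∀ e ∈ E, e.1 < q ∧ e.2 ∈ G.N e.1) {m : ℕ} {x : ℕ → Pl} {r : ℕ → ℕ} (hr : GoodRoots G E m x r)
    {u : ℕ} (hu : u < 4 * m + 4) : r u < q := by
  have hl : u / 2 < 2 * m + 2 := by omega
  rcases Nat.mod_two_eq_zero_or_one u with h | h
  · have h1 : 2 * (u / 2) = u := by omega
    have h2 := (hE _ (hr.e1 (u / 2) hl)).1
    rw [h1] at h2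
    exact h2
  · have h1 : 2 * (u / 2) + 1 = u := by omega
    have h2 := (hE _ (hr.e3 (u / 2) hl)).1
    rw [h1] at h2
    exact h2

private theorem xs_mem {O : Finset (Pl × Pl)} {X : Finset Pl} (hO : O ⊆ X.offDiag) {m : ℕ} (hm : 1 ≤ m)
    {g : ℕ → Pl × Pl} (hg : IsWalk O m g) {l : ℕ} (_hl : l < 2 * m + 2) : xs m g l ∈ X := by
  unfold xs
  split_ifs with h1 h2
  · exact (mem_offDiag.mp (hO (hg.mem l h1))).1
  · exact (mem_offDiag.mp (hO (hg.mem 0 (by omega)))).2.1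
  · exact (mem_offDiag.mp (hO (hg.mem (2 * m - 1) (by omega)))).2.1

private theorem pigeon {P : Finset Pl} {q : ℕ} (G : Gam P q) (m k B : ℕ) (hm : 1 ≤ m) (hk : 8 * m + 8 ≤ k)
    (E : Finset (ℕ × (ℕ × ℕ))) (hE : ∀ e ∈ E, e.1 < q ∧ e.2 ∈ G.N e.1) (O : Finset (Pl × Pl))
    (hO : ∀ p ∈ O, p.1 ≠ p.2 ∧ (∃ e ∈ E, G.x e.1 e.2 = p.1) ∧ ∃ e ∈ E, G.x e.1 e.2 = p.2)
    (H : Finset (ℕ → Pl × Pl)) (hH : ∀ g ∈ H, IsWalk O m g)
    (hB : ∀ g ∈ H, ∃ R : Finset (ℕ → ℕ), B ≤ R.card ∧ ∀ r ∈ R, GoodRoots G E m (xs m g) r)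
    (hno : ¬ ∃ S ⊆ P, S.card = k ∧ Mc m * numDist S + (Mc m + 1) * k ≤ Mc m * k.choose 2 + Cc m) :
    H.card * B ≤ q ^ (4 * m + 4) * k ^ (4 * m) := by
  classical
  by_contra hcon
  push Not at hcon
  choose! Rr hR1 hR2 using hB
  set S : Finset (Σ _ : (ℕ → Pl × Pl), (ℕ → ℕ)) := H.sigma Rr with hS
  have hSc : H.card * B ≤ S.card := by
    rw [hS, card_sigma]
    calc H.card * B = ∑ _g ∈ H, B := by rw [sum_const, smul_eq_mul]
      _ ≤ ∑ g ∈ H, (Rr g).card := sum_le_sum hR1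
  set T := (range (4 * m + 4)).pi (fun _ => range q) with hT
  have hTc : T.card = q ^ (4 * m + 4) := by
    rw [hT, card_pi, prod_const, card_range, card_range]
  obtain ⟨y, hy, hyc⟩ := exists_lt_card_fiber_of_mul_lt_card_of_maps_to
    (s := S) (t := T) (f := fun p => (fun (u : ℕ) (_ : u ∈ range (4 * m + 4)) => p.2 u)) (n := k ^ (4 * m)) (by
      intro p hp
      obtain ⟨hp1, hp2⟩ := mem_sigma.mp hp
      rw [hT, mem_pi]
      intro u hu
      exact mem_range.mpr (r_lt G hE (hR2 _ hp1 _ hp2) (mem_range.mp hu))) (by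
        rw [hTc]
        exact lt_of_lt_of_le hcon hSc)
  set F := S.filter (fun p => (fun (u : ℕ) (_ : u ∈ range (4 * m + 4)) => p.2 u) = y) with hF
  obtain ⟨p0, hp0⟩ : F.Nonempty := card_pos.mp (lt_of_le_of_lt (Nat.zero_le _) hyc)
  have hp0' := mem_filter.mp hp0
  have hp0S := mem_sigma.mp hp0'.1
  have hsame : ∀ p ∈ F, p.2 = p0.2 := by
    intro p hp
    have hp' := mem_filter.mp hp
    have hpS := mem_sigma.mp hp'.1
    have h1 := hp'.2.trans hp0'.2.symm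
    funext u
    by_cases hu : u < 4 * m + 4
    · exact congrFun (congrFun h1 u) (mem_range.mpr hu)
    · rw [(hR2 _ hpS.1 _ hpS.2).tail u (by omega), (hR2 _ hp0S.1 _ hp0S.2).tail u (by omega)]
  have hinj : Set.InjOn (fun p : (Σ _ : (ℕ → Pl × Pl), (ℕ → ℕ)) => p.1) (F : Set _) := by
    intro p hp p' hp' h
    have h1 := hsame p (mem_coe.mp hp)
    have h2 := hsame p' (mem_coe.mp hp')
    obtain ⟨g, r⟩ := p
    obtain ⟨g', r'⟩ := p'
    have h3 : g = g' := h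
    have h4 : r = r' := h1.trans h2.symm
    subst h3
    subst h4
    rfl
  apply hno
  refine G.many_chains m k hm hk E hE O hO p0.2 (F.image (fun p => p.1)) ?_ ?_
  · intro g hg
    obtain ⟨p, hp, rfl⟩ := mem_image.mp hg
    have hpS := mem_sigma.mp (mem_filter.mp hp).1
    refine ⟨hH _ hpS.1, ?_⟩
    rw [← hsame p hp]
    exact hR2 _ hpS.1 _ hpS.2
  · rw [card_image_of_injOn hinj]
    exact hyc

theorem Gam.chains_bound {P : Finset Pl} {q : ℕ} (G : Gam P q) (m k e0 dr h v a b : ℕ) (hq : 1 ≤ q) (hm : 1 ≤ m)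
    (hk : 8 * m + 8 ≤ k)
    (R : Finset (ℕ × ℕ)) (hR : ∀ i < q, G.N i ⊆ R)
    (he : e0 ≤ ∑ i ∈ range q, (G.N i).card) (hdr : 2 * (dr * R.card) ≤ e0) (h1 : 1 ≤ h)
    (hv : 2 * (q * v + h * P.card) ≤ e0) (hab : 2 * (a * v + b * numDist P) ≤ v * (v - 1))
    (hno : ¬ ∃ S ⊆ P, S.card = k ∧ Mc m * numDist S + (Mc m + 1) * k ≤ Mc m * k.choose 2 + Cc m) :
    v * (v - 1) * ((b - 4 * m) ^ m * (a - 4 * m) ^ (m - 1)) *
        ((h - (4 * m + 4)) * (dr - (4 * m + 4))) ^ (2 * m + 2) ≤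
      2 * (q ^ (4 * m + 4) * k ^ (4 * m)) := by
  classical
  -- the edge set
  set E0 : Finset (ℕ × (ℕ × ℕ)) := ((range q) ×ˢ R).filter (fun e => e.2 ∈ G.N e.1) with hE0
  have hEm : ∀ e, e ∈ E0 ↔ e.1 < q ∧ e.2 ∈ G.N e.1 := by
    intro e
    rw [hE0, mem_filter, mem_product, mem_range]
    constructor
    · rintro ⟨⟨h1, _⟩, h2⟩
      exact ⟨h1, h2⟩
    · rintro ⟨h1, h2⟩
      exact ⟨⟨h1, hR _ h1 h2⟩, h2⟩
  have hfib : ∀ i < q, (E0.filter (fun e => e.1 = i)).card = (G.N i).card := by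
    intro i hi
    have h1 : E0.filter (fun e => e.1 = i) = (G.N i).image (fun s => (i, s)) := by
      ext e
      rw [mem_filter, hEm, mem_image]
      constructor
      · rintro ⟨⟨_, h2⟩, h3⟩
        exact ⟨e.2, h3 ▸ h2, Prod.ext h3.symm rfl⟩
      · rintro ⟨s, hs, rfl⟩
        exact ⟨⟨hi, hs⟩, rfl⟩
    rw [h1]
    exact card_image_of_injective _ (fun s s' h => congrArg Prod.snd h)
  have hEcard : E0.card = ∑ i ∈ range q, (G.N i).card := by
    rw [card_eq_sum_card_fiberwise (f := Prod.fst) (t := range q) (by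
      intro e he
      exact mem_coe.mpr (mem_range.mpr ((hEm e).mp (mem_coe.mp he)).1))]
    apply sum_congr rfl
    intro i hi
    exact hfib i (mem_range.mp hi)
  obtain ⟨E, hEE0, hEc, _, hmin⟩ := prune2 E0 Prod.fst Prod.snd (range q) R
    (fun e he => mem_range.mpr ((hEm e).mp he).1)
    (fun e he => hR _ ((hEm e).mp he).1 ((hEm e).mp he).2) 0 dr (by
      rw [hEcard, Nat.zero_mul, Nat.zero_add]
      exact hdr.trans he)
  have hE : ∀ e ∈ E, e.1 < q ∧ e.2 ∈ G.N e.1 := fun e he => (hEm e).mp (hEE0 he)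
  -- rich points
  set Xs := P.filter (fun x => h ≤ (E.filter (fun e => G.x e.1 e.2 = x)).card) with hXs
  have hrich : E.card ≤ q * Xs.card + h * P.card := rich G hE h
  have hvX : v ≤ Xs.card := by
    have h2 : q * v ≤ q * Xs.card := by
      rw [hEcard] at hEc
      omega
    exact Nat.le_of_mul_le_mul_left h2 (by omega)
  obtain ⟨X', hX'X, hX'c⟩ := exists_subset_card_eq hvX
  have hX'P : X' ⊆ P := hX'X.trans (filter_subset _ _)
  have hO0c : X'.offDiag.card = v * (v - 1) := by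
    rw [offDiag_card, hX'c, Nat.mul_sub, Nat.mul_one]
  obtain ⟨O, hOO, hOc, ha, hb⟩ := prune2 X'.offDiag Prod.snd (fun p => dist p.1 p.2) X' (distSet P)
    (fun p hp => (mem_offDiag.mp hp).2.1)
    (fun p hp => mem_distSet (hX'P (mem_offDiag.mp hp).1) (hX'P (mem_offDiag.mp hp).2.1)
      (mem_offDiag.mp hp).2.2) a b (by
        rw [hO0c, hX'c]
        exact hab)
  have hXe : ∀ x ∈ X', ∃ e ∈ E, G.x e.1 e.2 = x := by
    intro x hx
    have h2 := (mem_filter.mp (hX'X hx)).2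
    obtain ⟨e, he⟩ : (E.filter (fun e => G.x e.1 e.2 = x)).Nonempty := card_pos.mp (by omega)
    exact ⟨e, (mem_filter.mp he).1, (mem_filter.mp he).2⟩
  have hO : ∀ p ∈ O, p.1 ≠ p.2 ∧ (∃ e ∈ E, G.x e.1 e.2 = p.1) ∧ ∃ e ∈ E, G.x e.1 e.2 = p.2 := by
    intro p hp
    have hp' := mem_offDiag.mp (hOO hp)
    exact ⟨hp'.2.2, hXe _ hp'.1, hXe _ hp'.2.1⟩
  obtain ⟨H, hHc, hH⟩ := walk_count O m a b hm ha hb
  have hB : ∀ g ∈ H, ∃ Rr : Finset (ℕ → ℕ),
      ((h - (4 * m + 4)) * (dr - (4 * m + 4))) ^ (2 * m + 2) ≤ Rr.card ∧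
      ∀ r ∈ Rr, GoodRoots G E m (xs m g) r := by
    intro g hg
    refine G.roots_count E hE m h dr (xs m g) ?_ hmin
    intro l hl
    exact (mem_filter.mp (hX'X (xs_mem hOO hm (hH g hg) hl))).2
  have hmain := pigeon G m k _ hm hk E hE O hO H hH hB hno
  rw [hO0c] at hOc
  calc v * (v - 1) * ((b - 4 * m) ^ m * (a - 4 * m) ^ (m - 1)) *
        ((h - (4 * m + 4)) * (dr - (4 * m + 4))) ^ (2 * m + 2)
      ≤ (2 * O.card) * ((b - 4 * m) ^ m * (a - 4 * m) ^ (m - 1)) *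
        ((h - (4 * m + 4)) * (dr - (4 * m + 4))) ^ (2 * m + 2) :=
        Nat.mul_le_mul_right _ (Nat.mul_le_mul_right _ hOc)
    _ = 2 * ((O.card * ((b - 4 * m) ^ m * (a - 4 * m) ^ (m - 1))) *
        ((h - (4 * m + 4)) * (dr - (4 * m + 4))) ^ (2 * m + 2)) := by ring
    _ ≤ 2 * (H.card * ((h - (4 * m + 4)) * (dr - (4 * m + 4))) ^ (2 * m + 2)) :=
        Nat.mul_le_mul_left _ (Nat.mul_le_mul_right _ hHc)
    _ ≤ 2 * (q ^ (4 * m + 4) * k ^ (4 * m)) := Nat.mul_le_mul_left _ hmain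

end Pool.Agent.Lib.LocD
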