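import Mathlib

/-!
# LocD.CNa: first numerical end

PROOF. `e0 ≥ q ξ / 4 ≥ n^2 / 128`. Choose (floors) `v = e0 / (4 q)`, `h = e0 / (4 n)`, `dr = e0 / (2 ρ)`, `a = (v-1) / 4`, `b = v (v-1) / (4 D)`: all side conditions hold. `v ≥ ξ/16 - 1 ≥ n/32 - 1`,
`h ≥ n/512 - 1`; for `n ≥ n0`: `v - 1 ≥ n/64`, `a - 4m ≥ n/512`, `h - (4m+4) ≥ n/1024`. If `b < 8 m` then `v (v-1) < 32 m D`, so `n^2 ≤ K D`. If `dr < 2 (4m+4)` then `e0 < 4 (4m+4) ρ`, so `n^2 ≤ K ρ`.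
Otherwise `b - 4m ≥ b/2 ≥ v (v-1)/(16 D)` (as `b ≥ 1`, `b ≥ v(v-1)/(8D)`) `≥ n^2/(65536 D)`, `dr - (4m+4) ≥ dr/2 ≥ e0/(8 ρ) ≥ n^2/(1024 ρ)`, and the hypothesis gives
`(n/64)^2 (n^2/(65536 D))^m (n/512)^(m-1) ((n/1024) (n^2/(1024 ρ)))^(2m+2) ≤ 2 n^(4m+4) k^(4m)`, i.e. (exponent of `n`: `2 + 2m + (m-1) + 3(2m+2) - (4m+4) = 5m+3`)
`n^(5m+3) ≤ K D^m ρ^(2m+2)`, `K = 2 k^(4m) 64^2 65536^m 512^(m-1) 1048576^(2m+2)` (plus 1 and the two other constants).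
-/

namespace Pool.Agent.Lib.LocD

theorem numeric_Ca (m k : ℕ) (hm : 1 ≤ m) : ∃ K : ℝ, 1 ≤ K ∧ ∃ n0 : ℕ, ∀ n q ξ ρ e0 D : ℕ, n0 ≤ n → n ≤ 16 * q → q ≤ n →
    n ≤ 2 * ξ → ξ ≤ n → 1 ≤ ρ → 1 ≤ D → q * ξ ≤ 4 * e0 →
    (∀ dr h v a b : ℕ, 2 * (dr * ρ) ≤ e0 → 1 ≤ h → 2 * (q * v + h * n) ≤ e0 → 2 * (a * v + b * D) ≤ v * (v - 1) →
      v * (v - 1) * ((b - 4 * m) ^ m * (a - 4 * m) ^ (m - 1)) *
          ((h - (4 * m + 4)) * (dr - (4 * m + 4))) ^ (2 * m + 2) ≤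
        2 * (q ^ (4 * m + 4) * k ^ (4 * m))) →
    (n : ℝ) ^ 2 ≤ K * D ∨ (n : ℝ) ^ 2 ≤ K * ρ ∨ (n : ℝ) ^ (5 * m + 3) ≤ K * ((D : ℝ) ^ m * (ρ : ℝ) ^ (2 * m + 2)) := by
  obtain ⟨C2, hC2⟩ : ∃ C2 : ℝ, C2 = 2 * (k : ℝ) ^ (4 * m) * 64 ^ 2 * 65536 ^ m * 512 ^ (m - 1) *
      1048576 ^ (2 * m + 2) := ⟨_, rfl⟩
  have hC20 : 0 ≤ C2 := by rw [hC2]; positivity
  have hmR : (0 : ℝ) ≤ m := Nat.cast_nonneg _
  refine ⟨C2 + 1 + 131072 * m + 2048 * (m + 1), ?_, 1024 * (4 * m + 5), ?_⟩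
  · linarith
  intro n q ξ ρ e0 D hn h1 h2 h3 h4 hρ hD he H
  have hn1 : 1 ≤ n := by omega
  have hq1 : 1 ≤ q := by omega
  have hnR : (1 : ℝ) ≤ n := by exact_mod_cast hn1
  have hn0 : (0 : ℝ) < n := by linarith
  have hρR : (1 : ℝ) ≤ ρ := by exact_mod_cast hρ
  have hDR : (1 : ℝ) ≤ D := by exact_mod_cast hD
  have hnn : n * n ≤ 32 * (q * ξ) := by
    calc n * n ≤ (16 * q) * (2 * ξ) := Nat.mul_le_mul h1 h3
      _ = 32 * (q * ξ) := by ring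
  have hne : n * n ≤ 128 * e0 := by omega
  obtain ⟨v, hv⟩ : ∃ v, v = e0 / (4 * q) := ⟨_, rfl⟩
  obtain ⟨h, hh⟩ : ∃ h, h = e0 / (4 * n) := ⟨_, rfl⟩
  obtain ⟨dr, hdr⟩ : ∃ dr, dr = e0 / (2 * ρ) := ⟨_, rfl⟩
  obtain ⟨a, ha⟩ : ∃ a, a = (v - 1) / 4 := ⟨_, rfl⟩
  obtain ⟨b, hb⟩ : ∃ b, b = v * (v - 1) / (4 * D) := ⟨_, rfl⟩
  have hv1 : 4 * q * v ≤ e0 := by rw [hv]; exact Nat.mul_div_le _ _
  have hv2 : e0 < 4 * q * (v + 1) := by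
    rw [hv]; exact Nat.lt_mul_div_succ e0 (by omega)
  have hh1 : 4 * n * h ≤ e0 := by rw [hh]; exact Nat.mul_div_le _ _
  have hh2 : e0 < 4 * n * (h + 1) := by
    rw [hh]; exact Nat.lt_mul_div_succ e0 (by omega)
  have hr1 : 2 * ρ * dr ≤ e0 := by rw [hdr]; exact Nat.mul_div_le _ _
  have hr2 : e0 < 2 * ρ * (dr + 1) := by
    rw [hdr]; exact Nat.lt_mul_div_succ e0 (by omega)
  have hb1 : 4 * D * b ≤ v * (v - 1) := by rw [hb]; exact Nat.mul_div_le _ _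
  have hb2 : v * (v - 1) < 4 * D * (b + 1) := by
    rw [hb]; exact Nat.lt_mul_div_succ _ (by omega)
  have hvξ : ξ < 16 * (v + 1) := by
    by_contra hcon
    push Not at hcon
    have : q * (16 * (v + 1)) ≤ q * ξ := Nat.mul_le_mul_left _ hcon
    have e1 : q * (16 * (v + 1)) = 4 * (4 * q * (v + 1)) := by ring
    omega
  have hhn : n < 512 * (h + 1) := by
    by_contra hcon
    push Not at hcon
    have : n * (512 * (h + 1)) ≤ n * n := Nat.mul_le_mul_left _ hcon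
    have e1 : n * (512 * (h + 1)) = 128 * (4 * n * (h + 1)) := by ring
    omega
  have hh0 : 1 ≤ h := by omega
  have hcond2 : 2 * (q * v + h * n) ≤ e0 := by
    have e1 : 4 * q * v = 4 * (q * v) := by ring
    have e2 : 4 * n * h = 4 * (h * n) := by ring
    omega
  have hcond1 : 2 * (dr * ρ) ≤ e0 := by
    have e1 : 2 * ρ * dr = 2 * (dr * ρ) := by ring
    omega
  have hcond3 : 2 * (a * v + b * D) ≤ v * (v - 1) := by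
    have e1 : 4 * a ≤ v - 1 := by omega
    have e2 : v * (4 * a) ≤ v * (v - 1) := Nat.mul_le_mul_left _ e1
    have e3 : v * (4 * a) = 4 * (a * v) := by ring
    have e4 : 4 * D * b = 4 * (b * D) := by ring
    omega
  have hH := H dr h v a b hcond1 hh0 hcond2 hcond3
  have hvR : (n : ℝ) / 64 ≤ ((v - 1 : ℕ) : ℝ) := by
    rw [div_le_iff₀ (by norm_num)]
    have : n ≤ (v - 1) * 64 := by omega
    exact_mod_cast this
  have hVR : ((n : ℝ) / 64) ^ 2 ≤ ((v * (v - 1) : ℕ) : ℝ) := by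
    rw [pow_two, Nat.cast_mul]
    have : ((v - 1 : ℕ) : ℝ) ≤ (v : ℝ) := by exact_mod_cast Nat.sub_le _ _
    exact mul_le_mul (hvR.trans this) hvR (by positivity) (by positivity)
  have hc1 : (n : ℝ) ^ 2 ≤ 128 * e0 := by
    rw [pow_two]
    exact_mod_cast hne
  by_cases hcb : b < 8 * m
  · left
    have b1 : v * (v - 1) ≤ 32 * (m * D) := by
      have : 4 * D * (b + 1) ≤ 4 * D * (8 * m) := Nat.mul_le_mul_left _ hcb
      calc v * (v - 1) ≤ 4 * D * (b + 1) := hb2.le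
        _ ≤ 4 * D * (8 * m) := this
        _ = 32 * (m * D) := by ring
    have b2 : ((v * (v - 1) : ℕ) : ℝ) ≤ 32 * (m * D) := by exact_mod_cast b1
    have b3 : (n : ℝ) ^ 2 ≤ 131072 * m * D := by
      have b4 := hVR.trans b2
      rw [div_pow, div_le_iff₀ (by norm_num)] at b4
      refine b4.trans (le_of_eq ?_)
      ring
    have b5 : 0 ≤ (C2 + 1 + 2048 * ((m : ℝ) + 1)) * D := by positivity
    calc (n : ℝ) ^ 2 ≤ 131072 * m * D := b3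
      _ ≤ 131072 * m * D + (C2 + 1 + 2048 * ((m : ℝ) + 1)) * D := by linarith
      _ = (C2 + 1 + 131072 * m + 2048 * (m + 1)) * D := by ring
  right
  by_cases hcr : dr < 2 * (4 * m + 4)
  · left
    have b1 : e0 ≤ 16 * ((m + 1) * ρ) := by
      have : 2 * ρ * (dr + 1) ≤ 2 * ρ * (2 * (4 * m + 4)) := Nat.mul_le_mul_left _ hcr
      calc e0 ≤ 2 * ρ * (dr + 1) := hr2.le
        _ ≤ 2 * ρ * (2 * (4 * m + 4)) := this
        _ = 16 * ((m + 1) * ρ) := by ring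
    have b2 : (e0 : ℝ) ≤ 16 * ((m + 1) * ρ) := by exact_mod_cast b1
    have b5 : 0 ≤ (C2 + 1 + 131072 * (m : ℝ)) * ρ := by positivity
    calc (n : ℝ) ^ 2 ≤ 128 * e0 := hc1
      _ ≤ 2048 * ((m + 1) * ρ) := by linarith
      _ ≤ 2048 * ((m + 1) * ρ) + (C2 + 1 + 131072 * (m : ℝ)) * ρ := by linarith
      _ = (C2 + 1 + 131072 * m + 2048 * (m + 1)) * ρ := by ring
  right
  push Not at hcb hcr
  have hbR : (n : ℝ) ^ 2 / (65536 * D) ≤ ((b - 4 * m : ℕ) : ℝ) := by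
    rw [div_le_iff₀ (by positivity)]
    have b1 : v * (v - 1) ≤ (b - 4 * m) * (16 * D) := by
      have b2 : b + 1 ≤ (b - 4 * m) * 4 := by omega
      calc v * (v - 1) ≤ 4 * D * (b + 1) := hb2.le
        _ ≤ 4 * D * ((b - 4 * m) * 4) := Nat.mul_le_mul_left _ b2
        _ = (b - 4 * m) * (16 * D) := by ring
    have b3 : ((v * (v - 1) : ℕ) : ℝ) ≤ ((b - 4 * m : ℕ) : ℝ) * (16 * D) := by exact_mod_cast b1
    have b4 := hVR.trans b3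
    rw [div_pow, div_le_iff₀ (by norm_num)] at b4
    refine b4.trans (le_of_eq ?_)
    ring
  have hrR : (n : ℝ) ^ 2 / (1024 * ρ) ≤ ((dr - (4 * m + 4) : ℕ) : ℝ) := by
    rw [div_le_iff₀ (by positivity)]
    have b1 : e0 ≤ (dr - (4 * m + 4)) * (8 * ρ) := by
      have b2 : dr + 1 ≤ (dr - (4 * m + 4)) * 4 := by omega
      calc e0 ≤ 2 * ρ * (dr + 1) := hr2.le
        _ ≤ 2 * ρ * ((dr - (4 * m + 4)) * 4) := Nat.mul_le_mul_left _ b2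
        _ = (dr - (4 * m + 4)) * (8 * ρ) := by ring
    have b3 : (e0 : ℝ) ≤ ((dr - (4 * m + 4) : ℕ) : ℝ) * (8 * ρ) := by exact_mod_cast b1
    calc (n : ℝ) ^ 2 ≤ 128 * e0 := hc1
      _ ≤ 128 * (((dr - (4 * m + 4) : ℕ) : ℝ) * (8 * ρ)) := by linarith
      _ = _ := by ring
  have haR : (n : ℝ) / 512 ≤ ((a - 4 * m : ℕ) : ℝ) := by
    rw [div_le_iff₀ (by norm_num)]
    have : n ≤ (a - 4 * m) * 512 := by omega
    exact_mod_cast this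
  have hhR : (n : ℝ) / 1024 ≤ ((h - (4 * m + 4) : ℕ) : ℝ) := by
    rw [div_le_iff₀ (by norm_num)]
    have : n ≤ (h - (4 * m + 4)) * 1024 := by omega
    exact_mod_cast this
  have hHR : ((v * (v - 1) : ℕ) : ℝ) * (((b - 4 * m : ℕ) : ℝ) ^ m * ((a - 4 * m : ℕ) : ℝ) ^ (m - 1)) *
      (((h - (4 * m + 4) : ℕ) : ℝ) * ((dr - (4 * m + 4) : ℕ) : ℝ)) ^ (2 * m + 2) ≤
      2 * ((q : ℝ) ^ (4 * m + 4) * (k : ℝ) ^ (4 * m)) := by exact_mod_cast hH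
  have hqR : (q : ℝ) ≤ n := by exact_mod_cast h2
  have hup : 2 * ((q : ℝ) ^ (4 * m + 4) * (k : ℝ) ^ (4 * m)) ≤
      2 * ((n : ℝ) ^ (4 * m + 4) * (k : ℝ) ^ (4 * m)) := by gcongr
  have hmain : ((n : ℝ) / 64) ^ 2 * (((n : ℝ) ^ 2 / (65536 * D)) ^ m * ((n : ℝ) / 512) ^ (m - 1)) *
      (((n : ℝ) / 1024) * ((n : ℝ) ^ 2 / (1024 * ρ))) ^ (2 * m + 2) ≤
      2 * ((n : ℝ) ^ (4 * m + 4) * (k : ℝ) ^ (4 * m)) := by
    refine le_trans ?_ (hHR.trans hup)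
    gcongr
  obtain ⟨t, rfl⟩ : ∃ t, m = t + 1 := ⟨m - 1, by omega⟩
  have ht : t + 1 - 1 = t := by omega
  rw [ht] at hmain hC2
  have hP : (0 : ℝ) < (n : ℝ) ^ (4 * (t + 1) + 4) := by positivity
  have hfin : (n : ℝ) ^ (5 * (t + 1) + 3) ≤ C2 * ((D : ℝ) ^ (t + 1) * (ρ : ℝ) ^ (2 * (t + 1) + 2)) := by
    have e1 : (n : ℝ) ^ (4 * (t + 1) + 4) * (n : ℝ) ^ (5 * (t + 1) + 3) ≤
        (n : ℝ) ^ (4 * (t + 1) + 4) * (C2 * ((D : ℝ) ^ (t + 1) * (ρ : ℝ) ^ (2 * (t + 1) + 2))) := by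
      have e2 : (n : ℝ) ^ (4 * (t + 1) + 4) * (n : ℝ) ^ (5 * (t + 1) + 3) =
          (64 ^ 2 * 65536 ^ (t + 1) * 512 ^ t * 1048576 ^ (2 * (t + 1) + 2) *
            ((D : ℝ) ^ (t + 1) * (ρ : ℝ) ^ (2 * (t + 1) + 2))) *
          (((n : ℝ) / 64) ^ 2 * (((n : ℝ) ^ 2 / (65536 * D)) ^ (t + 1) * ((n : ℝ) / 512) ^ t) *
            (((n : ℝ) / 1024) * ((n : ℝ) ^ 2 / (1024 * ρ))) ^ (2 * (t + 1) + 2)) := by
        have f0 : ((n : ℝ) / 1024) * ((n : ℝ) ^ 2 / (1024 * ρ)) = (n : ℝ) ^ 3 / (1048576 * ρ) := by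
          field_simp
          norm_num
        rw [f0, div_pow, div_pow, div_pow, div_pow, mul_pow (65536 : ℝ), mul_pow (1048576 : ℝ),
          ← pow_mul, ← pow_mul]
        have f1 : (65536 : ℝ) ^ (t + 1) ≠ 0 := by positivity
        have f2 : (512 : ℝ) ^ t ≠ 0 := by positivity
        have f3 : (1048576 : ℝ) ^ (2 * (t + 1) + 2) ≠ 0 := by positivity
        have f4 : (D : ℝ) ^ (t + 1) ≠ 0 := by positivity
        have f5 : (ρ : ℝ) ^ (2 * (t + 1) + 2) ≠ 0 := by positivity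
        have f6 : ((64 : ℝ) ^ 2) ≠ 0 := by positivity
        generalize (65536 : ℝ) ^ (t + 1) = A1 at *
        generalize (512 : ℝ) ^ t = A2 at *
        generalize (1048576 : ℝ) ^ (2 * (t + 1) + 2) = A3 at *
        generalize (D : ℝ) ^ (t + 1) = A4 at *
        generalize (ρ : ℝ) ^ (2 * (t + 1) + 2) = A5 at *
        generalize (64 : ℝ) ^ 2 = A6 at *
        have g1 : A6 * A1 * A2 * A3 * (A4 * A5) *
            ((n : ℝ) ^ 2 / A6 * ((n : ℝ) ^ (2 * (t + 1)) / (A1 * A4) * ((n : ℝ) ^ t / A2)) *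
              ((n : ℝ) ^ (3 * (2 * (t + 1) + 2)) / (A3 * A5))) =
            (n : ℝ) ^ 2 * (n : ℝ) ^ (2 * (t + 1)) * (n : ℝ) ^ t * (n : ℝ) ^ (3 * (2 * (t + 1) + 2)) := by
          field_simp
        rw [g1, ← pow_add, ← pow_add, ← pow_add, ← pow_add]
        congr 1
        ring
      rw [e2]
      have e3 : (n : ℝ) ^ (4 * (t + 1) + 4) * (C2 * ((D : ℝ) ^ (t + 1) * (ρ : ℝ) ^ (2 * (t + 1) + 2))) =
          (64 ^ 2 * 65536 ^ (t + 1) * 512 ^ t * 1048576 ^ (2 * (t + 1) + 2) *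
            ((D : ℝ) ^ (t + 1) * (ρ : ℝ) ^ (2 * (t + 1) + 2))) *
          (2 * ((n : ℝ) ^ (4 * (t + 1) + 4) * (k : ℝ) ^ (4 * (t + 1)))) := by
        rw [hC2]
        ring
      rw [e3]
      exact mul_le_mul_of_nonneg_left hmain (by positivity)
    exact le_of_mul_le_mul_left e1 hP
  have hlast : 0 ≤ (1 + 131072 * ((t + 1 : ℕ) : ℝ) + 2048 * (((t + 1 : ℕ) : ℝ) + 1)) *
      ((D : ℝ) ^ (t + 1) * (ρ : ℝ) ^ (2 * (t + 1) + 2)) := by positivity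
  calc (n : ℝ) ^ (5 * (t + 1) + 3) ≤ C2 * ((D : ℝ) ^ (t + 1) * (ρ : ℝ) ^ (2 * (t + 1) + 2)) := hfin
    _ ≤ C2 * ((D : ℝ) ^ (t + 1) * (ρ : ℝ) ^ (2 * (t + 1) + 2)) +
        (1 + 131072 * ((t + 1 : ℕ) : ℝ) + 2048 * (((t + 1 : ℕ) : ℝ) + 1)) *
      ((D : ℝ) ^ (t + 1) * (ρ : ℝ) ^ (2 * (t + 1) + 2)) := by linarith
    _ = _ := by ring

end Pool.Agent.Lib.LocD
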