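import Mathlib

/-!
# LocD.CNb: second numerical end

PROOF. `L = log n ≥ 1`, `2 w + 1 ≤ 60 D L / √n + 3`. CASE `n^2 ≤ K D`: clear (`6/5 - ε ≤ 2`). CASE `n^2 ≤ K ρ ≤ K (60 D^2 L/√n + 3 D)`: either `n^2 ≤ 6 K D` or `n^(5/2) ≤ 120 K D^2 L`,
`D ≥ n^(5/4)/√(120 K L)` and `√L ≤ C n^(1/20)`. CASE 3: if `60 D L/√n ≥ 3` then `ρ ≤ 120 D^2 L/√n` and `n^(5m+3) ≤ K D^m (120 L)^(2m+2) D^(4m+4) n^(-(m+1))`, so
`n^(6m+4) ≤ K' L^(2m+2) D^(5m+4)`, `K' = K 120^(2m+2)`; take the power `1/(5m+4)`: `n^((6m+4)/(5m+4)) ≤ K'' L^((2m+2)/(5m+4)) D`, `(6m+4)/(5m+4) = 6/5 - 4/(25m+20)` and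
`L^((2m+2)/(5m+4)) ≤ L ≤ C n^(ε - 4/(25m+20))` (`Real.log_le_rpow_div`). Otherwise `D ≤ √n` (as `20 D L < √n`), `ρ ≤ 6 D ≤ 6 √n` and `n^(5m+3) ≤ K 6^(2m+2) n^(m/2 + m + 1)`, so `n ≤ n^(7m/2+2) ≤ K 6^(2m+2)`
is bounded, and `D ≥ 1` suffices if `c` is small.
-/

namespace Pool.Agent.Lib.LocD

private theorem cnb_pow {x D M : ℝ} {q : ℕ} (hD : 0 ≤ D) (hM : 1 ≤ M) (hq : q ≠ 0)
    (h : x ^ q ≤ M * D ^ q) : x ≤ M * D := by
  have h1 : M ≤ M ^ q := le_self_pow₀ hM hq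
  have h2 : x ^ q ≤ (M * D) ^ q := by
    rw [mul_pow]
    exact h.trans (mul_le_mul_of_nonneg_right h1 (pow_nonneg hD q))
  exact le_of_pow_le_pow_left₀ hq (mul_nonneg (by linarith) hD) h2

private theorem cnb_3a (m : ℕ) (K ε η C : ℝ) (hK : 1 ≤ K) (hη : 0 < η)
    (hεη : ε = η + 4 / (25 * (m : ℝ) + 20)) (hC : 1 ≤ C) (n D L ρ : ℝ) (hn : 1 ≤ n)
    (hD : 0 ≤ D) (hL : 0 ≤ L) (hρ : 0 ≤ ρ) (hLC : L ≤ C * n ^ η)
    (hρ1 : ρ * Real.sqrt n ≤ 120 * D ^ 2 * L)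
    (h : n ^ (5 * m + 3) ≤ K * (D ^ m * ρ ^ (2 * m + 2))) :
    n ^ (6 / 5 - ε) ≤ K * (120 * C) ^ (2 * m + 2) * D := by
  have hn0 : 0 < n := by linarith
  have hs : Real.sqrt n ^ (2 * m + 2) = n ^ (m + 1) := by
    rw [show 2 * m + 2 = 2 * (m + 1) by ring, pow_mul, Real.sq_sqrt hn0.le]
  have hsq : 0 ≤ Real.sqrt n := Real.sqrt_nonneg n
  have h1 : ρ ^ (2 * m + 2) * n ^ (m + 1) ≤ (120 * D ^ 2 * L) ^ (2 * m + 2) := by
    rw [← hs, ← mul_pow]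
    exact pow_le_pow_left₀ (mul_nonneg hρ hsq) hρ1 _
  have h2 : n ^ (6 * m + 4) ≤ K * ((120 * L) ^ (2 * m + 2) * D ^ (5 * m + 4)) := by
    have e1 : n ^ (6 * m + 4) = n ^ (5 * m + 3) * n ^ (m + 1) := by
      rw [← pow_add]; congr 1; ring
    have e2 : (120 * L) ^ (2 * m + 2) * D ^ (5 * m + 4) =
        D ^ m * (120 * D ^ 2 * L) ^ (2 * m + 2) := by
      rw [show 120 * D ^ 2 * L = (120 * L) * D ^ 2 by ring, mul_pow (120 * L) (D ^ 2), ← pow_mul,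
        show 5 * m + 4 = m + 2 * (2 * m + 2) by ring, pow_add]
      ring
    rw [e1, e2]
    calc n ^ (5 * m + 3) * n ^ (m + 1) ≤ K * (D ^ m * ρ ^ (2 * m + 2)) * n ^ (m + 1) :=
          mul_le_mul_of_nonneg_right h (by positivity)
      _ = K * (D ^ m * (ρ ^ (2 * m + 2) * n ^ (m + 1))) := by ring
      _ ≤ _ := by
          refine mul_le_mul_of_nonneg_left ?_ (by linarith)
          exact mul_le_mul_of_nonneg_left h1 (pow_nonneg hD m)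
  have hnη : 1 ≤ n ^ η := Real.one_le_rpow hn hη.le
  have h3 : (120 * L) ^ (2 * m + 2) ≤ (120 * C) ^ (2 * m + 2) * (n ^ η) ^ (5 * m + 4) := by
    calc (120 * L) ^ (2 * m + 2) ≤ (120 * C * n ^ η) ^ (2 * m + 2) := by
          refine pow_le_pow_left₀ (by positivity) ?_ _
          nlinarith
      _ = (120 * C) ^ (2 * m + 2) * (n ^ η) ^ (2 * m + 2) := by rw [mul_pow]
      _ ≤ _ := by
          refine mul_le_mul_of_nonneg_left ?_ (by positivity)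
          exact pow_le_pow_right₀ hnη (by omega)
  have h4 : (n ^ (6 / 5 - ε) * n ^ η) ^ (5 * m + 4) = n ^ (6 * m + 4) := by
    rw [← Real.rpow_add hn0, ← Real.rpow_natCast, ← Real.rpow_mul hn0.le,
      ← Real.rpow_natCast n (6 * m + 4)]
    congr 1
    rw [hεη]
    push_cast
    have : (25 * (m : ℝ) + 20) ≠ 0 := by positivity
    field_simp
    ring
  have h5 : (n ^ (6 / 5 - ε)) ^ (5 * m + 4) * (n ^ η) ^ (5 * m + 4) ≤
      (K * (120 * C) ^ (2 * m + 2) * D ^ (5 * m + 4)) * (n ^ η) ^ (5 * m + 4) := by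
    rw [← mul_pow, h4]
    refine h2.trans ?_
    have h6 : (120 * L) ^ (2 * m + 2) * D ^ (5 * m + 4) ≤
        (120 * C) ^ (2 * m + 2) * (n ^ η) ^ (5 * m + 4) * D ^ (5 * m + 4) :=
      mul_le_mul_of_nonneg_right h3 (pow_nonneg hD _)
    have h7 := mul_le_mul_of_nonneg_left h6 (by linarith : (0 : ℝ) ≤ K)
    refine h7.trans (le_of_eq ?_)
    ring
  have h8 : (n ^ (6 / 5 - ε)) ^ (5 * m + 4) ≤
      K * (120 * C) ^ (2 * m + 2) * D ^ (5 * m + 4) :=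
    le_of_mul_le_mul_right h5 (by positivity)
  refine cnb_pow hD ?_ (by omega) h8
  have h9 : (1 : ℝ) ≤ (120 * C) ^ (2 * m + 2) := one_le_pow₀ (by linarith)
  nlinarith

theorem numeric_Cb (m : ℕ) (hm : 1 ≤ m) (K ε : ℝ) (hK : 1 ≤ K) (hε : 4 / (25 * (m : ℝ) + 20) < ε) : ∃ c : ℝ, 0 < c ∧
    ∀ n D w ρ : ℕ, 10000 ≤ n → 1 ≤ D →
    (w : ℝ) ≤ 30 * D * Real.log n / Real.sqrt n + 1 → ρ ≤ D * (2 * w + 1) →
    ((n : ℝ) ^ 2 ≤ K * D ∨ (n : ℝ) ^ 2 ≤ K * ρ ∨ (n : ℝ) ^ (5 * m + 3) ≤ K * ((D : ℝ) ^ m * (ρ : ℝ) ^ (2 * m + 2))) →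
    c * (n : ℝ) ^ (6 / 5 - ε) ≤ D := by
  have _ := hm
  obtain ⟨η, hη⟩ : ∃ η : ℝ, η = ε - 4 / (25 * (m : ℝ) + 20) := ⟨_, rfl⟩
  have hη0 : 0 < η := by rw [hη]; linarith
  have hε0 : 0 < ε := by
    have : (0 : ℝ) < 4 / (25 * (m : ℝ) + 20) := by positivity
    linarith
  obtain ⟨C, hC⟩ : ∃ C : ℝ, C = 1 / η + 1 := ⟨_, rfl⟩
  have hη1 : 0 < 1 / η := by positivity
  have hC1 : 1 ≤ C := by rw [hC]; linarith
  obtain ⟨M3, hM3⟩ : ∃ M3 : ℝ, M3 = K * (120 * C) ^ (2 * m + 2) := ⟨_, rfl⟩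
  obtain ⟨M4, hM4⟩ : ∃ M4 : ℝ, M4 = K * 6 ^ (2 * m + 2) := ⟨_, rfl⟩
  have hM3p : 0 ≤ M3 := by rw [hM3]; positivity
  have hM4p : 0 ≤ M4 := by rw [hM4]; positivity
  obtain ⟨M, hM⟩ : ∃ M : ℝ, M = 1200 * K + M3 + M4 := ⟨_, rfl⟩
  have hMp : 0 < M := by rw [hM]; linarith
  refine ⟨1 / M, by positivity, ?_⟩
  intro n D w ρ hn hD hw hρ hcase
  have hnR : (10000 : ℝ) ≤ n := by exact_mod_cast hn
  have hn1 : (1 : ℝ) ≤ n := by linarith
  have hn0 : (0 : ℝ) < n := by linarith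
  have hDR : (1 : ℝ) ≤ D := by exact_mod_cast hD
  have hD0 : (0 : ℝ) ≤ D := by linarith
  obtain ⟨L, hL⟩ : ∃ L : ℝ, L = Real.log n := ⟨_, rfl⟩
  rw [← hL] at hw
  have hL0 : 0 ≤ L := by rw [hL]; exact Real.log_nonneg hn1
  have hsq : 0 < Real.sqrt n := Real.sqrt_pos.2 hn0
  have hρR : (ρ : ℝ) ≤ D * (60 * D * L / Real.sqrt n + 3) := by
    have h1 : (ρ : ℝ) ≤ D * (2 * w + 1) := by exact_mod_cast hρ
    refine h1.trans (mul_le_mul_of_nonneg_left ?_ hD0)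
    have h2 : 60 * D * L / Real.sqrt n = 2 * (30 * D * L / Real.sqrt n) := by ring
    rw [h2]
    linarith
  have hρ0 : (0 : ℝ) ≤ ρ := Nat.cast_nonneg ρ
  -- it suffices to bound the power by `M * D`
  suffices hX : (n : ℝ) ^ (6 / 5 - ε) ≤ M * D by
    rw [one_div, inv_mul_le_iff₀ hMp]
    exact hX
  have hXY : (n : ℝ) ^ (6 / 5 - ε) ≤ (n : ℝ) ^ ((6 : ℝ) / 5) :=
    Real.rpow_le_rpow_of_exponent_le hn1 (by linarith)
  have hX0 : 0 ≤ (n : ℝ) ^ (6 / 5 - ε) := by positivity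
  have hsimple : ∀ A : ℝ, A ≤ M → (n : ℝ) ^ 2 ≤ A * D → (n : ℝ) ^ (6 / 5 - ε) ≤ M * D := by
    intro A hA h
    have h1 : (n : ℝ) ^ (6 / 5 - ε) ≤ (n : ℝ) ^ 2 := by
      rw [← Real.rpow_natCast (n : ℝ) 2]
      exact Real.rpow_le_rpow_of_exponent_le hn1 (by push_cast; linarith)
    exact h1.trans (h.trans (mul_le_mul_of_nonneg_right hA hD0))
  rcases hcase with h | h | h
  · exact hsimple K (by rw [hM]; linarith) h
  · -- second case
    have h1 : (n : ℝ) ^ 2 ≤ K * (D * (60 * D * L / Real.sqrt n)) + 3 * K * D := by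
      have h2 := mul_le_mul_of_nonneg_left hρR (by linarith : (0 : ℝ) ≤ K)
      linarith
    rcases le_total ((n : ℝ) ^ 2) (6 * K * D) with h2 | h2
    · exact hsimple (6 * K) (by rw [hM]; linarith) h2
    · have h3 : (n : ℝ) ^ 2 ≤ 2 * (K * (D * (60 * D * L / Real.sqrt n))) := by linarith
      have h4 : (n : ℝ) ^ 2 * Real.sqrt n ≤ 120 * K * D ^ 2 * L := by
        have h5 : 2 * (K * (D * (60 * D * L / Real.sqrt n))) =
            (120 * K * D ^ 2 * L) / Real.sqrt n := by ring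
        rw [h5, le_div_iff₀ hsq] at h3
        exact h3
      have h5 : L ≤ 10 * (n : ℝ) ^ ((1 : ℝ) / 10) := by
        have h6 := Real.log_le_rpow_div hn0.le (show (0 : ℝ) < 1 / 10 by norm_num)
        rw [hL]
        refine h6.trans (le_of_eq ?_)
        ring
      have h6 : (n : ℝ) ^ 2 * Real.sqrt n ≤ 1200 * K * D ^ 2 * (n : ℝ) ^ ((1 : ℝ) / 10) := by
        refine h4.trans ?_
        have h7 : (0 : ℝ) ≤ 120 * K * D ^ 2 := by positivity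
        have h8 := mul_le_mul_of_nonneg_left h5 h7
        linarith
      have h7 : (n : ℝ) ^ 2 * Real.sqrt n =
          ((n : ℝ) ^ ((6 : ℝ) / 5)) ^ 2 * (n : ℝ) ^ ((1 : ℝ) / 10) := by
        rw [Real.sqrt_eq_rpow, ← Real.rpow_natCast (n : ℝ) 2, ← Real.rpow_add hn0,
          ← Real.rpow_natCast ((n : ℝ) ^ ((6 : ℝ) / 5)) 2, ← Real.rpow_mul hn0.le,
          ← Real.rpow_add hn0]
        congr 1
        push_cast
        norm_num
      rw [h7] at h6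
      have h8 : ((n : ℝ) ^ ((6 : ℝ) / 5)) ^ 2 ≤ 1200 * K * (D : ℝ) ^ 2 :=
        le_of_mul_le_mul_right h6 (by positivity)
      have h9 : ((n : ℝ) ^ (6 / 5 - ε)) ^ 2 ≤ 1200 * K * (D : ℝ) ^ 2 :=
        (pow_le_pow_left₀ hX0 hXY 2).trans h8
      refine (cnb_pow hD0 (by linarith) two_ne_zero h9).trans
        (mul_le_mul_of_nonneg_right ?_ hD0)
      rw [hM]; linarith
  · rcases le_total 3 (60 * D * L / Real.sqrt n) with h3 | h3
    · -- the main case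
      have h1 : (ρ : ℝ) * Real.sqrt n ≤ 120 * D ^ 2 * L := by
        have h2 : (ρ : ℝ) ≤ D * (2 * (60 * D * L / Real.sqrt n)) :=
          hρR.trans (mul_le_mul_of_nonneg_left (by linarith) hD0)
        have h4 : (D : ℝ) * (2 * (60 * D * L / Real.sqrt n)) = (120 * D ^ 2 * L) / Real.sqrt n := by
          ring
        rw [h4, le_div_iff₀ hsq] at h2
        exact h2
      have h2 : L ≤ C * (n : ℝ) ^ η := by
        have h4 := Real.log_le_rpow_div hn0.le hη0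
        rw [hL, hC]
        refine h4.trans ?_
        rw [div_eq_inv_mul, ← one_div]
        exact mul_le_mul_of_nonneg_right (by linarith) (by positivity)
      have h4 := cnb_3a m K ε η C hK hη0 (by rw [hη]; ring) hC1 n D L ρ hn1 hD0 hL0 hρ0 h2 h1 h
      refine h4.trans (mul_le_mul_of_nonneg_right ?_ hD0)
      rw [hM, hM3]; linarith
    · -- small `D`
      have h1 : (ρ : ℝ) ≤ 6 * D := by
        refine hρR.trans ?_
        rw [mul_comm (6 : ℝ)]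
        exact mul_le_mul_of_nonneg_left (by linarith) hD0
      have h2 : (n : ℝ) ^ (5 * m + 3) ≤ M4 * (D : ℝ) ^ (3 * m + 2) := by
        refine h.trans ?_
        have h4 : (ρ : ℝ) ^ (2 * m + 2) ≤ (6 * D) ^ (2 * m + 2) := pow_le_pow_left₀ hρ0 h1 _
        have h5 : (D : ℝ) ^ m * (ρ : ℝ) ^ (2 * m + 2) ≤ D ^ m * (6 * D) ^ (2 * m + 2) :=
          mul_le_mul_of_nonneg_left h4 (by positivity)
        refine (mul_le_mul_of_nonneg_left h5 (by linarith : (0 : ℝ) ≤ K)).trans (le_of_eq ?_)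
        rw [hM4, mul_pow, show 3 * m + 2 = m + (2 * m + 2) by ring, pow_add (D : ℝ) m]
        ring
      have h4 : ((n : ℝ) ^ (6 / 5 - ε)) ^ (3 * m + 2) ≤ (n : ℝ) ^ (5 * m + 3) := by
        refine (pow_le_pow_left₀ hX0 hXY _).trans ?_
        rw [← Real.rpow_natCast ((n : ℝ) ^ ((6 : ℝ) / 5)), ← Real.rpow_mul hn0.le,
          ← Real.rpow_natCast (n : ℝ) (5 * m + 3)]
        refine Real.rpow_le_rpow_of_exponent_le hn1 ?_
        push_cast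
        have : (0 : ℝ) ≤ m := Nat.cast_nonneg m
        nlinarith
      have h5 : (1 : ℝ) ≤ M4 := by
        rw [hM4]
        have : (1 : ℝ) ≤ 6 ^ (2 * m + 2) := one_le_pow₀ (by norm_num)
        nlinarith
      refine (cnb_pow hD0 h5 (by omega) (h4.trans h2)).trans
        (mul_le_mul_of_nonneg_right ?_ hD0)
      rw [hM]; linarith

end Pool.Agent.Lib.LocD
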