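import Pool.Agent.Lib.LocD.M1
import Pool.Agent.Lib.LocD.PN
import Pool.Agent.Lib.LocD.C8
import Pool.Agent.Lib.LocD.CNa
import Pool.Agent.Lib.LocD.CNb

/-!
# LocD.C9: exponent 6/5 for all constants

PROOF. Like `LocD.B8` (file B8.lean, proved). Choose `m ≥ 1` with `4/(25m+20) < ε`. `M = Mc m`, `γ = 1/(2M)`, `k0 = 2 * Cc m + 8 m + 9`. Let `k ≥ k0`, `ℓ ≥ C(k,2) - (1+γ) k`. There is no `k`-set `S ⊆ P` with
`M numDist S + (M+1) k ≤ M C(k,2) + Cc m`: it would give `numDist S ≤ C(k,2) - k - (k - Cc m)/M < C(k,2) - k - k/(2M) ≤ ℓ` (as `k > 2 Cc m`), against the local property.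
`numeric_Ca m k` gives `K, n0`; `numeric_Cb m K ε` gives `c1`. For `n = P.card ≥ max 10000 n0`: `params n D` (`D = numDist P ≥ 1`), `exists_gam` gives `G`, `R = strip D w`, `ρ = |R| ≥ 1`
because `q ≥ 1`, `ξ ≥ 1` and `N 0 ⊆ R` is not empty; `e0 = Σ |N i|`, `q ξ ≤ 4 e0`; `chains_bound` for all `dr, h, v, a, b` gives the hypothesis of `numeric_Ca`; `strip_card_le` that of
`numeric_Cb`. For `2 ≤ n < max 10000 n0 =: n1` use `D ≥ 1 ≥ c n1^2`. Take the smaller `c` (`n^(6/5-ε) ≤ n^2 ≤ n1^2`).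
-/

namespace Pool.Agent.Lib.LocD

open Finset

private lemma c9_numDist_pos {P : Finset Pl} (hP : 2 ≤ P.card) : 1 ≤ numDist P := by
  obtain ⟨p, hp, q, hq, hpq⟩ := Finset.one_lt_card.1 (by omega : 1 < P.card)
  exact Finset.card_pos.2 ⟨dist p q, mem_distSet hp hq hpq⟩

private lemma c9_no_set (m k ℓ : ℕ) (hk : 2 * Cc m + 8 * m + 9 ≤ k)
    (hℓ : (k.choose 2 : ℝ) - (1 + 1 / (2 * (Mc m : ℝ))) * k ≤ ℓ) (P : Finset Pl)
    (hloc : ∀ S ⊆ P, S.card = k → ℓ ≤ numDist S) :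
    ¬ ∃ S ⊆ P, S.card = k ∧ Mc m * numDist S + (Mc m + 1) * k ≤ Mc m * k.choose 2 + Cc m := by
  rintro ⟨S, hS, hSk, h⟩
  have h1 := hloc S hS hSk
  have hM : 0 < (Mc m : ℝ) := by
    have : 0 < Mc m := by unfold Mc; omega
    exact_mod_cast this
  have h2 : (Mc m : ℝ) * numDist S + (Mc m + 1) * k ≤ Mc m * (k.choose 2 : ℝ) + Cc m := by
    exact_mod_cast h
  have h3 : (ℓ : ℝ) ≤ numDist S := by exact_mod_cast h1
  have h4 : 2 * (Cc m : ℝ) + 8 * m + 9 ≤ k := by exact_mod_cast hk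
  have ht0 : (0 : ℝ) ≤ m := by positivity
  have h5 : (Mc m : ℝ) * ((k.choose 2 : ℝ) - (1 + 1 / (2 * (Mc m : ℝ))) * k) ≤
      Mc m * numDist S := mul_le_mul_of_nonneg_left (hℓ.trans h3) hM.le
  have h6 : (Mc m : ℝ) * ((k.choose 2 : ℝ) - (1 + 1 / (2 * (Mc m : ℝ))) * k) =
      Mc m * (k.choose 2 : ℝ) - Mc m * k - k / 2 := by
    field_simp
    ring
  rw [h6] at h5
  nlinarith

private lemma c9_rpow_small (ε : ℝ) (hε : 0 < ε) (n n1 : ℕ) (hn : 2 ≤ n) (hn1 : n ≤ n1) :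
    (1 / (n1 : ℝ) ^ 2) * (n : ℝ) ^ (6 / 5 - ε) ≤ 1 := by
  have h0 : (1 : ℝ) ≤ n := by
    have : 1 ≤ n := by omega
    exact_mod_cast this
  have h1 : (n : ℝ) ^ (6 / 5 - ε) ≤ (n : ℝ) ^ (2 : ℝ) :=
    Real.rpow_le_rpow_of_exponent_le h0 (by linarith)
  have h2 : (n : ℝ) ^ (2 : ℝ) = (n : ℝ) ^ 2 := by
    rw [← Real.rpow_natCast]
    norm_num
  have h3 : (n : ℝ) ≤ n1 := by exact_mod_cast hn1
  have h4 : (n : ℝ) ^ 2 ≤ (n1 : ℝ) ^ 2 := pow_le_pow_left₀ (by linarith) h3 2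
  have h5 : (0 : ℝ) < (n1 : ℝ) ^ 2 := by
    have : (0 : ℝ) < n1 := by linarith
    positivity
  rw [one_div, inv_mul_le_iff₀ h5, mul_one]
  rw [h2] at h1
  exact h1.trans h4

theorem six_fifths (ε : ℝ) (hε : 0 < ε) : ∃ γ : ℝ, 0 < γ ∧ ∃ k0 : ℕ, ∀ k : ℕ, k0 ≤ k → ∀ ℓ : ℕ,
    (k.choose 2 : ℝ) - (1 + γ) * k ≤ ℓ →
    ∃ c : ℝ, 0 < c ∧ ∀ P : Finset Pl, 2 ≤ P.card → (∀ S ⊆ P, S.card = k → ℓ ≤ numDist S) →
      c * (P.card : ℝ) ^ (6 / 5 - ε) ≤ numDist P := by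
  obtain ⟨m, hm⟩ := exists_nat_gt (1 / ε)
  have hm0 : (0 : ℝ) < m := lt_trans (by positivity) hm
  have hm1 : 1 ≤ m := by exact_mod_cast hm0
  have hm2 : 4 / (25 * (m : ℝ) + 20) < ε := by
    rw [div_lt_iff₀ (by positivity)]
    rw [div_lt_iff₀ hε] at hm
    nlinarith
  have hM : 0 < (Mc m : ℝ) := by
    have : 0 < Mc m := by unfold Mc; omega
    exact_mod_cast this
  refine ⟨1 / (2 * (Mc m : ℝ)), by positivity, 2 * Cc m + 8 * m + 9, ?_⟩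
  intro k hk ℓ hℓ
  obtain ⟨K, hK, n0, hKa⟩ := numeric_Ca m k hm1
  obtain ⟨c1, hc1, hKb⟩ := numeric_Cb m hm1 K ε hK hm2
  have hn1pos : (0 : ℝ) < ((max 10000 n0 : ℕ) : ℝ) := by
    have : 0 < max 10000 n0 := lt_of_lt_of_le (by norm_num) (le_max_left _ _)
    exact_mod_cast this
  refine ⟨min c1 (1 / ((max 10000 n0 : ℕ) : ℝ) ^ 2), lt_min hc1 (by positivity), ?_⟩
  intro P hP hloc
  have hD := c9_numDist_pos hP
  have hno := c9_no_set m k ℓ hk hℓ P hloc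
  have hpow : 0 ≤ (P.card : ℝ) ^ (6 / 5 - ε) := Real.rpow_nonneg (by positivity) _
  rcases Nat.lt_or_ge P.card (max 10000 n0) with hn | hn
  · have h1 := c9_rpow_small ε hε P.card (max 10000 n0) hP hn.le
    have h2 : min c1 (1 / ((max 10000 n0 : ℕ) : ℝ) ^ 2) * (P.card : ℝ) ^ (6 / 5 - ε) ≤
        (1 / ((max 10000 n0 : ℕ) : ℝ) ^ 2) * (P.card : ℝ) ^ (6 / 5 - ε) :=
      mul_le_mul_of_nonneg_right (min_le_right _ _) hpow
    have h3 : (1 : ℝ) ≤ numDist P := by exact_mod_cast hD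
    exact h2.trans (h1.trans h3)
  · have hn10 : 10000 ≤ P.card := (le_max_left _ _).trans hn
    have hn0 : n0 ≤ P.card := (le_max_right _ _).trans hn
    obtain ⟨α, ξ, t', m', q, w, hαξ, hs, hq, hw, hnq, hqn, hnξ, hξn, hwR⟩ :=
      params P.card (numDist P) hn10 hD
    obtain ⟨G, hN, hξN⟩ := exists_gam P α ξ t' m' q w hαξ hs hq hw
    have hq1 : 0 < q := by omega
    have hξ1 : 0 < ξ := by omega
    have hR1 : 1 ≤ (strip (numDist P) w).card := by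
      have h1 := (hξN 0 hq1).1
      have h2 := Finset.card_le_card (hN 0 hq1)
      omega
    have hsum : q * ξ ≤ 4 * ∑ i ∈ range q, (G.N i).card := by
      rw [Finset.mul_sum]
      calc q * ξ = ∑ _i ∈ range q, ξ := by simp
        _ ≤ ∑ i ∈ range q, 4 * (G.N i).card :=
          Finset.sum_le_sum fun i hi => (hξN i (Finset.mem_range.1 hi)).1
    have hmain := hKa P.card q ξ (strip (numDist P) w).card (∑ i ∈ range q, (G.N i).card)
      (numDist P) hn0 hnq hqn hnξ hξn hR1 hD hsum (by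
        intro dr h v a b hdr h1 hv hab
        exact G.chains_bound m k _ dr h v a b (by omega) hm1 (by omega) (strip (numDist P) w) hN
          le_rfl hdr h1 hv hab hno)
    have hfin := hKb P.card (numDist P) w (strip (numDist P) w).card hn10 hD hwR
      (strip_card_le _ _) hmain
    have h2 : min c1 (1 / ((max 10000 n0 : ℕ) : ℝ) ^ 2) * (P.card : ℝ) ^ (6 / 5 - ε) ≤
        c1 * (P.card : ℝ) ^ (6 / 5 - ε) :=
      mul_le_mul_of_nonneg_right (min_le_left _ _) hpow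
    exact h2.trans hfin

end Pool.Agent.Lib.LocD
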