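import Pool.Agent.Lib.LocD.Defs

/-!
# LocD.CDefs: chains of equal distances with legs

A walk with parameter `m` is a sequence `g 0, ..., g (2m-1)` of ordered pairs of points: `g (2j)` and `g (2j+1)` have the same length, `g (2j+1)` and
`g (2j+2)` have the same second point (the link points `z`). All first points, the second point of `g 0` and the second point of `g (2m-1)` are the
`2m+2` slots `xs m g l`. A root assignment `r` gives for every slot `l` two left vertices `r (2l)`, `r (2l+1)` of the graph with a common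
neighbour, the pair of ranks of the slot point seen from `r (2l)`.
-/

namespace Pool.Agent.Lib.LocD

open Finset

/-- the pair of ranks of the point `x` seen from the left vertex `i` -/
noncomputable def Gam.sg {P : Finset Pl} {q : ℕ} (G : Gam P q) (i : ℕ) (x : Pl) : ℕ × ℕ :=
  (rk (distSet P) (dist (G.a i) x), rk (distSet P) (dist (G.b i) x))

/-- a chain of `m` equalities of distances between pairs of `O` -/
structure IsWalk (O : Finset (Pl × Pl)) (m : ℕ) (g : ℕ → Pl × Pl) : Prop where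
  mem : ∀ j < 2 * m, g j ∈ O
  col : ∀ j < m, dist (g (2 * j)).1 (g (2 * j)).2 = dist (g (2 * j + 1)).1 (g (2 * j + 1)).2
  ver : ∀ j, j + 1 < m → (g (2 * j + 2)).2 = (g (2 * j + 1)).2
  inj : ∀ i < 2 * m, ∀ j < 2 * m, s((g i).1, (g i).2) = s((g j).1, (g j).2) → i = j
  tail : ∀ j, 2 * m ≤ j → g j = (0, 0)

/-- the slots of a walk -/
noncomputable def xs (m : ℕ) (g : ℕ → Pl × Pl) (l : ℕ) : Pl :=
  if l < 2 * m then (g l).1 else if l = 2 * m then (g 0).2 else (g (2 * m - 1)).2

/-- root assignments (legs) for a sequence `x 0, ..., x (2m+1)` of points in the graph with edge set `E` -/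
structure GoodRoots {P : Finset Pl} {q : ℕ} (G : Gam P q) (E : Finset (ℕ × (ℕ × ℕ))) (m : ℕ) (x : ℕ → Pl) (r : ℕ → ℕ) : Prop where
  inj : ∀ u < 4 * m + 4, ∀ v < 4 * m + 4, r u = r v → u = v
  e1 : ∀ l < 2 * m + 2, (r (2 * l), G.sg (r (2 * l)) (x l)) ∈ E
  e2 : ∀ l < 2 * m + 2, G.x (r (2 * l)) (G.sg (r (2 * l)) (x l)) = x l
  e3 : ∀ l < 2 * m + 2, (r (2 * l + 1), G.sg (r (2 * l)) (x l)) ∈ E
  tail : ∀ u, 4 * m + 4 ≤ u → r u = 0

/-- the second end of the leg at slot `l` -/
noncomputable def Gam.ys {P : Finset Pl} {q : ℕ} (G : Gam P q) (x : ℕ → Pl) (r : ℕ → ℕ) (l : ℕ) : Pl :=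
  G.x (r (2 * l + 1)) (G.sg (r (2 * l)) (x l))

/-- number of points added by one chain, at most -/
def Mc (m : ℕ) : ℕ := 5 * m + 3

/-- the constant of the excess bound -/
def Cc (m : ℕ) : ℕ := Mc m ^ 2 + (8 * m + 8) * (Mc m + 1)

end Pool.Agent.Lib.LocD
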