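import Mathlib

/-!
# Distinct distances with local properties: definitions (MP_5c8454_co)
-/

namespace Pool.Agent.Lib.LocD

open Finset

/-- the Euclidean plane -/
abbrev Pl : Type := EuclideanSpace ℝ (Fin 2)

/-- the set of the distances between two different points of the finite set `S` -/
noncomputable def distSet (S : Finset Pl) : Finset ℝ :=
  S.offDiag.image (fun p => dist p.1 p.2)

/-- the number of distinct distances spanned by `S` -/
noncomputable def numDist (S : Finset Pl) : ℕ := (distSet S).card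

/-- rank of a real number in a finite set: the number of smaller elements -/
noncomputable def rk (D : Finset ℝ) (r : ℝ) : ℕ := (D.filter (fun d => d < r)).card

/-- the strip of width `w` around the diagonal of `[D] x [D]` -/
def strip (D w : ℕ) : Finset (ℕ × ℕ) :=
  ((range D) ×ˢ (range D)).filter (fun s => s.1 ≤ s.2 + w ∧ s.2 ≤ s.1 + w)

/-- The bipartite graph: left vertices `i < q` are disjoint pairs `(a i, b i)`, right vertices are pairs of ranks, `s` is a
neighbour of `i` if some point `x i s` has distances of ranks `s.1`, `s.2` from `a i`, `b i`. -/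
structure Gam (P : Finset Pl) (q : ℕ) where
  a : ℕ → Pl
  b : ℕ → Pl
  x : ℕ → ℕ × ℕ → Pl
  N : ℕ → Finset (ℕ × ℕ)
  aP : ∀ i < q, a i ∈ P
  bP : ∀ i < q, b i ∈ P
  xP : ∀ i < q, ∀ s ∈ N i, x i s ∈ P
  ainj : ∀ i < q, ∀ j < q, a i = a j → i = j
  binj : ∀ i < q, ∀ j < q, b i = b j → i = j
  ab : ∀ i < q, ∀ j < q, a i ≠ b j
  ax : ∀ i < q, ∀ j < q, ∀ s ∈ N j, a i ≠ x j s
  bx : ∀ i < q, ∀ j < q, ∀ s ∈ N j, b i ≠ x j s
  ra : ∀ i < q, ∀ s ∈ N i, rk (distSet P) (dist (a i) (x i s)) = s.1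
  rb : ∀ i < q, ∀ s ∈ N i, rk (distSet P) (dist (b i) (x i s)) = s.2

/-- the points belonging to a set `L` of left vertices and a set `F` of edges -/
noncomputable def Gam.pts {P : Finset Pl} {q : ℕ} (G : Gam P q) (L : Finset ℕ) (F : Finset (ℕ × (ℕ × ℕ))) : Finset Pl :=
  L.image G.a ∪ L.image G.b ∪ F.image (fun e => G.x e.1 e.2)

theorem mem_distSet {S : Finset Pl} {p q : Pl} (hp : p ∈ S) (hq : q ∈ S) (h : p ≠ q) : dist p q ∈ distSet S :=
  mem_image.2 ⟨(p, q), by simp [hp, hq, h], rfl⟩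

theorem distSet_pos {S : Finset Pl} {r : ℝ} (h : r ∈ distSet S) : 0 < r := by
  obtain ⟨e, he, rfl⟩ := mem_image.1 h
  exact dist_pos.2 (by simpa using (mem_offDiag.1 he).2.2)

theorem distSet_mono {S T : Finset Pl} (h : S ⊆ T) : distSet S ⊆ distSet T :=
  image_subset_image (offDiag_mono h)

theorem rk_mono (D : Finset ℝ) {r s : ℝ} (h : r ≤ s) : rk D r ≤ rk D s :=
  card_le_card (fun d hd => by
    rw [mem_filter] at hd ⊢
    exact ⟨hd.1, lt_of_lt_of_le hd.2 h⟩)

theorem rk_lt_of_lt {D : Finset ℝ} {r s : ℝ} (hr : r ∈ D) (h : r < s) : rk D r < rk D s := by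
  refine card_lt_card ?_
  rw [ssubset_iff_of_subset]
  · exact ⟨r, by simp [hr, h], by simp⟩
  · intro d hd
    rw [mem_filter] at hd ⊢
    exact ⟨hd.1, hd.2.trans h⟩

theorem rk_inj {D : Finset ℝ} {r s : ℝ} (hr : r ∈ D) (hs : s ∈ D) (h : rk D r = rk D s) : r = s := by
  rcases lt_trichotomy r s with h1 | h1 | h1
  · exact absurd h (rk_lt_of_lt hr h1).ne
  · exact h1
  · exact absurd h (rk_lt_of_lt hs h1).ne'

theorem rk_lt_card {D : Finset ℝ} {r : ℝ} (hr : r ∈ D) : rk D r < D.card := by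
  refine card_lt_card ?_
  rw [ssubset_iff_of_subset (filter_subset _ _)]
  exact ⟨r, hr, by simp⟩

theorem mem_strip {D w : ℕ} {s : ℕ × ℕ} : s ∈ strip D w ↔ (s.1 < D ∧ s.2 < D) ∧ s.1 ≤ s.2 + w ∧ s.2 ≤ s.1 + w := by
  simp [strip]

theorem strip_card_le (D w : ℕ) : (strip D w).card ≤ D * (2 * w + 1) := by
  have h : strip D w ⊆ (range D).biUnion (fun i => (Finset.Icc (i - w) (i + w)).image (fun j => (i, j))) := by
    intro s hs
    obtain ⟨⟨h1, -⟩, h3, h4⟩ := mem_strip.1 hs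
    rw [mem_biUnion]
    refine ⟨s.1, mem_range.2 h1, mem_image.2 ⟨s.2, ?_, rfl⟩⟩
    rw [Finset.mem_Icc]
    omega
  refine (card_le_card h).trans (card_biUnion_le.trans ?_)
  refine (sum_le_card_nsmul _ _ (2 * w + 1) ?_).trans (by simp)
  intro i _
  refine card_image_le.trans ?_
  rw [Nat.card_Icc]
  omega

variable {P : Finset Pl} {q : ℕ}

theorem Gam.pts_card_le (G : Gam P q) (L : Finset ℕ) (F : Finset (ℕ × (ℕ × ℕ))) :
    (G.pts L F).card ≤ 2 * L.card + F.card := by
  unfold Gam.pts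
  have h1 := card_union_le (L.image G.a ∪ L.image G.b) (F.image (fun e => G.x e.1 e.2))
  have h2 := card_union_le (L.image G.a) (L.image G.b)
  have h3 : (L.image G.a).card ≤ L.card := card_image_le
  have h4 : (L.image G.b).card ≤ L.card := card_image_le
  have h5 : (F.image (fun e => G.x e.1 e.2)).card ≤ F.card := card_image_le
  omega

theorem Gam.pts_subset (G : Gam P q) (L : Finset ℕ) (F : Finset (ℕ × (ℕ × ℕ))) (hL : ∀ i ∈ L, i < q)
    (hF : ∀ e ∈ F, e.1 ∈ L ∧ e.2 ∈ G.N e.1) : G.pts L F ⊆ P := by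
  intro z hz
  unfold Gam.pts at hz
  rw [mem_union, mem_union, mem_image, mem_image, mem_image] at hz
  rcases hz with (⟨i, hi, rfl⟩ | ⟨i, hi, rfl⟩) | ⟨e, he, rfl⟩
  · exact G.aP i (hL i hi)
  · exact G.bP i (hL i hi)
  · exact G.xP e.1 (hL _ (hF e he).1) e.2 (hF e he).2

theorem Gam.pts_mono (G : Gam P q) {L L' : Finset ℕ} {F F' : Finset (ℕ × (ℕ × ℕ))} (hL : L ⊆ L') (hF : F ⊆ F') :
    G.pts L F ⊆ G.pts L' F' :=
  union_subset_union (union_subset_union (image_subset_image hL) (image_subset_image hL)) (image_subset_image hF)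

/-- `x i` is injective on the neighbours of `i` -/
theorem Gam.x_inj (G : Gam P q) {i : ℕ} (hi : i < q) {s s' : ℕ × ℕ} (hs : s ∈ G.N i) (hs' : s' ∈ G.N i)
    (h : G.x i s = G.x i s') : s = s' := by
  have h1 := G.ra i hi s hs
  have h2 := G.rb i hi s hs
  rw [h, G.ra i hi s' hs'] at h1
  rw [h, G.rb i hi s' hs'] at h2
  exact Prod.ext h1.symm h2.symm

end Pool.Agent.Lib.LocD
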