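import Pool.Agent.Lib.LocD.Defs

/-!
# LocD.E0: the excess is monotone

PROOF. `numDist_insert`: `distSet (insert z W) ⊆ distSet W ∪ W.image (dist z)` so `numDist (insert z W) ≤ numDist W + W.card`; and
`(W.card + 1).choose 2 = W.card.choose 2 + W.card` (`Nat.choose_succ_succ`) for `z ∉ W`. `excess_mono`: induction over `S \ W`
(`Finset.induction_on'` or `Finset.Subset` induction on `S \ W` with `W ∪ T`). `fill_up`: `Finset.exists_subsuperset_card_eq`.
`image_card_of_rep`: the image of `f` on `S` equals the image on `S \ R`.
-/

namespace Pool.Agent.Lib.LocD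

open Finset

private theorem choose_two_succ (m : ℕ) : (m + 1).choose 2 = m.choose 2 + m := by
  rw [Nat.choose_succ_succ' m 1, Nat.choose_one_right, add_comm]

theorem numDist_insert (z : Pl) (W : Finset Pl) (hz : z ∉ W) :
    numDist (insert z W) + W.card.choose 2 ≤ numDist W + (W.card + 1).choose 2 := by
  have hsub : distSet (insert z W) ⊆ distSet W ∪ W.image (dist z) := by
    intro r hr
    obtain ⟨e, he, rfl⟩ := mem_image.1 hr
    rw [mem_offDiag, mem_insert, mem_insert] at he
    obtain ⟨h1, h2, h3⟩ := he
    rw [mem_union]
    rcases h1 with h1 | h1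
    · rcases h2 with h2 | h2
      · exact absurd (h1.trans h2.symm) h3
      · right
        rw [h1]
        exact mem_image_of_mem _ h2
    · rcases h2 with h2 | h2
      · right
        rw [h2, dist_comm]
        exact mem_image_of_mem _ h1
      · left
        exact mem_distSet h1 h2 h3
  have h1 : numDist (insert z W) ≤ numDist W + W.card := by
    refine (card_le_card hsub).trans ((card_union_le _ _).trans ?_)
    exact Nat.add_le_add_left card_image_le _
  rw [choose_two_succ]
  omega

theorem excess_mono {W S : Finset Pl} (h : W ⊆ S) :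
    numDist S + W.card.choose 2 ≤ numDist W + S.card.choose 2 := by
  classical
  have key : ∀ T : Finset Pl, Disjoint T W →
      numDist (T ∪ W) + W.card.choose 2 ≤ numDist W + (T ∪ W).card.choose 2 := by
    intro T
    induction T using Finset.induction_on with
    | empty =>
      intro _
      rw [empty_union]
    | insert a T ha ih =>
      intro hd
      rw [disjoint_insert_left] at hd
      have h1 := ih hd.2
      have h2 : a ∉ T ∪ W := by
        rw [mem_union]
        rintro (h | h)
        · exact ha h
        · exact hd.1 h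
      have h3 := numDist_insert a (T ∪ W) h2
      rw [insert_union, card_insert_of_notMem h2]
      omega
  have h1 := key (S \ W) sdiff_disjoint
  rwa [sdiff_union_of_subset h] at h1

theorem fill_up {P W : Finset Pl} (h : W ⊆ P) (k : ℕ) (h1 : W.card ≤ k) (h2 : k ≤ P.card) :
    ∃ S ⊆ P, S.card = k ∧ numDist S + W.card.choose 2 ≤ numDist W + k.choose 2 := by
  obtain ⟨S, hW, hP, hk⟩ := exists_subsuperset_card_eq h h1 h2
  refine ⟨S, hP, hk, ?_⟩
  have := excess_mono hW
  rwa [hk] at this

/-- `numDist` never exceeds the number of pairs -/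
theorem numDist_le (S : Finset Pl) : numDist S ≤ S.card.choose 2 := by
  have h := excess_mono (empty_subset S)
  have h0 : numDist (∅ : Finset Pl) = 0 := by
    simp [numDist, distSet]
  rw [h0] at h
  simpa using h

/-- if every element of `R` has a partner outside `R` with the same value then the image loses at least `R.card` -/
theorem image_card_of_rep {α β : Type*} [DecidableEq α] [DecidableEq β] (f : α → β) (S R : Finset α) (hR : R ⊆ S)
    (h : ∀ r ∈ R, ∃ s ∈ S, s ∉ R ∧ f s = f r) : (S.image f).card + R.card ≤ S.card := by
  have h1 : S.image f ⊆ (S \ R).image f := by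
    intro b hb
    obtain ⟨a, ha, rfl⟩ := mem_image.1 hb
    by_cases hr : a ∈ R
    · obtain ⟨s, hs, hsR, hf⟩ := h a hr
      exact mem_image.2 ⟨s, mem_sdiff.2 ⟨hs, hsR⟩, hf⟩
    · exact mem_image.2 ⟨a, mem_sdiff.2 ⟨ha, hr⟩, rfl⟩
  have h2 : (S.image f).card ≤ (S \ R).card := (card_le_card h1).trans card_image_le
  have h3 := card_sdiff_add_card_eq_card hR
  omega

end Pool.Agent.Lib.LocD
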