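import Pool.Agent.Lib.LocD.Defs

/-!
# LocD.G1: two circles meet in at most two points

PROOF. Mathlib: `EuclideanGeometry.eq_of_dist_eq_of_dist_eq_of_finrank_eq_two` (with `finrank ℝ Pl = 2`, `finrank_euclideanSpace_fin`):
if the centres `p`, `q` are different and `S` had three different points `z1`, `z2`, `z3` (`Finset.two_lt_card` or
`Finset.two_lt_card_iff`) then `z3 = z1` or `z3 = z2`.
`circle_inter_finite`: an infinite set has a finite subset with three elements (`Set.Infinite.exists_subset_card_eq`), contradiction to `two_circles`.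
`circle_vert`: a point with `dist z c = r` and `z 0 = c 0` is one of the two points `c + (0, r)`, `c - (0, r)`: `EuclideanSpace.dist_eq`,
`(z 1 - c 1)^2 = r^2`.
-/

namespace Pool.Agent.Lib.LocD

open Finset

theorem two_circles {p q : Pl} (h : p ≠ q) (r s : ℝ) (S : Finset Pl)
    (hS : ∀ z ∈ S, dist p z = r ∧ dist q z = s) : S.card ≤ 2 := by
  by_contra hc
  rw [not_le, Finset.two_lt_card] at hc
  obtain ⟨a, ha, b, hb, c, hc, hab, hac, hbc⟩ := hc
  have h2 : Module.finrank ℝ (EuclideanSpace ℝ (Fin 2)) = 2 := finrank_euclideanSpace_fin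
  have ha' := hS a ha
  have hb' := hS b hb
  have hc' := hS c hc
  rcases EuclideanGeometry.eq_of_dist_eq_of_dist_eq_of_finrank_eq_two h2 h hab
    ((dist_comm _ _).trans ha'.1) ((dist_comm _ _).trans hb'.1) ((dist_comm _ _).trans hc'.1)
    ((dist_comm _ _).trans ha'.2) ((dist_comm _ _).trans hb'.2)
    ((dist_comm _ _).trans hc'.2) with h3 | h3
  · exact hac h3.symm
  · exact hbc h3.symm

theorem circle_inter_finite {p q : Pl} (h : p ≠ q) (r s : ℝ) : {z : Pl | dist z p = r ∧ dist z q = s}.Finite := by
  by_contra hinf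
  obtain ⟨T, hT, hcard⟩ := Set.Infinite.exists_subset_card_eq (show Set.Infinite _ from hinf) 3
  have h1 := two_circles h r s T (fun z hz => by
    have h2 := hT hz
    exact ⟨(dist_comm _ _).trans h2.1, (dist_comm _ _).trans h2.2⟩)
  omega

/-- at most two points of a circle have the same first coordinate as the centre -/
theorem circle_vert (c : Pl) (r : ℝ) (S : Finset Pl) (hS : ∀ z ∈ S, dist z c = r ∧ z 0 = c 0) : S.card ≤ 2 := by
  have h1 : S.card ≤ ({c 1 + r, c 1 - r} : Finset ℝ).card := by
    refine Finset.card_le_card_of_injOn (fun z => z 1) ?_ ?_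
    · intro z hz
      obtain ⟨h2, h3⟩ := hS z hz
      rw [EuclideanSpace.dist_eq] at h2
      simp only [Fin.sum_univ_two, Real.dist_eq, sq_abs] at h2
      have h4 : (z 0 - c 0) ^ 2 + (z 1 - c 1) ^ 2 = r ^ 2 := by
        rw [← h2, Real.sq_sqrt (by positivity)]
      rw [h3, sub_self] at h4
      have h5 : (z 1 - c 1 - r) * (z 1 - c 1 + r) = 0 := by nlinarith
      simp only [Finset.coe_insert, Finset.coe_singleton, Set.mem_insert_iff,
        Set.mem_singleton_iff]
      rcases mul_eq_zero.1 h5 with h6 | h6
      · left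
        linarith
      · right
        linarith
    · intro z hz w hw hzw
      have h2 := (hS z hz).2
      have h3 := (hS w hw).2
      ext i
      fin_cases i
      · exact h2.trans h3.symm
      · exact hzw
  exact h1.trans Finset.card_le_two

end Pool.Agent.Lib.LocD
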