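import Pool.Agent.Lib.LocD.G1

/-!
# LocD.G2: generic radii

PROOF. Induction over the finite set `I` (`Finset.induction_on`). Step `insert i₀ I`, radii `r` for `I` given by induction. Let
`Z = {z | exists j, k in I, j ≠ k, dist z (c j) = r j and dist z (c k) = r k}`: finite, a finite union over pairs `(j, k)`; for
`c j ≠ c k` by `circle_inter_finite`, for `c j = c k` the set is empty since `r j ≠ r k`. The finite set of forbidden values for `r i₀` is
`{r j | j in I} ∪ {dist z (c i₀) | z in Z}`; the open interval `(lo i₀, hi i₀)` is infinite (`Set.Ioo_infinite`), so a value outside exists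
(`Set.Infinite.exists_notMem_finite` or `(Set.Ioo_infinite h).diff hfin).nonempty`). Put `Function.update r i₀ value`. For three different
indices the one equal to `i₀` (if any) is excluded by the choice, otherwise use the induction hypothesis.
-/

namespace Pool.Agent.Lib.LocD

open Finset

theorem generic_radii {ι : Type*} [DecidableEq ι] (I : Finset ι) (c : ι → Pl) (lo hi : ι → ℝ)
    (h : ∀ i ∈ I, lo i < hi i) :
    ∃ r : ι → ℝ, (∀ i ∈ I, lo i < r i ∧ r i < hi i) ∧
      (∀ i ∈ I, ∀ j ∈ I, i ≠ j → r i ≠ r j) ∧
      ∀ i ∈ I, ∀ j ∈ I, ∀ k ∈ I, i ≠ j → i ≠ k → j ≠ k →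
        ∀ z : Pl, ¬ (dist z (c i) = r i ∧ dist z (c j) = r j ∧ dist z (c k) = r k) := by
  classical
  induction I using Finset.induction_on with
  | empty => exact ⟨fun _ => 0, by simp, by simp, by simp⟩
  | insert i₀ I hi₀ ih =>
    obtain ⟨r, hr1, hr2, hr3⟩ := ih (fun i hi => h i (Finset.mem_insert_of_mem hi))
    obtain ⟨Z, hZdef⟩ : ∃ Z : Set Pl, Z = ⋃ j ∈ (I : Set ι), ⋃ k ∈ (I : Set ι),
        {z | c j ≠ c k ∧ (dist z (c j) = r j ∧ dist z (c k) = r k)} := ⟨_, rfl⟩
    have hZ : Z.Finite := by
      rw [hZdef]
      refine Set.Finite.biUnion (Finset.finite_toSet I) fun j _ =>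
        Set.Finite.biUnion (Finset.finite_toSet I) fun k _ => ?_
      by_cases hc : c j = c k
      · have he : {z : Pl | c j ≠ c k ∧ (dist z (c j) = r j ∧ dist z (c k) = r k)} = ∅ := by
          ext z
          simp [hc]
        rw [he]
        exact Set.finite_empty
      · exact (circle_inter_finite hc (r j) (r k)).subset (fun z hz => hz.2)
    have hbad : ((r '' (I : Set ι)) ∪ ((fun z => dist z (c i₀)) '' Z)).Finite :=
      ((Finset.finite_toSet I).image r).union (hZ.image _)
    obtain ⟨v, hv, hv2⟩ :=
      (Set.Ioo_infinite (h i₀ (Finset.mem_insert_self i₀ I))).exists_notMem_finite hbad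
    have hvr : ∀ j ∈ I, r j ≠ v := fun j hj he => hv2 (Or.inl ⟨j, hj, he⟩)
    have key : ∀ j ∈ I, ∀ k ∈ I, j ≠ k → ∀ z : Pl, dist z (c j) = r j → dist z (c k) = r k →
        dist z (c i₀) ≠ v := by
      intro j hj k hk hjk z h1 h2 he
      have hc : c j ≠ c k := by
        intro hc
        rw [hc, h2] at h1
        exact hr2 j hj k hk hjk h1.symm
      refine hv2 (Or.inr ⟨z, ?_, he⟩)
      rw [hZdef]
      exact Set.mem_biUnion (x := j) hj (Set.mem_biUnion (x := k) hk ⟨hc, h1, h2⟩)
    have hu0 : Function.update r i₀ v i₀ = v := Function.update_self i₀ v r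
    have hne : ∀ i ∈ I, i ≠ i₀ := fun i hi he => hi₀ (he ▸ hi)
    have hu1 : ∀ i ∈ I, Function.update r i₀ v i = r i := fun i hi =>
      Function.update_of_ne (hne i hi) v r
    have hu0' : ∀ i, i = i₀ → Function.update r i₀ v i = v := fun i he => he ▸ hu0
    refine ⟨Function.update r i₀ v, ?_, ?_, ?_⟩
    · intro i hi
      rcases Finset.mem_insert.mp hi with he | hi'
      · rw [hu0' i he, he]
        exact hv
      · rw [hu1 i hi']
        exact hr1 i hi'
    · intro i hi j hj hij
      rcases Finset.mem_insert.mp hi with he | hi' <;> rcases Finset.mem_insert.mp hj with he' | hj'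
      · exact absurd (he.trans he'.symm) hij
      · rw [hu0' i he, hu1 j hj']
        exact (hvr j hj').symm
      · rw [hu0' j he', hu1 i hi']
        exact hvr i hi'
      · rw [hu1 i hi', hu1 j hj']
        exact hr2 i hi' j hj' hij
    · intro i hi j hj k hk hij hik hjk z hz
      obtain ⟨h1, h2, h3⟩ := hz
      rcases Finset.mem_insert.mp hi with he | hi'
      · have hj' : j ∈ I := (Finset.mem_insert.mp hj).resolve_left (fun he' => hij (he.trans he'.symm))
        have hk' : k ∈ I := (Finset.mem_insert.mp hk).resolve_left (fun he' => hik (he.trans he'.symm))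
        rw [hu0' i he, he] at h1
        rw [hu1 j hj'] at h2
        rw [hu1 k hk'] at h3
        exact key j hj' k hk' hjk z h2 h3 h1
      · rcases Finset.mem_insert.mp hj with he | hj'
        · have hk' : k ∈ I :=
            (Finset.mem_insert.mp hk).resolve_left (fun he' => hjk (he.trans he'.symm))
          rw [hu1 i hi'] at h1
          rw [hu0' j he, he] at h2
          rw [hu1 k hk'] at h3
          exact key i hi' k hk' hik z h1 h3 h2
        · rcases Finset.mem_insert.mp hk with he | hk'
          · rw [hu1 i hi'] at h1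
            rw [hu1 j hj'] at h2
            rw [hu0' k he, he] at h3
            exact key i hi' j hj' hij z h1 h2 h3
          · rw [hu1 i hi'] at h1
            rw [hu1 j hj'] at h2
            rw [hu1 k hk'] at h3
            exact hr3 i hi' j hj' k hk' hij hik hjk z ⟨h1, h2, h3⟩

end Pool.Agent.Lib.LocD
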