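import Pool.Agent.Lib.LocD.Defs

/-!
# LocD.G3a: the lowest point of a region cut out by circles

`σ` prescribes for every circle `i` of `I` whether we are inside (`i ∈ σ`) or outside. `p` is a lowest point of the closed region of `σ`.
Then `p` lies on two circles, or on one circle and vertically above or below its centre.

PROOF. Suppose not. Let `u = p - c i`. CASE 0: `p` on no circle: all conditions are strict at `p`, so they hold for `p + s (0,-1)` for all
small `s > 0` by continuity: lower point, contradiction. CASE 1: `p` on exactly one circle `i` and `u 0 ≠ 0` (`u = p - c i`). If `i ∈ σ` let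
`v = ((u 1 - 1) / u 0, -1)`, so that `⟨u, v⟩ = -1` and `|u + s v|^2 = r^2 - 2 s + s^2 |v|^2 ≤ r^2` for small `s > 0`. If `i ∉ σ` let
`v = ((u 1 + 1) / u 0, -1)`, `⟨u, v⟩ = 1`, `|u + s v|^2 = r^2 + 2 s + s^2 |v|^2 ≥ r^2`. All the other circles have strict inequalities at
`p`, which are kept for small `s` by continuity (finitely many: `Filter.eventually_all_finset`, filter `𝓝[>] 0`). So `p + s v` is in the
region for some `s > 0` and is lower (second coordinate `p 1 - s`), contradiction to `hmin`.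
Use `!₂[x, y]` for the vector, `EuclideanSpace.dist_eq`, `Fin.sum_univ_two`; work with `dist^2`.
-/

namespace Pool.Agent.Lib.LocD

open Finset

private theorem low_dist_sq (x y : Pl) : dist x y ^ 2 = (x 0 - y 0) ^ 2 + (x 1 - y 1) ^ 2 := by
  rw [EuclideanSpace.dist_eq, Real.sq_sqrt (by positivity), Fin.sum_univ_two, Real.dist_eq,
    Real.dist_eq, sq_abs, sq_abs]

private theorem low_strict {ι : Type*} (c : ι → Pl) (r : ι → ℝ) (σ : Finset ι) (p v : Pl) (i : ι)
    (hi : (i ∈ σ → dist p (c i) ≤ r i) ∧ (i ∉ σ → r i ≤ dist p (c i)))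
    (hne : dist p (c i) ≠ r i) :
    ∀ᶠ s : ℝ in nhdsWithin 0 (Set.Ioi 0), (i ∈ σ → dist (p + s • v) (c i) ≤ r i) ∧
      (i ∉ σ → r i ≤ dist (p + s • v) (c i)) := by
  have hcont : Continuous fun s : ℝ => dist (p + s • v) (c i) := by fun_prop
  have ht : Filter.Tendsto (fun s : ℝ => dist (p + s • v) (c i)) (nhdsWithin 0 (Set.Ioi 0))
      (nhds (dist p (c i))) := by
    have h1 := hcont.tendsto 0
    rw [zero_smul, add_zero] at h1
    exact h1.mono_left nhdsWithin_le_nhds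
  by_cases hσ : i ∈ σ
  · have hlt : dist p (c i) < r i := lt_of_le_of_ne (hi.1 hσ) hne
    filter_upwards [ht.eventually_lt_const hlt] with s hs
    exact ⟨fun _ => hs.le, fun h => absurd hσ h⟩
  · have hlt : r i < dist p (c i) := lt_of_le_of_ne (hi.2 hσ) hne.symm
    filter_upwards [ht.eventually_const_lt hlt] with s hs
    exact ⟨fun h => absurd h hσ, fun _ => hs.le⟩

private theorem low_fin {ι : Type*} (I : Finset ι) (c : ι → Pl) (r : ι → ℝ)
    (σ : Finset ι) (p v : Pl) (hv : v 1 = -1)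
    (hmin : ∀ z : Pl, (∀ i ∈ I, (i ∈ σ → dist z (c i) ≤ r i) ∧ (i ∉ σ → r i ≤ dist z (c i))) →
      p 1 ≤ z 1)
    (h : ∀ i ∈ I, ∀ᶠ s : ℝ in nhdsWithin 0 (Set.Ioi 0),
      (i ∈ σ → dist (p + s • v) (c i) ≤ r i) ∧ (i ∉ σ → r i ≤ dist (p + s • v) (c i))) : False := by
  have h1 := (Filter.eventually_all_finset I).mpr h
  obtain ⟨s, hs, hs0⟩ := (h1.and self_mem_nhdsWithin).exists
  have h2 := hmin _ hs
  have h3 : (p + s • v) 1 = p 1 + s * v 1 := by simp
  rw [h3, hv] at h2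
  have hs1 : (0 : ℝ) < s := hs0
  linarith

theorem lowest_point {ι : Type*} [DecidableEq ι] (I : Finset ι) (c : ι → Pl) (r : ι → ℝ) (hr : ∀ i ∈ I, 0 < r i)
    (σ : Finset ι) (p : Pl)
    (hp : ∀ i ∈ I, (i ∈ σ → dist p (c i) ≤ r i) ∧ (i ∉ σ → r i ≤ dist p (c i)))
    (hmin : ∀ z : Pl, (∀ i ∈ I, (i ∈ σ → dist z (c i) ≤ r i) ∧ (i ∉ σ → r i ≤ dist z (c i))) → p 1 ≤ z 1) :
    (∃ i ∈ I, ∃ j ∈ I, i ≠ j ∧ dist p (c i) = r i ∧ dist p (c j) = r j) ∨
      (∃ i ∈ I, dist p (c i) = r i ∧ p 0 = c i 0) := by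
  by_contra hcon
  rw [not_or] at hcon
  obtain ⟨hc1, hc2⟩ := hcon
  by_cases hex : ∃ i ∈ I, dist p (c i) = r i
  · obtain ⟨i, hi, hd⟩ := hex
    have hother : ∀ j ∈ I, j ≠ i → dist p (c j) ≠ r j := fun j hj hji hdj =>
      hc1 ⟨i, hi, j, hj, fun h => hji h.symm, hd, hdj⟩
    have hu : p 0 - c i 0 ≠ 0 := fun h0 => hc2 ⟨i, hi, hd, sub_eq_zero.mp h0⟩
    have hr2 : r i ^ 2 = (p 0 - c i 0) ^ 2 + (p 1 - c i 1) ^ 2 := by
      rw [← hd, low_dist_sq]
    obtain ⟨e, he⟩ : ∃ e : ℝ, e = if i ∈ σ then -1 else 1 := ⟨_, rfl⟩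
    obtain ⟨w, hw⟩ : ∃ w : ℝ, (p 0 - c i 0) * w - (p 1 - c i 1) = e :=
      ⟨(e + (p 1 - c i 1)) / (p 0 - c i 0), by field_simp; ring⟩
    refine low_fin I c r σ p !₂[w, -1] (by simp) hmin ?_
    intro j hj
    by_cases hji : j = i
    · subst hji
      have hsq : ∀ s : ℝ, dist (p + s • (!₂[w, -1] : Pl)) (c j) ^ 2 =
          r j ^ 2 + 2 * s * e + s ^ 2 * (w ^ 2 + 1) := by
        intro s
        rw [low_dist_sq, hr2, ← hw]
        have h0 : (p + s • (!₂[w, -1] : Pl)) 0 = p 0 + s * w := by simp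
        have h1 : (p + s • (!₂[w, -1] : Pl)) 1 = p 1 + s * (-1) := by simp
        rw [h0, h1]
        ring
      by_cases hσ : j ∈ σ
      · rw [if_pos hσ] at he
        have hlt : (0 : ℝ) < 2 / (w ^ 2 + 1) := by positivity
        filter_upwards [self_mem_nhdsWithin, mem_nhdsWithin_of_mem_nhds (Iio_mem_nhds hlt)]
          with s hs hs2
        refine ⟨fun _ => ?_, fun h => absurd hσ h⟩
        have hs0 : (0 : ℝ) < s := hs
        have hs3 : s < 2 / (w ^ 2 + 1) := hs2
        have hs4 : s * (w ^ 2 + 1) < 2 := (lt_div_iff₀ (by positivity)).mp hs3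
        refine (pow_le_pow_iff_left₀ dist_nonneg (hr j hj).le two_ne_zero).mp ?_
        rw [hsq, he]
        nlinarith
      · rw [if_neg hσ] at he
        filter_upwards [self_mem_nhdsWithin] with s hs
        refine ⟨fun h => absurd h hσ, fun _ => ?_⟩
        have hs0 : (0 : ℝ) < s := hs
        refine (pow_le_pow_iff_left₀ (hr j hj).le dist_nonneg two_ne_zero).mp ?_
        rw [hsq, he]
        have : 0 ≤ s ^ 2 * (w ^ 2 + 1) := by positivity
        linarith
    · exact low_strict c r σ p _ j (hp j hj) (hother j hj hji)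
  · refine low_fin I c r σ p !₂[0, -1] (by simp) hmin ?_
    intro j hj
    exact low_strict c r σ p _ j (hp j hj) (fun h => hex ⟨j, hj, h⟩)

end Pool.Agent.Lib.LocD
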