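import Pool.Agent.Lib.LocD.G1
import Pool.Agent.Lib.LocD.G3a

/-!
# LocD.G3: at most (2m+1)^2 patterns of m circles in general position

PROOF. Let `pat a = I.filter (dist a (c i) < r i)`. For a pattern `σ = pat a ≠ ∅` (a in A) the region
`K σ = {z | ∀ i ∈ I, (i ∈ σ → dist z (c i) ≤ r i) ∧ (i ∉ σ → r i ≤ dist z (c i))}` is closed, bounded (contained in a closed ball as `σ ≠ ∅`)
and contains `a`, so it is compact and there is `p σ ∈ K σ` with the smallest second coordinate (`IsCompact.exists_isMinOn`).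
By `lowest_point` the point `p σ` belongs to the finite set `Cand` = (points on two circles of `I`) ∪ (points `z` on a circle `i` with
`z 0 = c i 0`). `|Cand| ≤ 2 * C(m,2) + 2 m = m^2 + m` with `m = I.card`: for a two-element subset `{i, j}` of `I` (`powersetCard 2`) the
set of common points has at most 2 elements: if `c i ≠ c j` by `two_circles`, if `c i = c j` it is empty by `h1`; vertical points:
`circle_vert`. (Sets are finite: `circle_inter_finite`; or avoid `Cand` as a set: use the finset of all `p σ` and split it.)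
The map `σ ↦ (p σ, σ ∩ On (p σ))`, `On z = I.filter (dist z (c i) = r i)`, is injective on nonempty patterns: for `i ∈ I \ On (p σ)` we have
`i ∈ σ ↔ dist (p σ) (c i) < r i`, and `σ ⊆ I`. By `h3` (general position) `(On z).card ≤ 2`, so for every point there are at most 4 patterns.
Total: `1 + 4 (m^2 + m) = (2m+1)^2`.
-/

namespace Pool.Agent.Lib.LocD

open Finset

private theorem region_closed {ι : Type*} (I : Finset ι) (c : ι → Pl) (r : ι → ℝ) (σ : Finset ι) :
    IsClosed {z : Pl | ∀ i ∈ I, (i ∈ σ → dist z (c i) ≤ r i) ∧ (i ∉ σ → r i ≤ dist z (c i))} := by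
  simp only [Set.setOf_forall]
  refine isClosed_iInter fun i => isClosed_iInter fun _ => ?_
  by_cases hi : i ∈ σ
  · simp only [hi, not_true_eq_false, false_imp_iff, and_true, true_imp_iff]
    exact isClosed_le (by fun_prop) continuous_const
  · simp only [hi, not_false_eq_true, false_imp_iff, true_and, true_imp_iff]
    exact isClosed_le continuous_const (by fun_prop)

private theorem exists_lowest {ι : Type*} [DecidableEq ι] (I : Finset ι) (c : ι → Pl) (r : ι → ℝ)
    (hr : ∀ i ∈ I, 0 < r i) (σ : Finset ι) (hσ : σ ⊆ I) (hne : σ.Nonempty) (a : Pl)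
    (ha : ∀ i ∈ I, (i ∈ σ → dist a (c i) ≤ r i) ∧ (i ∉ σ → r i ≤ dist a (c i))) :
    ∃ p : Pl, (∀ i ∈ I, (i ∈ σ → dist p (c i) ≤ r i) ∧ (i ∉ σ → r i ≤ dist p (c i))) ∧
      ((∃ i ∈ I, ∃ j ∈ I, i ≠ j ∧ dist p (c i) = r i ∧ dist p (c j) = r j) ∨
        (∃ i ∈ I, dist p (c i) = r i ∧ p 0 = c i 0)) := by
  obtain ⟨i0, hi0⟩ := hne
  have hK : IsCompact (Metric.closedBall (c i0) (r i0) ∩
      {z : Pl | ∀ i ∈ I, (i ∈ σ → dist z (c i) ≤ r i) ∧ (i ∉ σ → r i ≤ dist z (c i))}) :=
    (isCompact_closedBall (c i0) (r i0)).inter_right (region_closed I c r σ)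
  have hKne : (Metric.closedBall (c i0) (r i0) ∩
      {z : Pl | ∀ i ∈ I, (i ∈ σ → dist z (c i) ≤ r i) ∧ (i ∉ σ → r i ≤ dist z (c i))}).Nonempty :=
    ⟨a, Metric.mem_closedBall.2 ((ha i0 (hσ hi0)).1 hi0), ha⟩
  obtain ⟨p, hp, hmin⟩ := hK.exists_isMinOn hKne
    (show ContinuousOn (fun z : Pl => z 1) _ from (by fun_prop))
  refine ⟨p, hp.2, lowest_point I c r hr σ p hp.2 ?_⟩
  intro z hz
  exact hmin ⟨Metric.mem_closedBall.2 ((hz i0 (hσ hi0)).1 hi0), hz⟩

private theorem cand_card {ι : Type*} [DecidableEq ι] (I : Finset ι) (c : ι → Pl) (r : ι → ℝ)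
    (h1 : ∀ i ∈ I, ∀ j ∈ I, i ≠ j → r i ≠ r j) (S : Finset Pl)
    (hS : ∀ z ∈ S, (∃ i ∈ I, ∃ j ∈ I, i ≠ j ∧ dist z (c i) = r i ∧ dist z (c j) = r j) ∨
        (∃ i ∈ I, dist z (c i) = r i ∧ z 0 = c i 0)) :
    S.card ≤ I.card * (I.card - 1) + 2 * I.card := by
  classical
  have hsub : S ⊆ (I.powersetCard 2).biUnion (fun T => S.filter (fun z => ∀ i ∈ T, dist z (c i) = r i)) ∪
      I.biUnion (fun i => S.filter (fun z => dist z (c i) = r i ∧ z 0 = c i 0)) := by
    intro z hz
    rw [mem_union]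
    rcases hS z hz with ⟨i, hi, j, hj, hij, hdi, hdj⟩ | ⟨i, hi, hdi, hvi⟩
    · left
      rw [mem_biUnion]
      refine ⟨{i, j}, ?_, ?_⟩
      · rw [mem_powersetCard]
        refine ⟨?_, card_pair hij⟩
        intro k hk
        rw [mem_insert, mem_singleton] at hk
        rcases hk with rfl | rfl
        · exact hi
        · exact hj
      · rw [mem_filter]
        refine ⟨hz, ?_⟩
        intro k hk
        rw [mem_insert, mem_singleton] at hk
        rcases hk with rfl | rfl
        · exact hdi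
        · exact hdj
    · right
      rw [mem_biUnion]
      exact ⟨i, hi, mem_filter.2 ⟨hz, hdi, hvi⟩⟩
  have hA : ((I.powersetCard 2).biUnion
      (fun T => S.filter (fun z => ∀ i ∈ T, dist z (c i) = r i))).card ≤ I.card * (I.card - 1) := by
    refine card_biUnion_le.trans ((sum_le_card_nsmul _ _ 2 ?_).trans ?_)
    · intro T hT
      rw [mem_powersetCard] at hT
      obtain ⟨x, y, hxy, rfl⟩ := card_eq_two.1 hT.2
      have hx : x ∈ I := hT.1 (by simp)
      have hy : y ∈ I := hT.1 (by simp)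
      by_cases hc : c x = c y
      · have hempty : S.filter (fun z => ∀ i ∈ ({x, y} : Finset ι), dist z (c i) = r i) = ∅ := by
          rw [filter_eq_empty_iff]
          intro z _ hz
          refine h1 x hx y hy hxy ?_
          rw [← hz x (by simp), ← hz y (by simp), hc]
        rw [hempty]
        simp
      · refine two_circles hc (r x) (r y) _ ?_
        intro z hz
        have hz' := (mem_filter.1 hz).2
        exact ⟨(dist_comm _ _).trans (hz' x (by simp)), (dist_comm _ _).trans (hz' y (by simp))⟩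
    · rw [card_powersetCard, smul_eq_mul, Nat.choose_two_right]
      exact Nat.div_mul_le_self _ 2
  have hB : (I.biUnion (fun i => S.filter (fun z => dist z (c i) = r i ∧ z 0 = c i 0))).card ≤
      2 * I.card := by
    refine card_biUnion_le.trans ((sum_le_card_nsmul _ _ 2 ?_).trans ?_)
    · intro i _
      exact circle_vert (c i) (r i) _ (fun z hz => (mem_filter.1 hz).2)
    · rw [smul_eq_mul, mul_comm]
  exact (card_le_card hsub).trans ((card_union_le _ _).trans (Nat.add_le_add hA hB))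

theorem patterns_generic {ι : Type*} [DecidableEq ι] (I : Finset ι) (c : ι → Pl) (r : ι → ℝ) (hr : ∀ i ∈ I, 0 < r i)
    (h1 : ∀ i ∈ I, ∀ j ∈ I, i ≠ j → r i ≠ r j)
    (h3 : ∀ i ∈ I, ∀ j ∈ I, ∀ k ∈ I, i ≠ j → i ≠ k → j ≠ k →
        ∀ z : Pl, ¬ (dist z (c i) = r i ∧ dist z (c j) = r j ∧ dist z (c k) = r k))
    (A : Finset Pl) :
    (A.image (fun a => I.filter (fun i => dist a (c i) < r i))).card ≤ (2 * I.card + 1) ^ 2 := by
  classical
  have hch : ∀ σ : Finset ι, ∃ p : Pl,
      σ ∈ A.image (fun a => I.filter (fun i => dist a (c i) < r i)) → σ.Nonempty →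
      (∀ i ∈ I, (i ∈ σ → dist p (c i) ≤ r i) ∧ (i ∉ σ → r i ≤ dist p (c i))) ∧
      ((∃ i ∈ I, ∃ j ∈ I, i ≠ j ∧ dist p (c i) = r i ∧ dist p (c j) = r j) ∨
        (∃ i ∈ I, dist p (c i) = r i ∧ p 0 = c i 0)) := by
    intro σ
    by_cases hσ : σ ∈ A.image (fun a => I.filter (fun i => dist a (c i) < r i)) ∧ σ.Nonempty
    · obtain ⟨hσ1, hσ2⟩ := hσ
      obtain ⟨a, -, ha⟩ := mem_image.1 hσ1
      have hsub : σ ⊆ I := by
        rw [← ha]
        exact filter_subset _ _
      obtain ⟨p, hp⟩ := exists_lowest I c r hr σ hsub hσ2 a (by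
        intro i hi
        rw [← ha]
        refine ⟨fun h => (mem_filter.1 h).2.le, fun h => ?_⟩
        by_contra hlt
        exact h (mem_filter.2 ⟨hi, not_le.1 hlt⟩))
      exact ⟨p, fun _ _ => hp⟩
    · exact ⟨0, fun h h' => absurd ⟨h, h'⟩ hσ⟩
  choose p hp using hch
  set Pat := A.image (fun a => I.filter (fun i => dist a (c i) < r i)) with hPat
  have hPI : ∀ σ ∈ Pat, σ ⊆ I := by
    intro σ hσ
    rw [hPat] at hσ
    obtain ⟨a, -, rfl⟩ := mem_image.1 hσ
    exact filter_subset _ _
  set N := Pat.filter (fun σ => σ.Nonempty) with hN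
  have hsub : Pat ⊆ insert ∅ N := by
    intro σ hσ
    rw [mem_insert]
    rcases σ.eq_empty_or_nonempty with h | h
    · exact Or.inl h
    · exact Or.inr (mem_filter.2 ⟨hσ, h⟩)
  have hPN : Pat.card ≤ N.card + 1 := (card_le_card hsub).trans (card_insert_le _ _)
  have hfib : N.card ≤ 4 * (N.image p).card := by
    refine card_le_mul_card_image N 4 ?_
    intro z hz
    obtain ⟨σ0, -, -⟩ := mem_image.1 hz
    have hOn : (I.filter (fun i => dist z (c i) = r i)).card ≤ 2 := by
      by_contra hc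
      rw [not_le, two_lt_card] at hc
      obtain ⟨i, hi, j, hj, k, hk, hij, hik, hjk⟩ := hc
      rw [mem_filter] at hi hj hk
      exact h3 i hi.1 j hj.1 k hk.1 hij hik hjk z ⟨hi.2, hj.2, hk.2⟩
    have hinj : (N.filter (fun σ => p σ = z)).card ≤
        (I.filter (fun i => dist z (c i) = r i)).powerset.card := by
      refine card_le_card_of_injOn (fun σ => σ ∩ I.filter (fun i => dist z (c i) = r i)) ?_ ?_
      · intro σ _
        simp only [coe_powerset, Set.mem_preimage, Set.mem_powerset_iff, coe_subset]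
        exact inter_subset_right
      · have key : ∀ σ ∈ N, p σ = z → ∀ τ ∈ N, p τ = z →
            σ ∩ I.filter (fun i => dist z (c i) = r i) = τ ∩ I.filter (fun i => dist z (c i) = r i) →
            σ ⊆ τ := by
          intro σ hσ hσz τ hτ hτz hst i hi
          have hσ' := mem_filter.1 hσ
          have hτ' := mem_filter.1 hτ
          have hiI : i ∈ I := hPI σ hσ'.1 hi
          have hpσ := (hp σ hσ'.1 hσ'.2).1 i hiI
          have hpτ := (hp τ hτ'.1 hτ'.2).1 i hiI
          rw [hσz] at hpσ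
          rw [hτz] at hpτ
          by_contra hiτ
          have hle := hpσ.1 hi
          have hge := hpτ.2 hiτ
          have hion : i ∈ I.filter (fun i => dist z (c i) = r i) :=
            mem_filter.2 ⟨hiI, le_antisymm hle hge⟩
          have : i ∈ τ ∩ I.filter (fun i => dist z (c i) = r i) := by
            rw [← hst]
            exact mem_inter.2 ⟨hi, hion⟩
          exact hiτ (mem_inter.1 this).1
        intro σ hσ τ hτ hst
        rw [mem_coe, mem_filter] at hσ hτ
        exact Subset.antisymm (key σ hσ.1 hσ.2 τ hτ.1 hτ.2 hst)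
          (key τ hτ.1 hτ.2 σ hσ.1 hσ.2 hst.symm)
    rw [card_powerset] at hinj
    refine hinj.trans ?_
    calc 2 ^ (I.filter (fun i => dist z (c i) = r i)).card ≤ 2 ^ 2 :=
          Nat.pow_le_pow_right (by norm_num) hOn
      _ = 4 := by norm_num
  have hcand : (N.image p).card ≤ I.card * (I.card - 1) + 2 * I.card := by
    refine cand_card I c r h1 _ ?_
    intro z hz
    obtain ⟨σ, hσ, rfl⟩ := mem_image.1 hz
    have hσ' := mem_filter.1 hσ
    exact (hp σ hσ'.1 hσ'.2).2
  have hfin : 4 * (I.card * (I.card - 1) + 2 * I.card) + 1 = (2 * I.card + 1) ^ 2 := by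
    rcases I.card with _ | m
    · rfl
    · rw [Nat.add_sub_cancel]
      ring
  calc Pat.card ≤ N.card + 1 := hPN
    _ ≤ 4 * (N.image p).card + 1 := Nat.add_le_add_right hfib 1
    _ ≤ 4 * (I.card * (I.card - 1) + 2 * I.card) + 1 :=
        Nat.add_le_add_right (Nat.mul_le_mul_left 4 hcand) 1
    _ = (2 * I.card + 1) ^ 2 := hfin

end Pool.Agent.Lib.LocD
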