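import Pool.Agent.Lib.LocD.G2
import Pool.Agent.Lib.LocD.G3

/-!
# LocD.G4: patterns of circles whose radii may move in a gap

PROOF. `generic_radii I c lo hi` gives radii `r i` with `lo i < r i < hi i` (so `0 < r i`), then `patterns_generic`. For `a ∈ A`, `i ∈ I`:
`dist a (c i) < r i ↔ dist a (c i) ≤ lo i` by `hA` (if `dist a (c i) ≤ lo i` then it is `< r i`; otherwise `hi i ≤ dist a (c i)`, so
`r i < dist a (c i)`). Hence the two images agree (`Finset.image_congr`, `Finset.filter_congr`).
-/

namespace Pool.Agent.Lib.LocD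

open Finset

theorem patterns_gap {ι : Type*} [DecidableEq ι] (I : Finset ι) (c : ι → Pl) (lo hi : ι → ℝ)
    (hlo : ∀ i ∈ I, 0 ≤ lo i) (hlh : ∀ i ∈ I, lo i < hi i)
    (A : Finset Pl) (hA : ∀ a ∈ A, ∀ i ∈ I, dist a (c i) ≤ lo i ∨ hi i ≤ dist a (c i)) :
    (A.image (fun a => I.filter (fun i => dist a (c i) ≤ lo i))).card ≤ (2 * I.card + 1) ^ 2 := by
  obtain ⟨r, hr, h1, h3⟩ := generic_radii I c lo hi hlh
  have hpos : ∀ i ∈ I, 0 < r i := fun i hi' => lt_of_le_of_lt (hlo i hi') (hr i hi').1
  have h := patterns_generic I c r hpos h1 h3 A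
  have he : A.image (fun a => I.filter (fun i => dist a (c i) ≤ lo i)) =
      A.image (fun a => I.filter (fun i => dist a (c i) < r i)) := by
    refine Finset.image_congr (fun a ha => ?_)
    refine Finset.filter_congr (fun i hi' => ?_)
    constructor
    · intro h4
      exact lt_of_le_of_lt h4 (hr i hi').1
    · intro h4
      rcases hA a (Finset.mem_coe.1 ha) i hi' with h5 | h5
      · exact h5
      · exact absurd (lt_trans h4 (hr i hi').2) (not_lt.2 h5)
  rw [he]
  exact h

end Pool.Agent.Lib.LocD
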