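import Mathlib

/-!
# LocD.S1: sampling

PROOF. Consider all functions `f : Fin m → F`, where `F` is a finite set with `M` elements (type `{x // x ∈ F}` or `Fintype.piFinset`): there are
`M^m`. For a bad event `p ∈ Q` the functions with `f j ∉ B p` for all `j` number `(M - |B p|)^m ≤ (M - t)^m`
(`Fintype.card_piFinset`, `Finset.card_sdiff`, `B p ⊆ F`). By hypothesis the union over `p ∈ Q` has fewer than `M^m` elements
(`Finset.card_biUnion_le`), so some `f` is in none of these sets; `I = image of f`, `|I| ≤ m`.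
-/

namespace Pool.Agent.Lib.LocD

open Finset

theorem sampling {β π : Type*} [DecidableEq β] (F : Finset β) (Q : Finset π) (B : π → Finset β) (t m : ℕ)
    (hF : ∀ p ∈ Q, B p ⊆ F) (hB : ∀ p ∈ Q, t ≤ (B p).card)
    (h : Q.card * (F.card - t) ^ m < F.card ^ m) :
    ∃ I : Finset β, I ⊆ F ∧ I.card ≤ m ∧ ∀ p ∈ Q, ∃ i ∈ I, i ∈ B p := by
  classical
  have hall : (Fintype.piFinset fun _ : Fin m => F).card = F.card ^ m := by
    rw [Fintype.card_piFinset]; simp
  have hbad : ∀ p ∈ Q, (Fintype.piFinset fun _ : Fin m => F \ B p).card ≤ (F.card - t) ^ m := by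
    intro p hp
    rw [Fintype.card_piFinset, prod_const, card_univ, Fintype.card_fin]
    refine Nat.pow_le_pow_left ?_ m
    rw [card_sdiff_of_subset (hF p hp)]
    exact Nat.sub_le_sub_left (hB p hp) _
  have hlt : (Q.biUnion fun p => Fintype.piFinset fun _ : Fin m => F \ B p).card <
      (Fintype.piFinset fun _ : Fin m => F).card := by
    rw [hall]
    refine lt_of_le_of_lt ?_ h
    refine card_biUnion_le.trans ?_
    exact (sum_le_card_nsmul _ _ _ hbad).trans_eq (by rw [smul_eq_mul])
  obtain ⟨f, hf, hf'⟩ := exists_mem_notMem_of_card_lt_card hlt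
  rw [Fintype.mem_piFinset] at hf
  refine ⟨univ.image f, ?_, ?_, ?_⟩
  · intro i hi
    obtain ⟨j, -, rfl⟩ := mem_image.1 hi
    exact hf j
  · exact card_image_le.trans_eq (by simp)
  · intro p hp
    by_contra hcon
    push Not at hcon
    apply hf'
    rw [mem_biUnion]
    refine ⟨p, hp, ?_⟩
    rw [Fintype.mem_piFinset]
    intro j
    rw [mem_sdiff]
    exact ⟨hf j, hcon (f j) (mem_image_of_mem f (mem_univ j))⟩

end Pool.Agent.Lib.LocD
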