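import Mathlib

/-!
# LocD.S2: disjoint pairs inside classes

PROOF. Induction on `q` (generalizing `A`). `q = 0`: trivial (any functions; the type is nonempty since... take `q = 0` case: if `α` is empty
use `isEmpty`-free argument: the statement assumes `[Nonempty α]`). Step: `2(q+1) + #classes ≤ |A|` so `#classes < |A|` and by the
pigeonhole principle (`Finset.exists_ne_map_eq_of_card_lt_of_maps_to`) there are `u ≠ v` in `A` with `κ u = κ v`. Apply the induction
hypothesis to `(A.erase u).erase v`, whose number of classes is not larger, and put `a q = u`, `b q = v` (`Function.update`).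
-/

namespace Pool.Agent.Lib.LocD

open Finset

theorem class_pairs {α β : Type*} [Nonempty α] [DecidableEq α] [DecidableEq β] (κ : α → β) (q : ℕ) (A : Finset α)
    (h : 2 * q + (A.image κ).card ≤ A.card) :
    ∃ a b : ℕ → α, (∀ i < q, a i ∈ A ∧ b i ∈ A ∧ κ (a i) = κ (b i)) ∧
      (∀ i < q, ∀ j < q, a i = a j → i = j) ∧ (∀ i < q, ∀ j < q, b i = b j → i = j) ∧
      ∀ i < q, ∀ j < q, a i ≠ b j := by
  induction q generalizing A with
  | zero =>
    refine ⟨fun _ => Classical.arbitrary α, fun _ => Classical.arbitrary α, ?_, ?_, ?_, ?_⟩
    all_goals intro i hi; omega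
  | succ q ih =>
    have hc : (A.image κ).card < A.card := by omega
    obtain ⟨u, hu, v, hv, huv, hκ⟩ := Finset.exists_ne_map_eq_of_card_lt_of_maps_to hc
      (f := κ) (fun a ha => Finset.mem_image_of_mem κ ha)
    have hv' : v ∈ A.erase u := Finset.mem_erase.2 ⟨huv.symm, hv⟩
    have hcard : ((A.erase u).erase v).card = A.card - 2 := by
      rw [Finset.card_erase_of_mem hv', Finset.card_erase_of_mem hu]
      omega
    have hsub : (A.erase u).erase v ⊆ A :=
      (Finset.erase_subset _ _).trans (Finset.erase_subset _ _)
    have himg : (((A.erase u).erase v).image κ).card ≤ (A.image κ).card :=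
      Finset.card_le_card (Finset.image_subset_image hsub)
    obtain ⟨a, b, h1, h2, h3, h4⟩ := ih ((A.erase u).erase v) (by omega)
    have hne : ∀ x ∈ (A.erase u).erase v, x ≠ u ∧ x ≠ v := by
      intro x hx
      rw [Finset.mem_erase, Finset.mem_erase] at hx
      exact ⟨hx.2.1, hx.1⟩
    have ha : ∀ i, Function.update a q u i = if i = q then u else a i := by
      intro i
      by_cases hi : i = q
      · subst hi; simp
      · simp [hi]
    have hb : ∀ i, Function.update b q v i = if i = q then v else b i := by
      intro i
      by_cases hi : i = q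
      · subst hi; simp
      · simp [hi]
    refine ⟨Function.update a q u, Function.update b q v, ?_, ?_, ?_, ?_⟩
    · intro i hi
      rw [ha, hb]
      by_cases hiq : i = q
      · rw [if_pos hiq, if_pos hiq]
        exact ⟨hu, hv, hκ⟩
      · rw [if_neg hiq, if_neg hiq]
        have := h1 i (by omega)
        exact ⟨hsub this.1, hsub this.2.1, this.2.2⟩
    · intro i hi j hj hij
      rw [ha, ha] at hij
      by_cases hiq : i = q <;> by_cases hjq : j = q
      · omega
      · rw [if_pos hiq, if_neg hjq] at hij
        exact absurd hij.symm (hne _ (h1 j (by omega)).1).1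
      · rw [if_neg hiq, if_pos hjq] at hij
        exact absurd hij (hne _ (h1 i (by omega)).1).1
      · rw [if_neg hiq, if_neg hjq] at hij
        exact h2 i (by omega) j (by omega) hij
    · intro i hi j hj hij
      rw [hb, hb] at hij
      by_cases hiq : i = q <;> by_cases hjq : j = q
      · omega
      · rw [if_pos hiq, if_neg hjq] at hij
        exact absurd hij.symm (hne _ (h1 j (by omega)).2.1).2
      · rw [if_neg hiq, if_pos hjq] at hij
        exact absurd hij (hne _ (h1 i (by omega)).2.1).2
      · rw [if_neg hiq, if_neg hjq] at hij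
        exact h3 i (by omega) j (by omega) hij
    · intro i hi j hj
      rw [ha, hb]
      by_cases hiq : i = q <;> by_cases hjq : j = q
      · rw [if_pos hiq, if_pos hjq]
        exact huv
      · rw [if_pos hiq, if_neg hjq]
        exact (hne _ (h1 j (by omega)).2.1).1.symm
      · rw [if_neg hiq, if_pos hjq]
        exact (hne _ (h1 i (by omega)).1).2
      · rw [if_neg hiq, if_neg hjq]
        exact h4 i (by omega) j (by omega)

end Pool.Agent.Lib.LocD
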