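import Pool.Agent.Lib.LocD.G4
import Pool.Agent.Lib.LocD.S1
import Pool.Agent.Lib.LocD.S2

/-!
# LocD.S3: low crossing matching for the rank functions

`Nat.dist m n = (m - n) + (n - m)`.

PROOF. Index circles by `(x, δ) ∈ F := X ×ˢ Δ` (centre `x`; `lo = δ`, `hi = ` the next element of `Δ` above `δ` or `δ + 1` if there is none).
For `p = (u, v)` let `B p = F.filter ((dist u x ≤ δ ∧ ¬ dist v x ≤ δ) ∨ (dist v x ≤ δ ∧ ¬ dist u x ≤ δ))`. For fixed `x`, with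
`r = dist u x`, `s = dist v x` in `Δ` and `r ≤ s`, the number of `δ ∈ Δ` with `r ≤ δ < s` is `rk Δ s - rk Δ r`
(`rk Δ s = #{δ < s}`): so `|B p| = Σ_x Nat.dist (rk Δ r) (rk Δ s)` (`lemma cross_card` for one `x`, then sum over the product).
Let `Q = (A ×ˢ A).filter (t ≤ |B p|)`, `|Q| ≤ |A|^2`. `sampling F Q B t m` gives `I ⊆ F`, `|I| ≤ m`, hitting all `B p`, `p ∈ Q`.
`patterns_gap I (fun i => i.1) (fun i => i.2) hi _ _ A`: the number of classes of `κ a = I.filter (dist a i.1 ≤ i.2)` is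
`≤ (2 |I| + 1)^2 ≤ (2 m + 1)^2` (for `a ∈ A`, `x ∈ X`: `dist a x ∈ Δ`, so it is `≤ δ` or `≥` the next element).
`class_pairs κ q A` gives the pairs; if `κ (a i) = κ (b i)` then `I` does not meet `B (a i, b i)`, so `(a i, b i) ∉ Q`, that is
`|B (a i, b i)| < t`.
-/

namespace Pool.Agent.Lib.LocD

open Finset

private theorem s3_cross1 (Δ : Finset ℝ) {r s : ℝ} (h : r ≤ s) :
    (Δ.filter (fun δ => r ≤ δ ∧ ¬ s ≤ δ)).card + rk Δ r = rk Δ s := by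
  classical
  unfold rk
  rw [← card_union_of_disjoint]
  · congr 1
    ext d
    simp only [mem_union, mem_filter, not_le]
    constructor
    · rintro (⟨h1, h2, h3⟩ | ⟨h1, h2⟩)
      · exact ⟨h1, h3⟩
      · exact ⟨h1, lt_of_lt_of_le h2 h⟩
    · rintro ⟨h1, h2⟩
      rcases lt_or_ge d r with h3 | h3
      · exact Or.inr ⟨h1, h3⟩
      · exact Or.inl ⟨h1, h3, h2⟩
  · rw [disjoint_left]
    intro d hd hd'
    rw [mem_filter] at hd hd'
    exact absurd hd'.2 (not_lt.2 hd.2.1)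

private theorem s3_cross2 (Δ : Finset ℝ) {r s : ℝ} (h : r ≤ s) :
    (Δ.filter (fun δ => (r ≤ δ ∧ ¬ s ≤ δ) ∨ (s ≤ δ ∧ ¬ r ≤ δ))).card =
      Nat.dist (rk Δ r) (rk Δ s) := by
  have h1 : Δ.filter (fun δ => (r ≤ δ ∧ ¬ s ≤ δ) ∨ (s ≤ δ ∧ ¬ r ≤ δ)) =
      Δ.filter (fun δ => r ≤ δ ∧ ¬ s ≤ δ) := by
    apply filter_congr
    intro d _
    constructor
    · rintro (h2 | h2)
      · exact h2
      · exact absurd (h.trans h2.1) h2.2
    · exact Or.inl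
  rw [h1]
  have h2 := s3_cross1 Δ h
  unfold Nat.dist
  omega

private theorem s3_cross (Δ : Finset ℝ) (r s : ℝ) :
    (Δ.filter (fun δ => (r ≤ δ ∧ ¬ s ≤ δ) ∨ (s ≤ δ ∧ ¬ r ≤ δ))).card =
      Nat.dist (rk Δ r) (rk Δ s) := by
  rcases le_total r s with h | h
  · exact s3_cross2 Δ h
  · rw [Nat.dist_comm, ← s3_cross2 Δ h]
    congr 1
    apply filter_congr
    intro d _
    exact or_comm

/-- the circles separating `u` and `v` -/
private noncomputable def s3B (X : Finset Pl) (Δ : Finset ℝ) (p : Pl × Pl) : Finset (Pl × ℝ) :=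
  (X ×ˢ Δ).filter (fun i => (dist p.1 i.1 ≤ i.2 ∧ ¬ dist p.2 i.1 ≤ i.2) ∨
    (dist p.2 i.1 ≤ i.2 ∧ ¬ dist p.1 i.1 ≤ i.2))

private theorem s3B_card (X : Finset Pl) (Δ : Finset ℝ) (p : Pl × Pl) :
    (s3B X Δ p).card = ∑ x ∈ X, Nat.dist (rk Δ (dist p.1 x)) (rk Δ (dist p.2 x)) := by
  unfold s3B
  rw [card_filter, sum_product]
  refine sum_congr rfl fun x _ => ?_
  rw [← s3_cross, card_filter]

/-- the next element -/
private noncomputable def s3hi (Δ : Finset ℝ) (δ : ℝ) : ℝ :=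
  if h : (Δ.filter (fun d => δ < d)).Nonempty then (Δ.filter (fun d => δ < d)).min' h else δ + 1

private theorem s3hi_lt (Δ : Finset ℝ) (δ : ℝ) : δ < s3hi Δ δ := by
  unfold s3hi
  split_ifs with h
  · exact (mem_filter.1 (min'_mem _ h)).2
  · linarith

private theorem s3hi_le (Δ : Finset ℝ) (δ d : ℝ) (hd : d ∈ Δ) (h : δ < d) : s3hi Δ δ ≤ d := by
  have hm : d ∈ Δ.filter (fun d => δ < d) := mem_filter.2 ⟨hd, h⟩
  unfold s3hi
  rw [dif_pos ⟨d, hm⟩]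
  exact min'_le _ _ hm

theorem low_crossing (A X : Finset Pl) (Δ : Finset ℝ) (hpos : ∀ δ ∈ Δ, 0 < δ)
    (hd : ∀ a ∈ A, ∀ x ∈ X, dist a x ∈ Δ) (t m q : ℕ)
    (hs : A.card ^ 2 * (X.card * Δ.card - t) ^ m < (X.card * Δ.card) ^ m)
    (hq : 2 * q + (2 * m + 1) ^ 2 ≤ A.card) :
    ∃ a b : ℕ → Pl, (∀ i < q, a i ∈ A ∧ b i ∈ A) ∧
      (∀ i < q, ∀ j < q, a i = a j → i = j) ∧ (∀ i < q, ∀ j < q, b i = b j → i = j) ∧
      (∀ i < q, ∀ j < q, a i ≠ b j) ∧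
      ∀ i < q, ∑ x ∈ X, Nat.dist (rk Δ (dist (a i) x)) (rk Δ (dist (b i) x)) < t := by
  classical
  have hFc : (X ×ˢ Δ).card = X.card * Δ.card := card_product X Δ
  obtain ⟨Q, hQ⟩ : ∃ Q : Finset (Pl × Pl), Q = (A ×ˢ A).filter (fun p => t ≤ (s3B X Δ p).card) :=
    ⟨_, rfl⟩
  have hQc : Q.card ≤ A.card ^ 2 := by
    rw [hQ]
    refine (card_filter_le _ _).trans ?_
    rw [card_product, sq]
  obtain ⟨I, hIF, hIm, hIh⟩ := sampling (X ×ˢ Δ) Q (s3B X Δ) t m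
    (fun p _ => filter_subset _ _)
    (fun p hp => by
      rw [hQ, mem_filter] at hp
      exact hp.2)
    (by
      rw [hFc]
      exact lt_of_le_of_lt (Nat.mul_le_mul_right _ hQc) hs)
  have hIm2 : ∀ i ∈ I, i.1 ∈ X ∧ i.2 ∈ Δ := fun i hi => mem_product.1 (hIF hi)
  have hpat := patterns_gap I (fun i => i.1) (fun i => i.2) (fun i => s3hi Δ i.2)
    (fun i hi => (hpos _ (hIm2 i hi).2).le) (fun i _ => s3hi_lt Δ i.2) A
    (fun a ha i hi => by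
      have h1 := hd a ha i.1 (hIm2 i hi).1
      rcases le_or_gt (dist a i.1) i.2 with h2 | h2
      · exact Or.inl h2
      · exact Or.inr (s3hi_le Δ _ _ h1 h2))
  have hcl : 2 * q + (A.image (fun a : Pl => I.filter (fun i => dist a i.1 ≤ i.2))).card ≤
      A.card := by
    have h1 : (2 * I.card + 1) ^ 2 ≤ (2 * m + 1) ^ 2 := Nat.pow_le_pow_left (by omega) 2
    have h2 : (A.image (fun a : Pl => I.filter (fun i => dist a i.1 ≤ i.2))).card ≤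
      (2 * I.card + 1) ^ 2 := hpat
    omega
  obtain ⟨κ, hκ⟩ : ∃ κ : Pl → Finset (Pl × ℝ), ∀ a, κ a = I.filter (fun i => dist a i.1 ≤ i.2) :=
    ⟨_, fun _ => rfl⟩
  have hκf : (fun a : Pl => I.filter (fun i => dist a i.1 ≤ i.2)) = κ := by
    funext a
    exact (hκ a).symm
  rw [hκf] at hcl
  obtain ⟨a, b, h1, h2, h3, h4⟩ := class_pairs κ q A hcl
  refine ⟨a, b, fun i hi => ⟨(h1 i hi).1, (h1 i hi).2.1⟩, h2, h3, h4, ?_⟩
  intro i hi
  obtain ⟨ha, hb, hk⟩ := h1 i hi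
  have h5 := s3B_card X Δ (a i, b i)
  rw [← h5]
  by_contra hcon
  push Not at hcon
  have hmem : (a i, b i) ∈ Q := by
    rw [hQ, mem_filter]
    exact ⟨mem_product.2 ⟨ha, hb⟩, hcon⟩
  obtain ⟨j, hjI, hjB⟩ := hIh _ hmem
  have hk' : j ∈ I.filter (fun i' => dist (a i) i'.1 ≤ i'.2) ↔
      j ∈ I.filter (fun i' => dist (b i) i'.1 ≤ i'.2) := by
    have : I.filter (fun i' => dist (a i) i'.1 ≤ i'.2) =
        I.filter (fun i' => dist (b i) i'.1 ≤ i'.2) := by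
      rw [← hκ (a i), ← hκ (b i)]
      exact hk
    rw [this]
  rw [mem_filter, mem_filter] at hk'
  unfold s3B at hjB
  rw [mem_filter] at hjB
  rcases hjB.2 with h6 | h6
  · exact h6.2 (hk'.1 ⟨hjI, h6.1⟩).2
  · exact h6.2 (hk'.2 ⟨hjI, h6.1⟩).2

end Pool.Agent.Lib.LocD
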