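import Pool.Agent.Lib.LocD.G1
import Pool.Agent.Lib.LocD.S3

/-!
# LocD.M1: the graph exists

PROOF. Choose disjoint `A, X ⊆ P` with `|A| = α`, `|X| = ξ` (`Finset.exists_subset_card_eq` twice). `Δ = distSet P` (positive by
`distSet_pos`; `dist a x ∈ Δ` by `mem_distSet`). `low_crossing` gives `a, b`. For `i < q` let
`good i = X.filter (Nat.dist (rk Δ (dist (a i) x)) (rk Δ (dist (b i) x)) ≤ w)`. The bad `x` have `Nat.dist ≥ w + 1`, so
`(w+1) * |bad| ≤ Σ < t`, hence `2 (w+1) |bad| ≤ 2 t ≤ (w+1) ξ`, `2 |bad| ≤ ξ`, `2 |good| ≥ ξ`.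
`N i = (good i).image (fun x => (rk Δ (dist (a i) x), rk Δ (dist (b i) x)))`; every element has at most two preimages: equal ranks mean
equal distances (`rk_inj`), and `two_circles` (`a i ≠ b i`). So `|good i| ≤ 2 |N i|` (`Finset.card_le_mul_card_image`), and
`|N i| ≤ |good i| ≤ ξ`. `x i s` = some preimage (`Classical.choose` inside `if h : ... then ... else a 0`). `G.ax`, `G.bx`: `A` and `X` are
disjoint. `s.1 < numDist P`: `rk_lt_card`. `Nat.dist m n ≤ w` gives `m ≤ n + w`, `n ≤ m + w` (`unfold Nat.dist; omega`).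
-/

namespace Pool.Agent.Lib.LocD

open Finset

theorem exists_gam (P : Finset Pl) (α ξ t m q w : ℕ) (hP : α + ξ ≤ P.card)
    (hs : α ^ 2 * (ξ * numDist P - t) ^ m < (ξ * numDist P) ^ m)
    (hq : 2 * q + (2 * m + 1) ^ 2 ≤ α) (hw : 2 * t ≤ (w + 1) * ξ) :
    ∃ G : Gam P q, (∀ i < q, G.N i ⊆ strip (numDist P) w) ∧
      ∀ i < q, ξ ≤ 4 * (G.N i).card ∧ (G.N i).card ≤ ξ := by
  classical
  obtain ⟨A, hA, hAc⟩ := exists_subset_card_eq (s := P) (n := α) (by omega)
  have hPA : ξ ≤ (P \ A).card := by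
    rw [card_sdiff_of_subset hA, hAc]
    omega
  obtain ⟨X, hX, hXc⟩ := exists_subset_card_eq (s := P \ A) (n := ξ) hPA
  have hXP : ∀ x ∈ X, x ∈ P := fun x hx => (mem_sdiff.mp (hX hx)).1
  have hXA : ∀ x ∈ X, x ∉ A := fun x hx => (mem_sdiff.mp (hX hx)).2
  have hdist : ∀ a ∈ A, ∀ x ∈ X, dist a x ∈ distSet P := by
    intro a ha x hx
    exact mem_distSet (hA ha) (hXP x hx) (fun h => hXA x hx (h ▸ ha))
  obtain ⟨a, b, hab1, hai, hbi, habne, hsum⟩ := low_crossing A X (distSet P)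
    (fun δ hδ => distSet_pos hδ) hdist t m q (by rw [hAc, hXc]; exact hs) (by rw [hAc]; exact hq)
  set Δ := distSet P with hΔ
  set g : ℕ → Pl → ℕ × ℕ := fun i x => (rk Δ (dist (a i) x), rk Δ (dist (b i) x)) with hg
  set good : ℕ → Finset Pl := fun i =>
    X.filter (fun x => Nat.dist (rk Δ (dist (a i) x)) (rk Δ (dist (b i) x)) ≤ w) with hgood
  set N : ℕ → Finset (ℕ × ℕ) := fun i => (good i).image (g i) with hN
  have hex : ∀ i, ∀ s ∈ N i, ∃ x, x ∈ good i ∧ g i x = s := by
    intro i s hs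
    obtain ⟨x, hx, rfl⟩ := mem_image.mp hs
    exact ⟨x, hx, rfl⟩
  set xx : ℕ → ℕ × ℕ → Pl := fun i s =>
    if h : ∃ x, x ∈ good i ∧ g i x = s then h.choose else a 0 with hxx
  have hxs : ∀ i, ∀ s ∈ N i, xx i s ∈ good i ∧ g i (xx i s) = s := by
    intro i s hs
    have h := hex i s hs
    simp only [hxx]
    rw [dif_pos h]
    exact h.choose_spec
  have hgX : ∀ i, ∀ x ∈ good i, x ∈ X := fun i x hx => (mem_filter.mp hx).1
  let G : Gam P q :=
    { a := a
      b := b
      x := xx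
      N := N
      aP := fun i hi => hA (hab1 i hi).1
      bP := fun i hi => hA (hab1 i hi).2
      xP := fun i _ s hs => hXP _ (hgX i _ (hxs i s hs).1)
      ainj := hai
      binj := hbi
      ab := habne
      ax := fun i hi j _ s hs h => hXA _ (hgX j _ (hxs j s hs).1) (h ▸ (hab1 i hi).1)
      bx := fun i hi j _ s hs h => hXA _ (hgX j _ (hxs j s hs).1) (h ▸ (hab1 i hi).2)
      ra := fun i _ s hs => congrArg Prod.fst (hxs i s hs).2
      rb := fun i _ s hs => congrArg Prod.snd (hxs i s hs).2 }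
  refine ⟨G, ?_, ?_⟩
  · intro i hi s hs
    have hs' : s ∈ N i := hs
    obtain ⟨x, hx, rfl⟩ := hex i s hs'
    have hxX := hgX i x hx
    have hd : Nat.dist (rk Δ (dist (a i) x)) (rk Δ (dist (b i) x)) ≤ w := (mem_filter.mp hx).2
    unfold Nat.dist at hd
    rw [mem_strip]
    refine ⟨⟨rk_lt_card (hdist _ (hab1 i hi).1 x hxX), rk_lt_card (hdist _ (hab1 i hi).2 x hxX)⟩, ?_, ?_⟩
    · show rk Δ (dist (a i) x) ≤ rk Δ (dist (b i) x) + w
      omega
    · show rk Δ (dist (b i) x) ≤ rk Δ (dist (a i) x) + w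
      omega
  · intro i hi
    have hNi : G.N i = (good i).image (g i) := rfl
    rw [hNi]
    -- few bad points
    set bad := X.filter (fun x => ¬ Nat.dist (rk Δ (dist (a i) x)) (rk Δ (dist (b i) x)) ≤ w) with hbad
    have h1 : bad.card * (w + 1) ≤ ∑ x ∈ X, Nat.dist (rk Δ (dist (a i) x)) (rk Δ (dist (b i) x)) := by
      refine le_trans ?_ (sum_le_sum_of_subset (filter_subset (fun x =>
        ¬ Nat.dist (rk Δ (dist (a i) x)) (rk Δ (dist (b i) x)) ≤ w) X))
      have h2 := card_nsmul_le_sum bad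
        (fun x => Nat.dist (rk Δ (dist (a i) x)) (rk Δ (dist (b i) x))) (w + 1) (by
          intro x hx
          have h3 := (mem_filter.mp hx).2
          omega)
      rw [smul_eq_mul] at h2
      exact h2
    have h2 := hsum i hi
    have h3 : 2 * bad.card ≤ ξ := by
      have h4 : (w + 1) * (2 * bad.card) ≤ (w + 1) * ξ := by
        calc (w + 1) * (2 * bad.card) = 2 * (bad.card * (w + 1)) := by ring
          _ ≤ 2 * t := by omega
          _ ≤ (w + 1) * ξ := hw
      exact Nat.le_of_mul_le_mul_left h4 (by omega)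
    have h4 : (good i).card + bad.card = ξ := by
      rw [← hXc]
      exact card_filter_add_card_filter_not (s := X)
        (fun x => Nat.dist (rk Δ (dist (a i) x)) (rk Δ (dist (b i) x)) ≤ w)
    have h5 : (good i).card ≤ 2 * ((good i).image (g i)).card := by
      apply card_le_mul_card_image
      intro s hs
      obtain ⟨x0, hx0, rfl⟩ := mem_image.mp hs
      apply two_circles (p := a i) (q := b i) (habne i hi i hi) (dist (a i) x0) (dist (b i) x0)
      intro z hz
      obtain ⟨hz1, hz2⟩ := mem_filter.mp hz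
      have e1 : rk Δ (dist (a i) z) = rk Δ (dist (a i) x0) := congrArg Prod.fst hz2
      have e2 : rk Δ (dist (b i) z) = rk Δ (dist (b i) x0) := congrArg Prod.snd hz2
      exact ⟨rk_inj (hdist _ (hab1 i hi).1 z (hgX i z hz1)) (hdist _ (hab1 i hi).1 x0 (hgX i x0 hx0)) e1,
        rk_inj (hdist _ (hab1 i hi).2 z (hgX i z hz1)) (hdist _ (hab1 i hi).2 x0 (hgX i x0 hx0)) e2⟩
    have h6 : ((good i).image (g i)).card ≤ (good i).card := card_image_le
    omega

end Pool.Agent.Lib.LocD
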